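import Pool.Agent.StripNear.Basic

/-! # From counting to densities of packings of unit discs in a strip -/

namespace Pool.Agent.StripNear

open MeasureTheory Filter Topology

/-- The Euclidean plane. -/
abbrev E2 := EuclideanSpace ℝ (Fin 2)

/-- The closed strip of width `w`. -/
def Strip (w : ℝ) : Set E2 := {p | 0 ≤ p 1 ∧ p 1 ≤ w}

/-- `C` is the set of centres of a family of closed unit discs in the strip of width `w` whose
interiors are pairwise disjoint. -/
def IsStripPacking (w : ℝ) (C : Set E2) : Prop :=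
  (∀ c ∈ C, Metric.closedBall c 1 ⊆ Strip w) ∧
  ∀ c ∈ C, ∀ c' ∈ C, c ≠ c' → Disjoint (Metric.ball c 1) (Metric.ball c' 1)

/-- The sum of the areas of the parts of the discs in the closed disc of radius `r` about `O`. -/
noncomputable def coveredArea (C : Set E2) (O : E2) (r : ℝ) : ℝ :=
  (∑' c : C, volume (Metric.closedBall (c : E2) 1 ∩ Metric.closedBall O r)).toReal

/-- The packing has density `d` relative to the strip, measured about `O`. -/
def HasDensity (w : ℝ) (C : Set E2) (O : E2) (d : ℝ) : Prop :=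
  Tendsto (fun r : ℝ => coveredArea C O r / (volume (Strip w ∩ Metric.closedBall O r)).toReal)
    atTop (𝓝 d)

private theorem de_dist_sq (p q : E2) : dist p q ^ 2 = (p 0 - q 0) ^ 2 + (p 1 - q 1) ^ 2 := by
  rw [EuclideanSpace.dist_eq, Real.sq_sqrt (by positivity), Fin.sum_univ_two, Real.dist_eq,
    Real.dist_eq, sq_abs, sq_abs]

private theorem de_center {w : ℝ} {c : E2} (h : Metric.closedBall c 1 ⊆ Strip w) :
    1 ≤ c 1 ∧ c 1 ≤ w - 1 := by
  constructor
  · have h1 : c - EuclideanSpace.single 1 1 ∈ Metric.closedBall c 1 := by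
      rw [mem_closedBall_iff_norm]
      simp
    have h2 := (h h1).1
    simp at h2
    linarith
  · have h1 : c + EuclideanSpace.single 1 1 ∈ Metric.closedBall c 1 := by
      rw [mem_closedBall_iff_norm]
      simp
    have h2 := (h h1).2
    simp at h2
    linarith

private theorem de_sep {c c' : E2} (h : Disjoint (Metric.ball c 1) (Metric.ball c' 1)) :
    2 ≤ dist c c' := by
  by_contra hcon
  push Not at hcon
  rw [Set.disjoint_left] at h
  have h1 : midpoint ℝ c c' ∈ Metric.ball c 1 := by
    rw [Metric.mem_ball, dist_midpoint_left]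
    simp
    linarith
  have h2 : midpoint ℝ c c' ∈ Metric.ball c' 1 := by
    rw [Metric.mem_ball, dist_midpoint_right]
    simp
    linarith
  exact h h1 h2

/-- The normalised position of a centre. -/
private noncomputable def de_pos (O : E2) (r : ℝ) (c : E2) : Pt :=
  ((c 0 - (O 0 - r - 1)) / 2, (c 1 - 1) / 2)

private theorem de_card {w m C0 : ℝ}
    (hcount : ∀ L : ℝ, 0 ≤ L → ∀ X : Finset Pt, UnitSep X → (∀ p ∈ X, 0 ≤ p.1 ∧ p.1 ≤ L) →
      InStrip ((w - 2) / 2) X → (X.card : ℝ) ≤ m * L + C0)
    {C : Set E2} (hC : IsStripPacking w C) {O : E2} {r : ℝ} (hr : 0 ≤ r) (F : Finset C)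
    (hF : ∀ c ∈ F, dist (c : E2) O ≤ r + 1) : (F.card : ℝ) ≤ m * (r + 1) + C0 := by
  classical
  have hd : ∀ c ∈ F, ∀ c' ∈ F, c ≠ c' → 1 ≤ ((de_pos O r c).1 - (de_pos O r c').1) ^ 2 +
      ((de_pos O r c).2 - (de_pos O r c').2) ^ 2 := by
    intro c _ c' _ hne
    have h1 := de_sep (hC.2 c c.2 c' c'.2 (fun h => hne (Subtype.ext h)))
    have h2 : 4 ≤ dist (c : E2) c' ^ 2 := by nlinarith
    rw [de_dist_sq] at h2
    unfold de_pos
    simp only
    nlinarith
  have hinj : Set.InjOn (fun c : C => de_pos O r c) F := by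
    intro c hc c' hc' h
    by_contra hne
    have := hd c hc c' hc' hne
    simp only at h
    rw [h] at this
    norm_num at this
  have hcard : (F.image (fun c : C => de_pos O r c)).card = F.card :=
    Finset.card_image_of_injOn hinj
  rw [← hcard]
  apply hcount (r + 1) (by linarith)
  · intro p hp q hq hne
    obtain ⟨c, hc, rfl⟩ := Finset.mem_image.1 hp
    obtain ⟨c', hc', rfl⟩ := Finset.mem_image.1 hq
    apply hd c hc c' hc'
    rintro rfl
    exact hne rfl
  · intro p hp
    obtain ⟨c, hc, rfl⟩ := Finset.mem_image.1 hp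
    have h1 := hF c hc
    have h2 : ((c : E2) 0 - O 0) ^ 2 ≤ (r + 1) ^ 2 := by
      have h3 : dist (c : E2) O ^ 2 ≤ (r + 1) ^ 2 := by
        apply pow_le_pow_left₀ dist_nonneg h1
      rw [de_dist_sq] at h3
      nlinarith [sq_nonneg ((c : E2) 1 - O 1)]
    have h3 := abs_le.1 (abs_le_of_sq_le_sq h2 (by linarith))
    unfold de_pos
    simp only
    constructor <;> linarith [h3.1, h3.2]
  · intro p hp
    obtain ⟨c, hc, rfl⟩ := Finset.mem_image.1 hp
    have h1 := de_center (hC.1 c c.2)
    unfold de_pos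
    simp only
    constructor <;> linarith [h1.1, h1.2]

private theorem de_covered {w m C0 : ℝ}
    (hcount : ∀ L : ℝ, 0 ≤ L → ∀ X : Finset Pt, UnitSep X → (∀ p ∈ X, 0 ≤ p.1 ∧ p.1 ≤ L) →
      InStrip ((w - 2) / 2) X → (X.card : ℝ) ≤ m * L + C0)
    {C : Set E2} (hC : IsStripPacking w C) {O : E2} {r : ℝ} (hr : 0 ≤ r) :
    coveredArea C O r ≤ Real.pi * (m * (r + 1) + C0) := by
  classical
  have hfin : {c : C | dist (c : E2) O ≤ r + 1}.Finite := by
    by_contra hinf
    obtain ⟨t, ht, hcard⟩ := Set.Infinite.exists_subset_card_eq hinf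
      (⌈m * (r + 1) + C0⌉₊ + 1)
    have h1 := de_card hcount hC hr t (fun c hc => ht hc)
    rw [hcard] at h1
    have h2 := Nat.le_ceil (m * (r + 1) + C0)
    push_cast at h1
    linarith
  set F := hfin.toFinset with hFdef
  have hF : ∀ c ∈ F, dist (c : E2) O ≤ r + 1 := by
    intro c hc
    rw [hFdef, Set.Finite.mem_toFinset] at hc
    exact hc
  have hz : ∀ c ∉ F, volume (Metric.closedBall (c : E2) 1 ∩ Metric.closedBall O r) = 0 := by
    intro c hc
    have h1 : ¬ dist (c : E2) O ≤ r + 1 := by
      intro h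
      apply hc
      rw [hFdef, Set.Finite.mem_toFinset]
      exact h
    have h2 : Metric.closedBall (c : E2) 1 ∩ Metric.closedBall O r = ∅ := by
      rw [Set.eq_empty_iff_forall_notMem]
      rintro x ⟨hx1, hx2⟩
      apply h1
      rw [Metric.mem_closedBall] at hx1 hx2
      calc dist (c : E2) O ≤ dist (c : E2) x + dist x O := dist_triangle _ _ _
        _ ≤ 1 + r := by
          rw [dist_comm] at hx1
          exact add_le_add hx1 hx2
        _ = r + 1 := by ring
    rw [h2, measure_empty]
  have hsum : ∑' c : C, volume (Metric.closedBall (c : E2) 1 ∩ Metric.closedBall O r) =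
      ∑ c ∈ F, volume (Metric.closedBall (c : E2) 1 ∩ Metric.closedBall O r) :=
    tsum_eq_sum hz
  have hle : ∑ c ∈ F, volume (Metric.closedBall (c : E2) 1 ∩ Metric.closedBall O r) ≤
      ∑ _c ∈ F, ENNReal.ofReal Real.pi := by
    apply Finset.sum_le_sum
    intro c _
    calc volume (Metric.closedBall (c : E2) 1 ∩ Metric.closedBall O r) ≤
        volume (Metric.closedBall (c : E2) 1) := measure_mono Set.inter_subset_left
      _ = ENNReal.ofReal Real.pi := by
        rw [EuclideanSpace.volume_closedBall_fin_two]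
        simp [ENNReal.ofReal]
  unfold coveredArea
  rw [hsum]
  calc (∑ c ∈ F, volume (Metric.closedBall (c : E2) 1 ∩ Metric.closedBall O r)).toReal ≤
      (∑ _c ∈ F, ENNReal.ofReal Real.pi).toReal := by
        apply ENNReal.toReal_mono _ hle
        rw [Finset.sum_const, nsmul_eq_mul]
        exact ENNReal.mul_ne_top (ENNReal.natCast_ne_top _) ENNReal.ofReal_ne_top
    _ = F.card * Real.pi := by
        rw [Finset.sum_const, nsmul_eq_mul, ENNReal.toReal_mul, ENNReal.toReal_natCast,
          ENNReal.toReal_ofReal Real.pi_pos.le]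
    _ ≤ Real.pi * (m * (r + 1) + C0) := by
        rw [mul_comm]
        exact mul_le_mul_of_nonneg_left (de_card hcount hC hr F hF) Real.pi_pos.le

private theorem de_strip {w : ℝ} (hw : 2 ≤ w) {O : E2} {r : ℝ} (hr : |O 1| + w ≤ r) :
    2 * w * (r - (|O 1| + w)) ≤ (volume (Strip w ∩ Metric.closedBall O r)).toReal := by
  have hO := abs_nonneg (O 1)
  set D := |O 1| + w with hD
  have hmp := PiLp.volume_preserving_ofLp (Fin 2)
  let R : Set (Fin 2 → ℝ) := Set.Icc ![O 0 - (r - D), 0] ![O 0 + (r - D), w]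
  have hR : volume R = ENNReal.ofReal (2 * w * (r - D)) := by
    show volume (Set.Icc ![O 0 - (r - D), 0] ![O 0 + (r - D), w]) = _
    rw [Real.volume_Icc_pi, Fin.prod_univ_two]
    simp only [Matrix.cons_val_zero, Matrix.cons_val_one]
    rw [← ENNReal.ofReal_mul (by linarith)]
    congr 1
    ring
  have hsub : (@WithLp.ofLp 2 (Fin 2 → ℝ)) ⁻¹' R ⊆ Strip w ∩ Metric.closedBall O r := by
    intro p hp
    rw [Set.mem_preimage] at hp
    have h0 := hp.1 0
    have h1 := hp.1 1
    have h2 := hp.2 0
    have h3 := hp.2 1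
    simp only [Matrix.cons_val_zero, Matrix.cons_val_one] at h0 h1 h2 h3
    refine ⟨⟨h1, h3⟩, ?_⟩
    rw [Metric.mem_closedBall]
    apply abs_le_of_sq_le_sq' _ (by linarith) |>.2
    rw [de_dist_sq]
    have h4 : (p 1 - O 1) ^ 2 ≤ D ^ 2 := by
      apply sq_le_sq'
      · have := le_abs_self (O 1)
        change 0 ≤ p 1 at h1
        linarith
      · have := neg_abs_le (O 1)
        change p 1 ≤ w at h3
        linarith
    have h5 : (p 0 - O 0) ^ 2 ≤ (r - D) ^ 2 := by
      apply sq_le_sq'
      · change O 0 - (r - D) ≤ p 0 at h0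
        linarith
      · change p 0 ≤ O 0 + (r - D) at h2
        linarith
    nlinarith
  have h1 : volume R ≤ volume (Strip w ∩ Metric.closedBall O r) := by
    rw [← hmp.measure_preimage measurableSet_Icc.nullMeasurableSet]
    exact measure_mono hsub
  have h2 : volume (Strip w ∩ Metric.closedBall O r) ≠ ⊤ :=
    ne_top_of_le_ne_top (measure_closedBall_lt_top (x := O) (r := r)).ne
      (measure_mono Set.inter_subset_right)
  rw [hR] at h1
  have h3 := ENNReal.toReal_mono h2 h1
  rwa [ENNReal.toReal_ofReal] at h3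
  have : 0 ≤ r - D := by linarith
  positivity

/-- From a linear count to a density bound. -/
theorem density_le {w m C0 : ℝ} (hw : 2 ≤ w)
    (hcount : ∀ L : ℝ, 0 ≤ L → ∀ X : Finset Pt, UnitSep X → (∀ p ∈ X, 0 ≤ p.1 ∧ p.1 ≤ L) →
      InStrip ((w - 2) / 2) X → (X.card : ℝ) ≤ m * L + C0)
    {C : Set E2} (hC : IsStripPacking w C) {O : E2} {d : ℝ} (hd : HasDensity w C O d) :
    d ≤ Real.pi * m / (2 * w) := by
  set D := |O 1| + w with hD
  have hw0 : 0 < w := by linarith
  have hlim : Tendsto (fun r : ℝ => Real.pi / (2 * w) * (m + (m * (1 + D) + C0) / (r - D))) atTop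
      (𝓝 (Real.pi / (2 * w) * (m + 0))) := by
    apply Tendsto.const_mul
    apply Tendsto.const_add
    apply Tendsto.div_atTop tendsto_const_nhds
    exact tendsto_atTop_add_const_right _ _ tendsto_id
  have h1 : d ≤ Real.pi / (2 * w) * (m + 0) := by
    refine le_of_tendsto_of_tendsto hd hlim ?_
    filter_upwards [eventually_ge_atTop 0, eventually_gt_atTop D] with r hr hrD
    have h2 := de_covered hcount hC (O := O) hr
    have h3 := de_strip hw (O := O) (r := r) hrD.le
    have h4 : 0 < 2 * w * (r - D) := by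
      have : 0 < r - D := by linarith
      positivity
    have h5 : 0 ≤ m * (r + 1) + C0 := by
      have := de_card hcount hC (O := O) hr ∅ (by simp)
      simpa using this
    calc coveredArea C O r / (volume (Strip w ∩ Metric.closedBall O r)).toReal ≤
        Real.pi * (m * (r + 1) + C0) / (2 * w * (r - D)) := by
          apply div_le_div₀ (by positivity) h2 h4 h3
      _ = Real.pi / (2 * w) * (m + (m * (1 + D) + C0) / (r - D)) := by
          have : r - D ≠ 0 := by linarith
          field_simp
          ring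
  rw [add_zero] at h1
  calc d ≤ Real.pi / (2 * w) * m := h1
    _ = Real.pi * m / (2 * w) := by ring

end Pool.Agent.StripNear
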