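import Pool.Agent.StripNear.ArrayDefs

/-! # Counting the points between two columns -/

namespace Pool.Agent.StripNear

variable {X : Finset Pt} {n : ℕ}

/-- Two points of one row of a unit separated set are at horizontal distance at least `.9`. -/
theorem row_sep (hX : UnitSep X) {ρ y : ℝ} (hρ1 : ρ ≤ 1 / 100) {p q : Pt} (hp : p ∈ X)
    (hq : q ∈ X) (hpq : p ≠ q) (h1 : |p.2 - y| ≤ ρ) (h2 : |q.2 - y| ≤ ρ) (h3 : p.1 ≤ q.1) :
    9 / 10 ≤ q.1 - p.1 := by
  have h4 := hX p hp q hq hpq
  rw [abs_le] at h1 h2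
  by_contra hcon
  push Not at hcon
  have h5 : (p.2 - q.2) ^ 2 ≤ (1 / 50) ^ 2 := by
    apply sq_le_sq'
    · linarith
    · linarith
  have h6 : (p.1 - q.1) ^ 2 ≤ (9 / 10) ^ 2 := by
    apply sq_le_sq'
    · linarith
    · linarith
  linarith

/-- Between column `0` and column `K` there are no other points. -/
theorem count_array (hX : UnitSep X) {ρ lo hi δ : ℝ} (hρ : 0 ≤ ρ) (hρ1 : ρ ≤ 1 / 100)
    (hδ : 0 < δ) (hH : InStrip (((n : ℝ) + 1) * h0 - δ) X)
    (hZ : Lat X n ρ lo hi) {K : ℕ} {P : ℕ → ℕ → Pt} (hP : IsArray X n ρ K P)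
    (h1 : ∀ r ≤ n + 1, lo ≤ (P r 0).1) (h2 : ∀ r ≤ n + 1, (P r K).1 ≤ hi) :
    (btw X (fun r => (P r 0).1) (fun r => (P r K).1)).card ≤ K * (n + 2) := by
  classical
  have h0g := h0_gt
  have hsub : btw X (fun r => (P r 0).1) (fun r => (P r K).1) ⊆
      (Finset.range K ×ˢ Finset.range (n + 2)).image (fun q : ℕ × ℕ => P q.2 q.1) := by
    intro p hp
    unfold btw at hp
    rw [Finset.mem_filter] at hp
    obtain ⟨hpX, h3, h4⟩ := hp
    have hHp := hH p hpX
    have hb : band p ≤ n + 1 := band_le hHp.1 (by linarith [hHp.2])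
    obtain ⟨r, hr, hr1, -, -, -⟩ := hZ p hpX ((h1 _ hb).trans h3) (h4.le.trans (h2 _ hb))
    have hbr : band p = r := band_eq (by linarith)
    rw [hbr] at h3 h4
    simp only at h3 h4
    -- the position in the row
    have hex : ∃ i, p.1 < (P r i).1 := ⟨K, h4⟩
    set i := Nat.find hex with hi
    have hi1 : p.1 < (P r i).1 := Nat.find_spec hex
    have hiK : i ≤ K := Nat.find_min' hex h4
    have hi0 : i ≠ 0 := by
      intro h
      rw [h] at hi1
      linarith
    obtain ⟨j, hj⟩ := Nat.exists_eq_succ_of_ne_zero hi0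
    have hj1 : (P r j).1 ≤ p.1 := by
      have := Nat.find_min hex (m := j) (by omega)
      exact not_lt.1 this
    rw [Finset.mem_image]
    refine ⟨(j, r), ?_, ?_⟩
    · rw [Finset.mem_product, Finset.mem_range, Finset.mem_range]
      exact ⟨by simp only; omega, by simp only; omega⟩
    · simp only
      by_contra hne
      have h5 := row_sep hX hρ1 (hP.mem r hr j (by omega)) hpX hne (hP.row r hr j (by omega))
        hr1 hj1
      have hi1' : p.1 < (P r (j + 1)).1 := by
        rw [hj] at hi1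
        exact hi1
      have hne' : p ≠ P r (j + 1) := by
        intro h
        rw [← h] at hi1'
        exact lt_irrefl _ hi1'
      have h6 := row_sep hX hρ1 hpX (hP.mem r hr (j + 1) (by omega)) hne' hr1
        (hP.row r hr (j + 1) (by omega)) hi1'.le
      have h7 := (hP.east r hr j (by omega)).1
      rw [abs_le] at h7
      linarith
  calc (btw X (fun r => (P r 0).1) (fun r => (P r K).1)).card
      ≤ ((Finset.range K ×ˢ Finset.range (n + 2)).image (fun q : ℕ × ℕ => P q.2 q.1)).card :=
        Finset.card_le_card hsub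
    _ ≤ (Finset.range K ×ˢ Finset.range (n + 2)).card := Finset.card_image_le
    _ = K * (n + 2) := by rw [Finset.card_product, Finset.card_range, Finset.card_range]

end Pool.Agent.StripNear
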