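import Pool.Agent.StripNear.TFacts

/-! # Chains, regular cuts -/

namespace Pool.Agent.StripNear

variable {X : Finset Pt} {n : ℕ}

theorem row_unique {y : ℝ} {r s : ℕ} (hr : |y - r * h0| ≤ 1 / 20) (hs : |y - s * h0| ≤ 1 / 20) :
    r = s := by
  have h0g := h0_gt
  rw [abs_le] at hr hs
  rcases lt_trichotomy r s with h | h | h
  · exfalso
    have h1 : (r : ℝ) + 1 ≤ s := by exact_mod_cast h
    nlinarith
  · exact h
  · exfalso
    have h1 : (s : ℝ) + 1 ≤ r := by exact_mod_cast h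
    nlinarith

open Classical in
/-- the chosen north-east neighbour -/
noncomputable def chainStep (X : Finset Pt) (ρ : ℝ) (p : Pt) : Pt :=
  if h : ∃ q ∈ X, Near ρ p (1 / 2) h0 q then h.choose else p

theorem chainStep_spec {X : Finset Pt} {ρ : ℝ} {p : Pt} (h : ∃ q ∈ X, Near ρ p (1 / 2) h0 q) :
    chainStep X ρ p ∈ X ∧ Near ρ p (1 / 2) h0 (chainStep X ρ p) := by
  unfold chainStep
  rw [dif_pos h]
  exact h.choose_spec

theorem exists_chain (hX : UnitSep X) {ρ u : ℝ} (hρ : 0 ≤ ρ) (hρ1 : ρ ≤ 1 / 100)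
    (hG : Good X n ρ u) : ∃ c, IsChain X n ρ u c := by
  obtain ⟨hG1, p0, hp0, hp1, hp2⟩ := hG
  have h0g := h0_gt
  set c : ℕ → Pt := fun r => (chainStep X ρ)^[r] p0 with hc
  have hc0 : c 0 = p0 := rfl
  have hcs : ∀ r, c (r + 1) = chainStep X ρ (c r) := by
    intro r
    rw [hc]
    simp only
    rw [Function.iterate_succ_apply']
  have key : ∀ r, r ≤ n + 1 → c r ∈ X ∧ |(c r).2 - r * h0| ≤ ρ ∧
      |(c r).1 - p0.1 - r / 2| ≤ r * ρ ∧ (r ≤ n → Near ρ (c r) (1 / 2) h0 (c (r + 1))) := by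
    intro r
    induction r with
    | zero =>
      intro _
      have h1 : |p0.2 - ((0 : ℕ) : ℝ) * h0| ≤ ρ := by
        rw [Nat.cast_zero, zero_mul, sub_zero]
        exact hp2
      refine ⟨hp0, h1, ?_, ?_⟩
      · rw [hc0, Nat.cast_zero]
        simp
      · intro _
        have h2 : |p0.1 - u| ≤ 2 * n + 20 := by
          have : (0 : ℝ) ≤ n := Nat.cast_nonneg n
          linarith
        obtain ⟨r', hr', hr1, -, hr3, -⟩ := hG1 p0 hp0 h2
        have h3 : r' = 0 := row_unique (hr1.trans (by linarith)) (h1.trans (by linarith))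
        have h4 := chainStep_spec (hr3 (by omega))
        rw [hcs 0]
        exact h4.2
    | succ r ih =>
      intro hr
      obtain ⟨h1, h2, h3, h4⟩ := ih (by omega)
      have h5 := h4 (by omega)
      have hrn : (r : ℝ) ≤ n := by exact_mod_cast (by omega : r ≤ n)
      have hr0 : (0 : ℝ) ≤ r := Nat.cast_nonneg r
      -- the next point is in `X`
      have h6 : |(c r).1 - u| ≤ 2 * n + 20 := by
        rw [abs_le] at h3 hp1 ⊢
        constructor <;> nlinarith
      obtain ⟨r', hr', hr1, -, hr3, -⟩ := hG1 (c r) h1 h6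
      have h7 : r' = r := row_unique (hr1.trans (by linarith)) (h2.trans (by linarith))
      have h8 := chainStep_spec (hr3 (by omega))
      rw [← hcs r] at h8
      obtain ⟨h9, h10⟩ := h8
      have h11 := h10.1
      have h12 := h10.2
      have h13 : |(c (r + 1)).1 - p0.1 - ((r + 1 : ℕ) : ℝ) / 2| ≤ ((r + 1 : ℕ) : ℝ) * ρ := by
        push_cast
        rw [abs_le] at h3 h11 ⊢
        constructor <;> nlinarith
      have h14 : |(c (r + 1)).1 - u| ≤ 2 * n + 20 := by
        push_cast at h13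
        rw [abs_le] at h13 hp1 ⊢
        constructor <;> nlinarith
      obtain ⟨s, hs, hs1, -, hs3, -⟩ := hG1 (c (r + 1)) h9 h14
      have h15 : |(c (r + 1)).2 - ((r + 1 : ℕ) : ℝ) * h0| ≤ 2 * ρ := by
        push_cast
        rw [abs_le] at h2 h12 ⊢
        constructor <;> nlinarith
      have h16 : s = r + 1 := row_unique (hs1.trans (by linarith)) (h15.trans (by linarith))
      refine ⟨h9, ?_, h13, ?_⟩
      · rw [h16] at hs1
        exact hs1
      · intro hrn'
        have h17 := chainStep_spec (hs3 (by omega))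
        rw [hcs (r + 1)]
        exact h17.2
  refine ⟨c, fun r hr => (key r hr).1, ?_, ?_, fun r hr => (key r (by omega)).2.2.2 hr⟩
  · rw [hc0]
    linarith
  · rw [hc0]
    exact hp2

/-- Position of the points of a chain. -/
theorem chain_pos {ρ u : ℝ} (hρ : 0 ≤ ρ) {c : ℕ → Pt}
    (hc : IsChain X n ρ u c) {r : ℕ} (hr : r ≤ n + 1) :
    |(c r).1 - (c 0).1 - r / 2| ≤ r * ρ := by
  induction r with
  | zero => simp
  | succ r ih =>
    have h1 := ih (by omega)
    have h2 := (hc.2.2.2 r (by omega)).1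
    push_cast
    rw [abs_le] at h1 h2 ⊢
    constructor <;> linarith

theorem chain_bounds {ρ u : ℝ} (hρ : 0 ≤ ρ) (hρ1 : ρ ≤ 1 / 100) {c : ℕ → Pt}
    (hc : IsChain X n ρ u c) {r : ℕ} (hr : r ≤ n + 1) :
    u - 5 ≤ (c r).1 ∧ (c r).1 ≤ u + n + 7 := by
  have h1 := chain_pos hρ hc hr
  have h2 := hc.2.1
  have h3 : (r : ℝ) ≤ n + 1 := by exact_mod_cast hr
  have h4 : (0 : ℝ) ≤ r := Nat.cast_nonneg r
  rw [abs_le] at h1 h2
  constructor <;> nlinarith

/-- Each point of a chain is within `ρ` of its row. -/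
theorem chain_row {ρ u : ℝ} (hρ : 0 ≤ ρ) (hρ1 : ρ ≤ 1 / 100) {c : ℕ → Pt}
    (hG : Good X n ρ u) (hc : IsChain X n ρ u c) {r : ℕ} (hr : r ≤ n + 1) :
    |(c r).2 - r * h0| ≤ ρ := by
  have h0g := h0_gt
  induction r with
  | zero =>
    rw [Nat.cast_zero, zero_mul, sub_zero]
    exact hc.2.2.1
  | succ r ih =>
    have h1 := ih (by omega)
    have h2 := (hc.2.2.2 r (by omega)).2
    have h3 := chain_bounds hρ hρ1 hc hr
    have hn : (0 : ℝ) ≤ n := Nat.cast_nonneg n
    have h4 : |(c (r + 1)).1 - u| ≤ 2 * n + 20 := by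
      rw [abs_le]
      constructor <;> linarith [h3.1, h3.2]
    obtain ⟨s, hs, hs1, -, -, -⟩ := hG.1 (c (r + 1)) (hc.1 (r + 1) hr) h4
    have h5 : |(c (r + 1)).2 - ((r + 1 : ℕ) : ℝ) * h0| ≤ 2 * ρ := by
      push_cast
      rw [abs_le] at h1 h2 ⊢
      constructor <;> nlinarith
    have h6 : s = r + 1 := row_unique (hs1.trans (by linarith)) (h5.trans (by linarith))
    rw [h6] at hs1
    exact hs1

/-- In a slab whose only possible row is `j` a point of a good zone is in row `j`. -/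
theorem slab_row {ρ η u : ℝ} (hρ : 0 ≤ ρ) (hη : 2 * ρ ≤ η) (hG : Good X n ρ u) {j : ℕ} {a : ℝ}
    (h1 : ((j : ℝ) - 1) * h0 + η < a) (h2 : a < j * h0 - η) {p : Pt} (hp : p ∈ X)
    (h3 : a ≤ p.2) (h4 : p.2 < a + h0) (h5 : |p.1 - u| ≤ 2 * n + 20) :
    |p.2 - j * h0| ≤ ρ := by
  have h0p := h0_pos
  obtain ⟨r, hr, hr1, -, -, -⟩ := hG.1 p hp h5
  have hr2 := abs_le.1 hr1
  have h6 : (r : ℝ) < j + 1 := by
    by_contra hcon
    push Not at hcon
    nlinarith
  have h7 : (j : ℝ) < r + 1 := by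
    by_contra hcon
    push Not at hcon
    nlinarith
  have h8 : r = j := by
    have h9 : r < j + 1 := by exact_mod_cast h6
    have h10 : j < r + 1 := by exact_mod_cast h7
    omega
  rw [h8] at hr1
  exact hr1

theorem chain_left (hX : UnitSep X) (hH : InStrip (((n : ℝ) + 1) * h0) X) {ρ η u : ℝ}
    (hρ : 0 ≤ ρ) (hρ1 : ρ ≤ 1 / 100) (hη : 2 * ρ ≤ η) {c : ℕ → Pt}
    (hG : Good X n ρ u) (hc : IsChain X n ρ u c) : LeftOK X n η (fun r => (c r).1) := by
  intro j hj a h1 h2 p hp h3 h4 h5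
  have hn : (0 : ℝ) ≤ n := Nat.cast_nonneg n
  have h0g := h0_gt
  simp only at h5 ⊢
  by_cases h6 : |p.1 - u| ≤ 2 * n + 20
  · have h7 := slab_row hρ hη hG h1 h2 hp h3 h4 h6
    have h8 : band p = j := band_eq (by linarith)
    rw [h8] at h5
    exact h5
  · have hb : band p ≤ n + 1 := band_le (hH p hp).1 (hH p hp).2
    have h7 := chain_bounds hρ hρ1 hc hj
    have h8 := chain_bounds hρ hρ1 hc hb
    rw [abs_le, not_and_or, not_le, not_le] at h6
    rcases h6 with h6 | h6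
    · linarith [h8.1]
    · linarith [h7.2]

theorem chain_right (hX : UnitSep X) (hH : InStrip (((n : ℝ) + 1) * h0) X) {ρ η u : ℝ}
    (hρ : 0 ≤ ρ) (hρ1 : ρ ≤ 1 / 100) (hη : 2 * ρ ≤ η) {c : ℕ → Pt}
    (hG : Good X n ρ u) (hc : IsChain X n ρ u c) : RightOK X n η (fun r => (c r).1) := by
  intro j hj a h1 h2 p hp h3 h4 h5
  have hn : (0 : ℝ) ≤ n := Nat.cast_nonneg n
  have h0g := h0_gt
  simp only at h5 ⊢
  by_cases h6 : |p.1 - u| ≤ 2 * n + 20
  · have h7 := slab_row hρ hη hG h1 h2 hp h3 h4 h6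
    have h8 : band p = j := band_eq (by linarith)
    rw [h8] at h5
    have h9 := abs_le.1 (chain_row hρ hρ1 hG hc hj)
    have h10 : xn X p a ≤ (c j).1 - p.1 := by
      refine xn_le (hc.1 j hj) ?_ ?_ h5
      · linarith
      · nlinarith
    linarith
  · have hb : band p ≤ n + 1 := band_le (hH p hp).1 (hH p hp).2
    have h7 := chain_bounds hρ hρ1 hc hj
    have h8 := chain_bounds hρ hρ1 hc hb
    have h9 := xn_le_two X p a
    rw [abs_le, not_and_or, not_le, not_le] at h6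
    rcases h6 with h6 | h6
    · linarith [h7.1]
    · linarith [h8.2]

end Pool.Agent.StripNear
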