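import Pool.Agent.StripNear.Basic

/-! # Real inequalities behind Groemer's pointwise inequality, part B -/

namespace Pool.Agent.StripNear

theorem h0_eq_sin : h0 = Real.sin (Real.pi / 3) := by
  rw [Real.sin_pi_div_three]; rfl

theorem arcsin_le_of {s : ℝ} (hs1 : s ≤ h0) : Real.arcsin s ≤ Real.pi / 3 := by
  have h : Real.arcsin s ≤ Real.arcsin h0 := Real.monotone_arcsin hs1
  rw [h0_eq_sin, Real.arcsin_sin (by linarith [Real.pi_pos]) (by linarith [Real.pi_pos])] at h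
  exact h

theorem sin_ge_of {x : ℝ} (h1 : Real.pi / 3 ≤ x) (h2 : x ≤ 2 * Real.pi / 3) : h0 ≤ Real.sin x := by
  have h := Real.sin_sub_sin x (Real.pi / 3)
  have hs : 0 ≤ Real.sin ((x - Real.pi / 3) / 2) :=
    Real.sin_nonneg_of_nonneg_of_le_pi (by linarith) (by linarith [Real.pi_pos])
  have hc : 0 ≤ Real.cos ((x + Real.pi / 3) / 2) :=
    Real.cos_nonneg_of_neg_pi_div_two_le_of_le (by linarith [Real.pi_pos]) (by linarith)
  rw [h0_eq_sin]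
  nlinarith [mul_nonneg hs hc]

theorem corner_aux {s v : ℝ} (hs : 0 ≤ s) (hs1 : s ≤ h0) (hv : 0 ≤ v) (hv1 : v ≤ h0)
    (hsmall : s * Real.sqrt (1 - v ^ 2) + v * Real.sqrt (1 - s ^ 2) < h0) :
    Real.arcsin s + Real.arcsin v < Real.pi / 3 := by
  have hlt := h0_lt
  by_contra hcon
  push Not at hcon
  have hb := arcsin_le_of hs1
  have hg := arcsin_le_of hv1
  have h := sin_ge_of hcon (by linarith)
  rw [Real.sin_add, Real.sin_arcsin (by linarith) (by linarith),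
    Real.sin_arcsin (by linarith) (by linarith), Real.cos_arcsin, Real.cos_arcsin] at h
  linarith

/-- Angle lemma: if `β + γ < 60` and `sin ω = sin β + sin γ ≥ h0` then `ω ≤ 90` exists and
`sin β ≤ sin (120 - ω)`. -/
theorem corner {s v : ℝ} (hs : 0 ≤ s) (hs1 : s ≤ h0) (hv : 0 ≤ v) (hv1 : v ≤ h0)
    (hsv : h0 ≤ s + v)
    (hsmall : s * Real.sqrt (1 - v ^ 2) + v * Real.sqrt (1 - s ^ 2) < h0) :
    s + v ≤ 1 ∧ s ≤ h0 * Real.sqrt (1 - (s + v) ^ 2) + (s + v) / 2 := by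
  have hlt := h0_lt
  have hgt := h0_gt
  have hsq := h0_sq
  have haux := corner_aux hs hs1 hv hv1 hsmall
  have hb0 : 0 ≤ Real.arcsin s := Real.arcsin_nonneg.2 hs
  have hg0 : 0 ≤ Real.arcsin v := Real.arcsin_nonneg.2 hv
  have hb := arcsin_le_of hs1
  have hg := arcsin_le_of hv1
  have ss : Real.sin (Real.arcsin s) = s := Real.sin_arcsin (by linarith) (by linarith)
  have sv : Real.sin (Real.arcsin v) = v := Real.sin_arcsin (by linarith) (by linarith)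
  have hone : s + v ≤ 1 := by
    have h := Real.sin_sub_sin (Real.arcsin s) (-Real.arcsin v)
    rw [Real.sin_neg, ss, sv] at h
    have h1 : Real.sin ((Real.arcsin s - -Real.arcsin v) / 2) ≤ 1 / 2 := by
      rw [← Real.sin_pi_div_six]
      apply Real.sin_le_sin_of_le_of_le_pi_div_two (by linarith [Real.pi_pos])
        (by linarith [Real.pi_pos])
      linarith
    have h0' : 0 ≤ Real.sin ((Real.arcsin s - -Real.arcsin v) / 2) :=
      Real.sin_nonneg_of_nonneg_of_le_pi (by linarith) (by linarith [Real.pi_pos])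
    have h2 : Real.cos ((Real.arcsin s + -Real.arcsin v) / 2) ≤ 1 := Real.cos_le_one _
    nlinarith
  refine ⟨hone, ?_⟩
  -- v < sin (60 - b)
  have hvlt : v < h0 * Real.sqrt (1 - s ^ 2) - s / 2 := by
    have h1 : Real.sin (Real.arcsin v) < Real.sin (Real.pi / 3 - Real.arcsin s) := by
      apply Real.sin_lt_sin_of_lt_of_le_pi_div_two (by linarith [Real.pi_pos])
        (by linarith [Real.pi_pos])
      linarith
    rw [sv, Real.sin_sub, ss, Real.cos_arcsin, Real.cos_pi_div_three, ← h0_eq_sin] at h1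
    linarith
  have c0 : 0 ≤ Real.sqrt (1 - s ^ 2) := Real.sqrt_nonneg _
  have w0 : 0 ≤ Real.sqrt (1 - (s + v) ^ 2) := Real.sqrt_nonneg _
  have c2 : Real.sqrt (1 - s ^ 2) ^ 2 = 1 - s ^ 2 := Real.sq_sqrt (by nlinarith)
  have w2 : Real.sqrt (1 - (s + v) ^ 2) ^ 2 = 1 - (s + v) ^ 2 := Real.sq_sqrt (by nlinarith)
  by_contra hcon
  push Not at hcon
  have k1 : (h0 * Real.sqrt (1 - (s + v) ^ 2)) ^ 2 < (s - (s + v) / 2) ^ 2 := by
    apply pow_lt_pow_left₀ (by linarith) (by positivity) (by norm_num)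
  have k2 : ((s + v) - s / 2) ^ 2 < (h0 * Real.sqrt (1 - s ^ 2)) ^ 2 := by
    apply pow_lt_pow_left₀ (by linarith) (by linarith) (by norm_num)
  rw [mul_pow, hsq, w2] at k1
  rw [mul_pow, hsq, c2] at k2
  nlinarith

theorem conc_aux {s s1 d1 : ℝ} (hs : 0 ≤ s) (s1pos : 0 < s1) (hcor : s ≤ s1) (d1pos : 0 ≤ d1)
    (hsd : s1 ^ 2 + d1 ^ 2 = 1) :
    (1 - s / s1) + (s / s1) * d1 ≤ Real.sqrt (1 - s ^ 2) := by
  apply Real.le_sqrt_of_sq_le
  have ht0 : 0 ≤ s / s1 := div_nonneg hs s1pos.le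
  have ht1 : s / s1 ≤ 1 := (div_le_one s1pos).2 hcor
  have hst : s = s / s1 * s1 := by field_simp
  generalize s / s1 = t at *
  have hd1le : d1 ≤ 1 := by nlinarith [sq_nonneg s1]
  have k1 : ((1 - t) + t * d1) ^ 2
      = (1 - t) ^ 2 + 2 * (t * (1 - t)) * d1 + t ^ 2 * (s1 ^ 2 + d1 ^ 2) - (t * s1) ^ 2 := by
    ring
  have k2 : t * (1 - t) * d1 ≤ t * (1 - t) * 1 :=
    mul_le_mul_of_nonneg_left hd1le (mul_nonneg ht0 (sub_nonneg.2 ht1))
  rw [k1, hsd, ← hst]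
  have k3 : (1 - t) ^ 2 + 2 * (t * (1 - t)) * d1 + t ^ 2 * 1 ≤ 1 := by nlinarith
  linarith

theorem conc_aux2 {s s1 d1 w V : ℝ} (hs : 0 ≤ s) (s1pos : 0 < s1) (hcor : s ≤ s1)
    (d1pos : 0 ≤ d1) (hsd : s1 ^ 2 + d1 ^ 2 = 1) (hV : h0 ≤ V)
    (e2 : h0 * d1 + s1 * w = h0 - (V - h0) * d1) :
    h0 - (V - h0) * d1 ≤ h0 * Real.sqrt (1 - s ^ 2) + s * w := by
  have hconc := conc_aux hs s1pos hcor d1pos hsd
  have ht0 : 0 ≤ s / s1 := div_nonneg hs s1pos.le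
  have ht1 : s / s1 ≤ 1 := (div_le_one s1pos).2 hcor
  have hst : s * w = s / s1 * (s1 * w) := by field_simp
  rw [hst]
  generalize s / s1 = t at *
  have e1 : h0 * ((1 - t) + t * d1) ≤ h0 * Real.sqrt (1 - s ^ 2) :=
    mul_le_mul_of_nonneg_left hconc h0_pos.le
  have e3 : 0 ≤ (V - h0) * d1 := mul_nonneg (by linarith) d1pos
  have e4 : 0 ≤ (1 - t) * ((V - h0) * d1) := mul_nonneg (sub_nonneg.2 ht1) e3
  have e5 : h0 * ((1 - t) + t * d1) + t * (s1 * w)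
      = (1 - t) * h0 + t * (h0 * d1 + s1 * w) := by ring
  rw [e2] at e5
  nlinarith

theorem Z_bound {V w x x' A B Z : ℝ} (hVh : h0 ≤ V) (w0 : 0 ≤ w) (w2 : w ^ 2 = 1 - V ^ 2)
    (whalf : w ≤ 1 / 2) (hxw : w ≤ x' - x) (hxx : x ≤ x') (hA : 0 ≤ A) (hB : 0 ≤ B)
    (hAB : A + B = V) (hZ : x' ≤ Z) (h4 : 1 ≤ (Z - x) ^ 2 + A ^ 2)
    (h5 : 1 ≤ (Z - x') ^ 2 + B ^ 2) : w / 2 + h0 * V ≤ Z - x := by
  have hgt := h0_gt
  have hlt := h0_lt
  have hsq := h0_sq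
  by_contra hcon
  push Not at hcon
  have hz0 : 0 ≤ Z - x := by linarith
  have a1 : (Z - x) ^ 2 < (w / 2 + h0 * V) ^ 2 := pow_lt_pow_left₀ hcon hz0 (by norm_num)
  have i1 : (w / 2 + h0 * V) ^ 2 + (V / 2 - h0 * w) ^ 2 = 1 := by
    have : (w / 2 + h0 * V) ^ 2 + (V / 2 - h0 * w) ^ 2 = (w ^ 2 + V ^ 2) * (1 / 4 + h0 ^ 2) := by
      ring
    rw [this, hsq, w2]; ring
  have i2 : (h0 * V - w / 2) ^ 2 + (h0 * w + V / 2) ^ 2 = 1 := by
    have : (h0 * V - w / 2) ^ 2 + (h0 * w + V / 2) ^ 2 = (w ^ 2 + V ^ 2) * (1 / 4 + h0 ^ 2) := by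
      ring
    rw [this, hsq, w2]; ring
  have a2 : V / 2 - h0 * w < A := by
    have : (V / 2 - h0 * w) ^ 2 < A ^ 2 := by linarith
    exact lt_of_pow_lt_pow_left₀ 2 hA this
  have hz1 : 0 ≤ Z - x' := by linarith
  have b0 : Z - x' < h0 * V - w / 2 := by linarith
  have b1 : (Z - x') ^ 2 < (h0 * V - w / 2) ^ 2 := pow_lt_pow_left₀ b0 hz1 (by norm_num)
  have b2 : h0 * w + V / 2 < B := by
    have : (h0 * w + V / 2) ^ 2 < B ^ 2 := by linarith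
    exact lt_of_pow_lt_pow_left₀ 2 hB this
  linarith

theorem A2_small {s v x x' A B Z : ℝ} (hs : 0 ≤ s) (hs1 : s ≤ h0) (hv : 0 ≤ v) (hv1 : v ≤ h0)
    (hsv : h0 ≤ s + v) (hx : 0 < x) (h1 : 1 ≤ x ^ 2 + s ^ 2) (hxx : x ≤ x')
    (h3 : 1 ≤ (x' - x) ^ 2 + (s + v) ^ 2) (hA : 0 ≤ A) (hB : 0 ≤ B) (hAB : A + B = s + v)
    (hZ : x' ≤ Z) (h4 : 1 ≤ (Z - x) ^ 2 + A ^ 2) (h5 : 1 ≤ (Z - x') ^ 2 + B ^ 2)
    (hsmall : s * Real.sqrt (1 - v ^ 2) + v * Real.sqrt (1 - s ^ 2) < h0) :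
    h0 ≤ (h0 - s) * x + (h0 - v) * x' + (s + v - h0) * Z := by
  have hlt := h0_lt
  have hgt := h0_gt
  have hsq := h0_sq
  obtain ⟨hone, hcor⟩ := corner hs hs1 hv hv1 hsv hsmall
  have w0 : 0 ≤ Real.sqrt (1 - (s + v) ^ 2) := Real.sqrt_nonneg _
  have w2 : Real.sqrt (1 - (s + v) ^ 2) ^ 2 = 1 - (s + v) ^ 2 := Real.sq_sqrt (by nlinarith)
  have hxw : Real.sqrt (1 - (s + v) ^ 2) ≤ x' - x :=
    Real.sqrt_le_iff.2 ⟨by linarith, by linarith⟩
  generalize hw : Real.sqrt (1 - (s + v) ^ 2) = w at *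
  have whalf : w ≤ 1 / 2 := by nlinarith
  have hZw : w / 2 + h0 * (s + v) ≤ Z - x :=
    Z_bound hsv w0 w2 whalf hxw hxx hA hB hAB hZ h4 h5
  have c1 : Real.sqrt (1 - s ^ 2) ≤ x := Real.sqrt_le_iff.2 ⟨hx.le, by linarith⟩
  have e1 : (h0 - v) * (x + w) ≤ (h0 - v) * x' :=
    mul_le_mul_of_nonneg_left (by linarith) (by linarith)
  have e2 : (s + v - h0) * (x + (w / 2 + h0 * (s + v))) ≤ (s + v - h0) * Z :=
    mul_le_mul_of_nonneg_left (by linarith) (by linarith)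
  have s1pos : 0 < h0 * w + (s + v) / 2 := by nlinarith [h0_pos]
  have d1pos : 0 ≤ h0 * (s + v) - w / 2 := by nlinarith [h0_pos]
  have hsd : (h0 * w + (s + v) / 2) ^ 2 + (h0 * (s + v) - w / 2) ^ 2 = 1 := by
    have : (h0 * w + (s + v) / 2) ^ 2 + (h0 * (s + v) - w / 2) ^ 2
        = (w ^ 2 + (s + v) ^ 2) * (1 / 4 + h0 ^ 2) := by ring
    rw [this, hsq, w2]; ring
  have key : h0 * (h0 * (s + v) - w / 2) + (h0 * w + (s + v) / 2) * w
      = h0 - (s + v - h0) * (h0 * (s + v) - w / 2) := by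
    have : h0 * (h0 * (s + v) - w / 2) + (h0 * w + (s + v) / 2) * w
        - (h0 - (s + v - h0) * (h0 * (s + v) - w / 2))
        = h0 * (w ^ 2 + (s + v) ^ 2 - 1) := by ring
    rw [w2] at this
    linarith [this]
  have r2 := conc_aux2 (w := w) hs s1pos hcor d1pos hsd hsv key
  have r3 : h0 * Real.sqrt (1 - s ^ 2) ≤ h0 * x := mul_le_mul_of_nonneg_left c1 h0_pos.le
  have i1 : (h0 - s) * x + (h0 - v) * (x + w) + (s + v - h0) * (x + (w / 2 + h0 * (s + v)))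
      = h0 * x + s * w + (s + v - h0) * (h0 * (s + v) - w / 2) := by ring
  linarith

end Pool.Agent.StripNear
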