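import Pool.Agent.StripNear.TFacts

/-! # Accounting between two cuts -/

namespace Pool.Agent.StripNear

open MeasureTheory

variable {X : Finset Pt} {n : ℕ}

/-- In one slab: the intervals `[p.1, p.1 + xn X p a)` are disjoint and miss `U X a`. -/
theorem slab_sum (hX : UnitSep X) (a : ℝ) (S : Finset Pt) (hS : S ⊆ X)
    (hSa : ∀ p ∈ S, a ≤ p.2 ∧ p.2 < a + h0) {γ γ' α β : ℝ}
    (h1 : ∀ p ∈ S, γ ≤ p.1 ∧ p.1 + xn X p a ≤ γ') (hα : γ ≤ α) (hβ : β ≤ γ') (hγ : γ ≤ γ') :
    (∑ p ∈ S, xn X p a) + ulen X a α β ≤ γ' - γ := by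
  have hlt : h0 < 1 := by have := h0_lt; linarith
  have hdisj : (S : Set Pt).PairwiseDisjoint (fun p => Set.Ico p.1 (p.1 + xn X p a)) := by
    intro p hp q hq hpq
    have hpX := hS hp
    have hqX := hS hq
    obtain ⟨hp1, hp2⟩ := hSa p hp
    obtain ⟨hq1, hq2⟩ := hSa q hq
    have hne : p.1 ≠ q.1 := by
      intro h
      have := hX p hpX q hqX hpq
      rw [h] at this
      have h3 : p.2 - q.2 < h0 := by linarith
      have h4 : -h0 < p.2 - q.2 := by linarith
      nlinarith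
    simp only [Function.onFun]
    rw [Set.disjoint_left]
    intro u hu hu'
    rcases lt_or_gt_of_ne hne with h | h
    · have := xn_le hqX hq1 hq2 h
      linarith [hu.2, hu'.1]
    · have := xn_le hpX hp1 hp2 h
      linarith [hu'.2, hu.1]
  have hmeas : ∀ p ∈ S, MeasurableSet (Set.Ico p.1 (p.1 + xn X p a)) :=
    fun p _ => measurableSet_Ico
  have hV : MeasurableSet (U X a ∩ Set.Ico α β) := (measurableSet_U X a).inter measurableSet_Ico
  have hd2 : Disjoint (⋃ p ∈ S, Set.Ico p.1 (p.1 + xn X p a)) (U X a ∩ Set.Ico α β) := by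
    rw [Set.disjoint_left]
    intro u hu hu'
    simp only [Set.mem_iUnion, exists_prop] at hu
    obtain ⟨p, hp, hu1, hu2⟩ := hu
    obtain ⟨hp1, hp2⟩ := hSa p hp
    exact hu'.1 p (hS hp) hp1 hp2 ⟨hu1, lt_of_lt_of_le hu2 (by linarith [xn_le_two X p a])⟩
  have hsub : (⋃ p ∈ S, Set.Ico p.1 (p.1 + xn X p a)) ∪ (U X a ∩ Set.Ico α β)
      ⊆ Set.Ico γ γ' := by
    intro u hu
    rcases hu with hu | hu
    · simp only [Set.mem_iUnion, exists_prop] at hu
      obtain ⟨p, hp, hu1, hu2⟩ := hu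
      exact ⟨(h1 p hp).1.trans hu1, lt_of_lt_of_le hu2 (h1 p hp).2⟩
    · exact ⟨hα.trans hu.2.1, lt_of_lt_of_le hu.2.2 hβ⟩
  have hvol := measure_mono (μ := volume) hsub
  rw [measure_union hd2 hV, measure_biUnion_finset hdisj hmeas, Real.volume_Ico] at hvol
  have hfin : volume (U X a ∩ Set.Ico α β) ≠ ⊤ := by
    apply ne_of_lt
    refine lt_of_le_of_lt (measure_mono Set.inter_subset_right) ?_
    rw [Real.volume_Ico]
    exact ENNReal.ofReal_lt_top
  have e1 : ∑ p ∈ S, volume (Set.Ico p.1 (p.1 + xn X p a))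
      = ENNReal.ofReal (∑ p ∈ S, xn X p a) := by
    rw [ENNReal.ofReal_sum_of_nonneg (fun p _ => xn_nonneg X p a)]
    refine Finset.sum_congr rfl fun p _ => ?_
    rw [Real.volume_Ico]
    congr 1
    ring
  have e2 : volume (U X a ∩ Set.Ico α β) = ENNReal.ofReal (ulen X a α β) := by
    unfold ulen
    rw [ENNReal.ofReal_toReal hfin]
  rw [e1, e2, ← ENNReal.ofReal_add (Finset.sum_nonneg fun p _ => xn_nonneg X p a)
    (ulen_nonneg X a α β)] at hvol
  exact (ENNReal.ofReal_le_ofReal_iff (by linarith)).1 hvol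

open Classical in
/-- The distance to the next point, cut off outside the slabs containing the point. -/
noncomputable def gcut (X : Finset Pt) (p : Pt) (a : ℝ) : ℝ :=
  if a ≤ p.2 ∧ p.2 < a + h0 then xn X p a else 0

theorem gcut_eq (X : Finset Pt) (p : Pt) :
    gcut X p = Set.indicator (Set.Ioc (p.2 - h0) p.2) (fun a => xn X p a) := by
  funext a
  unfold gcut
  by_cases h : a ≤ p.2 ∧ p.2 < a + h0
  · rw [if_pos h, Set.indicator_of_mem]
    exact ⟨by linarith [h.2], h.1⟩
  · rw [if_neg h, Set.indicator_of_notMem]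
    intro h'
    exact h ⟨h'.2, by linarith [h'.1]⟩

theorem gcut_intervalIntegrable (X : Finset Pt) (p : Pt) (a b : ℝ) :
    IntervalIntegrable (gcut X p) volume a b := by
  have h := xn_intervalIntegrable X p a b
  rw [gcut_eq]
  exact ⟨h.1.indicator measurableSet_Ioc, h.2.indicator measurableSet_Ioc⟩

theorem sum_gcut_intervalIntegrable (X S : Finset Pt) (a b : ℝ) :
    IntervalIntegrable (fun u => ∑ p ∈ S, gcut X p u) volume a b := by
  have h := IntervalIntegrable.sum (μ := volume) (a := a) (b := b) S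
    (f := fun p => gcut X p) (fun p _ => gcut_intervalIntegrable X p a b)
  have e : (fun u => ∑ p ∈ S, gcut X p u) = ∑ p ∈ S, gcut X p := by
    funext u
    rw [Finset.sum_apply]
  rw [e]
  exact h

open Classical in
theorem sum_gcut (S : Finset Pt) (a : ℝ) :
    ∑ p ∈ S.filter (fun p => a ≤ p.2 ∧ p.2 < a + h0), xn X p a = ∑ p ∈ S, gcut X p a := by
  rw [Finset.sum_filter]
  rfl

open Classical in
/-- Interchange of sum and integral. -/
theorem sum_integral (S : Finset Pt) (hS : ∀ p ∈ S, 0 ≤ p.2 ∧ p.2 < ((n : ℝ) + 1) * h0) :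
    ∑ p ∈ S, (∫ a in (p.2 - h0)..p.2, xn X p a)
      = ∫ a in (-h0)..(((n : ℝ) + 1) * h0),
          ∑ p ∈ S.filter (fun p => a ≤ p.2 ∧ p.2 < a + h0), xn X p a := by
  have hh := h0_pos
  have e : ∀ a : ℝ, ∑ p ∈ S.filter (fun p => a ≤ p.2 ∧ p.2 < a + h0), xn X p a
      = ∑ p ∈ S, gcut X p a := fun a => sum_gcut S a
  simp_rw [e]
  rw [intervalIntegral.integral_finset_sum (fun p _ => gcut_intervalIntegrable X p _ _)]
  refine Finset.sum_congr rfl fun p hp => ?_
  obtain ⟨h1, h2⟩ := hS p hp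
  have hn : (0 : ℝ) ≤ ((n : ℝ) + 1) * h0 := by positivity
  rw [intervalIntegral.integral_of_le (by linarith), intervalIntegral.integral_of_le (by linarith),
    gcut_eq, setIntegral_indicator measurableSet_Ioc]
  congr 2
  ext u
  simp only [Set.mem_inter_iff, Set.mem_Ioc]
  constructor
  · rintro ⟨h3, h4⟩
    exact ⟨⟨by linarith, by linarith⟩, h3, h4⟩
  · rintro ⟨-, h⟩
    exact h

/-- One band of slabs. -/
theorem piece_bound {F : ℝ → ℝ} (hF : ∀ a b, IntervalIntegrable F volume a b) {A η m M : ℝ}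
    (hη : 0 < η) (hη1 : η ≤ 1 / 10)
    (h1 : ∀ a, A + η < a → a < A + h0 - η → F a ≤ m) (h2 : ∀ a, F a ≤ m + M) :
    ∫ a in A..(A + h0), F a ≤ h0 * m + 2 * η * M := by
  have hh := h0_gt
  have i1 : ∫ a in A..(A + η), F a ≤ η * (m + M) := by
    have := intervalIntegral.integral_mono_on (μ := volume) (a := A) (b := A + η) (f := F)
      (g := fun _ => m + M) (by linarith) (hF _ _) intervalIntegrable_const (fun x _ => h2 x)
    rw [intervalIntegral.integral_const, smul_eq_mul] at this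
    calc _ ≤ _ := this
      _ = _ := by ring
  have i3 : ∫ a in (A + h0 - η)..(A + h0), F a ≤ η * (m + M) := by
    have := intervalIntegral.integral_mono_on (μ := volume) (a := A + h0 - η) (b := A + h0) (f := F)
      (g := fun _ => m + M) (by linarith) (hF _ _) intervalIntegrable_const (fun x _ => h2 x)
    rw [intervalIntegral.integral_const, smul_eq_mul] at this
    calc _ ≤ _ := this
      _ = _ := by ring
  have i2 : ∫ a in (A + η)..(A + h0 - η), F a ≤ (h0 - 2 * η) * m := by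
    have := intervalIntegral.integral_mono_on_of_le_Ioo (μ := volume) (a := A + η)
      (b := A + h0 - η) (f := F)
      (g := fun _ => m) (by linarith) (hF _ _) intervalIntegrable_const
      (fun x hx => h1 x hx.1 hx.2)
    rw [intervalIntegral.integral_const, smul_eq_mul] at this
    calc _ ≤ _ := this
      _ = _ := by ring
  rw [← intervalIntegral.integral_add_adjacent_intervals (hF A (A + η)) (hF (A + η) (A + h0)),
    ← intervalIntegral.integral_add_adjacent_intervals (hF (A + η) (A + h0 - η))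
      (hF (A + h0 - η) (A + h0))]
  nlinarith

/-- The accounting lemma. -/
theorem accounting (hX : UnitSep X) {δ : ℝ} (hδ : 0 < δ)
    (hH : InStrip (((n : ℝ) + 1) * h0 - δ) X) {η : ℝ} (hη : 0 < η) (hη1 : η ≤ 1 / 10)
    (c d : ℕ → ℝ) (hcd : ∀ r ≤ n + 1, c r ≤ d r)
    (sc : ∀ r ≤ n + 1, |c r - c 0| ≤ n + 2) (sd : ∀ r ≤ n + 1, |d r - d 0| ≤ n + 2)
    (hL : LeftOK X n η c) (hR : RightOK X n η d) {α β : ℝ} (hαβ : α ≤ β)
    (hα : ∀ r ≤ n + 1, c r ≤ α) (hβ : ∀ r ≤ n + 1, β ≤ d r) :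
    ((btw X c d).card : ℝ) + T X n α β
      ≤ (∑ r ∈ Finset.range (n + 2), (d r - c r)) + 20 * (n + 2) ^ 2 * η := by
  classical
  have hh := h0_gt
  have hpos := h0_pos
  have hband : ∀ p ∈ X, band p ≤ n + 1 := fun p hp =>
    band_le (hH p hp).1 (by linarith [(hH p hp).2])
  set S := btw X c d with hSdef
  have hSX : S ⊆ X := Finset.filter_subset _ _
  have hSc : ∀ p ∈ S, c (band p) ≤ p.1 ∧ p.1 < d (band p) := fun p hp =>
    (Finset.mem_filter.1 hp).2
  -- the integrand
  set F : ℝ → ℝ := fun a => (∑ p ∈ S, gcut X p a) + ulen X a α β with hF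
  have hFi : ∀ a b, IntervalIntegrable F volume a b := by
    intro a b
    exact (sum_gcut_intervalIntegrable X S a b).add (ulen_intervalIntegrable X α β a b)
  have hFeq : ∀ a, F a = (∑ p ∈ S.filter (fun p => a ≤ p.2 ∧ p.2 < a + h0), xn X p a)
      + ulen X a α β := by
    intro a
    rw [hF]
    simp only
    rw [sum_gcut]
  have hgood : ∀ j : ℕ, j ≤ n + 1 → ∀ a : ℝ, ((j : ℝ) - 1) * h0 + η < a → a < j * h0 - η →
      F a ≤ d j - c j := by
    intro j hj a h1 h2
    rw [hFeq]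
    refine slab_sum hX a _ ((Finset.filter_subset _ _).trans hSX)
      (fun p hp => (Finset.mem_filter.1 hp).2) ?_ (hα j hj) (hβ j hj) (hcd j hj)
    intro p hp
    obtain ⟨hpS, hpa, hpb⟩ := Finset.mem_filter.1 hp
    exact ⟨hL j hj a h1 h2 p (hSX hpS) hpa hpb (hSc p hpS).1,
      hR j hj a h1 h2 p (hSX hpS) hpa hpb (hSc p hpS).2⟩
  have hall : ∀ j : ℕ, j ≤ n + 1 → ∀ a : ℝ, F a ≤ (d j - c j) + (4 * (n + 2) + 2) := by
    intro j hj a
    have h0 := slab_sum hX a (S.filter (fun p => a ≤ p.2 ∧ p.2 < a + h0))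
      ((Finset.filter_subset _ _).trans hSX)
      (fun p hp => (Finset.mem_filter.1 hp).2) (γ := c 0 - (n + 2)) (γ' := d 0 + (n + 2) + 2)
      (α := α) (β := β) ?_ (by have := hα 0 (by omega); linarith)
      (by have := hβ 0 (by omega); linarith) (by have := hcd 0 (by omega); linarith)
    · rw [hFeq]
      have h3 := abs_le.1 (sc j hj)
      have h4 := abs_le.1 (sd j hj)
      linarith [h3.1, h3.2, h4.1, h4.2]
    · intro p hp
      obtain ⟨hpS, hpa, hpb⟩ := Finset.mem_filter.1 hp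
      have hb := hband p (hSX hpS)
      have h3 := abs_le.1 (sc _ hb)
      have h4 := abs_le.1 (sd _ hb)
      have h5 := hSc p hpS
      have h6 := xn_le_two X p a
      constructor <;> linarith [h3.1, h3.2, h4.1, h4.2, h5.1, h5.2]
  -- the integral
  have hint : ∫ a in (-h0)..(((n : ℝ) + 1) * h0), F a
      ≤ h0 * (∑ r ∈ Finset.range (n + 2), (d r - c r))
        + (n + 2) * (2 * η * (4 * (n + 2) + 2)) := by
    have key := intervalIntegral.sum_integral_adjacent_intervals (μ := volume) (f := F)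
      (a := fun k : ℕ => ((k : ℝ) - 1) * h0) (n := n + 2) (fun k _ => hFi _ _)
    have e1 : ((0 : ℕ) : ℝ) = 0 := by norm_num
    have e2 : (((n + 2 : ℕ) : ℝ) - 1) * h0 = ((n : ℝ) + 1) * h0 := by push_cast; ring
    have e3 : (((0 : ℕ) : ℝ) - 1) * h0 = -h0 := by push_cast; ring
    rw [e2, e3] at key
    rw [← key]
    have hb : ∀ k ∈ Finset.range (n + 2),
        (∫ a in (((k : ℕ) : ℝ) - 1) * h0..((((k + 1 : ℕ)) : ℝ) - 1) * h0, F a)
          ≤ h0 * (d k - c k) + 2 * η * (4 * (n + 2) + 2) := by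
      intro k hk
      have hk' : k ≤ n + 1 := by
        have := Finset.mem_range.1 hk
        omega
      have e4 : ((((k + 1 : ℕ)) : ℝ) - 1) * h0 = ((k : ℝ) - 1) * h0 + h0 := by push_cast; ring
      rw [e4]
      exact piece_bound hFi hη hη1
        (fun a h1 h2 => hgood k hk' a h1 (by linarith)) (fun a => hall k hk' a)
    refine (Finset.sum_le_sum hb).trans (le_of_eq ?_)
    rw [Finset.sum_add_distrib, Finset.mul_sum, Finset.sum_const, Finset.card_range, nsmul_eq_mul]
    push_cast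
    ring
  -- slacks
  have hslack : (S.card : ℝ) + ∑ p ∈ S, slack X p
      = (1 / h0) * ∑ p ∈ S, (∫ a in (p.2 - h0)..p.2, xn X p a) := by
    unfold slack
    rw [Finset.sum_sub_distrib, Finset.mul_sum]
    simp
  have hsub : X.filter (fun p => α ≤ p.1 ∧ p.1 < β) ⊆ S := by
    intro p hp
    obtain ⟨hpX, hp1, hp2⟩ := Finset.mem_filter.1 hp
    have hb := hband p hpX
    exact Finset.mem_filter.2 ⟨hpX, (hα _ hb).trans hp1, lt_of_lt_of_le hp2 (hβ _ hb)⟩
  have hT : T X n α β ≤ (∑ p ∈ S, slack X p) + unc X n α β := by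
    unfold T
    have := Finset.sum_le_sum_of_subset_of_nonneg (f := fun p => slack X p) hsub
      (fun p hp _ => slack_nonneg hX (hSX hp))
    have h2 : ∑ p ∈ X.filter (fun p => α ≤ p.1 ∧ p.1 < β), slack X p ≤ ∑ p ∈ S, slack X p := this
    convert add_le_add_left h2 (unc X n α β) using 2
  have hsum := sum_integral (X := X) (n := n) S (fun p hp =>
    ⟨(hH p (hSX hp)).1, by linarith [(hH p (hSX hp)).2]⟩)
  have hFint : ∫ a in (-h0)..(((n : ℝ) + 1) * h0), F a
      = (∑ p ∈ S, (∫ a in (p.2 - h0)..p.2, xn X p a))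
        + ∫ a in (-h0)..(((n : ℝ) + 1) * h0), ulen X a α β := by
    rw [hsum, ← intervalIntegral.integral_add]
    · refine intervalIntegral.integral_congr fun a _ => ?_
      exact hFeq a
    · have h := sum_gcut_intervalIntegrable X S (-h0) (((n : ℝ) + 1) * h0)
      refine h.congr ?_
      exact fun x _ => (sum_gcut S x).symm
    · exact ulen_intervalIntegrable X α β _ _
  have hfinal : h0 * ((S.card : ℝ) + T X n α β)
      ≤ h0 * (∑ r ∈ Finset.range (n + 2), (d r - c r))
        + (n + 2) * (2 * η * (4 * (n + 2) + 2)) := by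
    refine le_trans ?_ hint
    rw [hFint]
    have h1 : h0 * ((S.card : ℝ) + T X n α β)
        ≤ h0 * ((S.card : ℝ) + ∑ p ∈ S, slack X p) + h0 * unc X n α β := by
      nlinarith [mul_le_mul_of_nonneg_left hT hpos.le]
    refine h1.trans (le_of_eq ?_)
    rw [hslack]
    unfold unc
    field_simp
  have hn : (0 : ℝ) ≤ n := Nat.cast_nonneg n
  have h5 : ((n : ℝ) + 2) * (2 * η * (4 * (n + 2) + 2)) ≤ h0 * (20 * (n + 2) ^ 2 * η) := by
    have h6 : 0 ≤ ((n : ℝ) + 2) * η := by positivity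
    have h7 : 2 * (4 * ((n : ℝ) + 2) + 2) ≤ h0 * (20 * (n + 2)) := by nlinarith
    calc ((n : ℝ) + 2) * (2 * η * (4 * (n + 2) + 2))
        = (((n : ℝ) + 2) * η) * (2 * (4 * (n + 2) + 2)) := by ring
      _ ≤ (((n : ℝ) + 2) * η) * (h0 * (20 * (n + 2))) := mul_le_mul_of_nonneg_left h7 h6
      _ = _ := by ring
  have h8 : h0 * ((S.card : ℝ) + T X n α β)
      ≤ h0 * ((∑ r ∈ Finset.range (n + 2), (d r - c r)) + 20 * (n + 2) ^ 2 * η) := by
    rw [mul_add]
    linarith
  exact le_of_mul_le_mul_left h8 hpos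

end Pool.Agent.StripNear
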