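import Pool.Agent.StripNear.Chains

/-! # Arrays of lattice-like points: definitions -/

namespace Pool.Agent.StripNear

variable {X : Finset Pt} {n : ℕ}

/-- Lattice structure on `[lo, hi]`. -/
def Lat (X : Finset Pt) (n : ℕ) (ρ lo hi : ℝ) : Prop :=
  ∀ p ∈ X, lo ≤ p.1 → p.1 ≤ hi → ∃ r : ℕ, r ≤ n + 1 ∧ |p.2 - r * h0| ≤ ρ ∧
    (∃ q ∈ X, Near ρ p 1 0 q) ∧
    (r ≤ n → ∃ q ∈ X, Near ρ p (1 / 2) h0 q) ∧
    (1 ≤ r → ∃ q ∈ X, Near ρ p (1 / 2) (-h0) q)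

/-- The array generated by a chain. -/
structure IsArray (X : Finset Pt) (n : ℕ) (ρ : ℝ) (N : ℕ) (P : ℕ → ℕ → Pt) : Prop where
  mem : ∀ r ≤ n + 1, ∀ i ≤ N, P r i ∈ X
  row : ∀ r ≤ n + 1, ∀ i ≤ N, |(P r i).2 - r * h0| ≤ ρ
  east : ∀ r ≤ n + 1, ∀ i < N, Near ρ (P r i) 1 0 (P r (i + 1))
  ne : ∀ r ≤ n, ∀ i ≤ N, Near ρ (P r i) (1 / 2) h0 (P (r + 1) i)

theorem lat_of_good {ρ : ℝ} {a a' : ℤ} (haa : a ≤ a')
    (hG : ∀ j : ℤ, a ≤ j → j ≤ a' → Good X n ρ j) :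
    Lat X n ρ ((a : ℝ) - (2 * n + 20)) ((a' : ℝ) + (2 * n + 20)) := by
  intro p hp h1 h2
  have hn : (0 : ℝ) ≤ n := Nat.cast_nonneg n
  rcases lt_or_ge p.1 a with h3 | h3
  · refine (hG a le_rfl haa).1 p hp ?_
    rw [abs_le]
    constructor <;> linarith
  · rcases lt_or_ge (a' : ℝ) p.1 with h4 | h4
    · refine (hG a' haa le_rfl).1 p hp ?_
      rw [abs_le]
      constructor <;> linarith
    · have h5 : a ≤ ⌊p.1⌋ := Int.le_floor.2 h3
      have h6 : ⌊p.1⌋ ≤ a' := by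
        have h7 : (⌊p.1⌋ : ℝ) ≤ a' := (Int.floor_le p.1).trans h4
        exact_mod_cast h7
      refine (hG ⌊p.1⌋ h5 h6).1 p hp ?_
      have h8 := Int.floor_le p.1
      have h9 := Int.lt_floor_add_one p.1
      rw [abs_le]
      constructor <;> linarith

/-- Horizontal position of the points of one column. -/
theorem array_col {ρ : ℝ} {N : ℕ} {P : ℕ → ℕ → Pt} (hP : IsArray X n ρ N P) {r i : ℕ}
    (hr : r ≤ n + 1) (hi : i ≤ N) : |(P r i).1 - (P 0 i).1 - r / 2| ≤ r * ρ := by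
  induction r with
  | zero => simp
  | succ r ih =>
    have h1 := ih (by omega)
    have h2 := (hP.ne r (by omega) i hi).1
    push_cast
    rw [abs_le] at h1 h2 ⊢
    constructor <;> linarith

end Pool.Agent.StripNear
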