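import Pool.Agent.StripNear.Chord

/-! # Elastic lemma: definitions and one-edge estimates

`x r i`, `y r i` are the coordinates of the point number `i` of the row `r`
(`0 ≤ r ≤ n + 1`, `0 ≤ i ≤ K + n + 2`); the point `(r + 1, i)` is the north-east neighbour of
`(r, i)` and the north-west neighbour of `(r, i + 1)`. -/

namespace Pool.Agent.StripNear

def vU (y : ℕ → ℕ → ℝ) (r i : ℕ) : ℝ := y (r + 1) i - y r i
def vD (y : ℕ → ℕ → ℝ) (r i : ℕ) : ℝ := y (r + 1) i - y r (i + 1)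
noncomputable def sU (x y : ℕ → ℕ → ℝ) (r i : ℕ) : ℝ :=
  x (r + 1) i - x r i - Real.sqrt (1 - (vU y r i) ^ 2)
noncomputable def sD (x y : ℕ → ℕ → ℝ) (r i : ℕ) : ℝ :=
  x r (i + 1) - x (r + 1) i - Real.sqrt (1 - (vD y r i) ^ 2)

/-- Column slack. -/
noncomputable def Acol (n : ℕ) (δ : ℝ) (x y : ℕ → ℕ → ℝ) (i : ℕ) : ℝ :=
  (∑ r ∈ Finset.range (n + 1), (sU x y r i + sD x y r i)) + y 0 i + y 0 (i + 1)
    + (((n : ℝ) + 1) * h0 - δ - y (n + 1) i)

/-- Slack of `n + 2` consecutive columns. -/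
noncomputable def Bcol (n : ℕ) (δ : ℝ) (x y : ℕ → ℕ → ℝ) (i : ℕ) : ℝ :=
  ∑ j ∈ Finset.range (n + 2), Acol n δ x y (i + j)

/-- Near-lattice array with `N + 1` columns `0, ..., N`. -/
structure ElData (n N : ℕ) (δ ρ : ℝ) (x y : ℕ → ℕ → ℝ) : Prop where
  bot : ∀ i ≤ N, 0 ≤ y 0 i
  top : ∀ i ≤ N, y (n + 1) i ≤ ((n : ℝ) + 1) * h0 - δ
  ny : ∀ r ≤ n + 1, ∀ i ≤ N, |y r i - r * h0| ≤ ρ
  nU : ∀ r ≤ n, ∀ i ≤ N, |x (r + 1) i - x r i - 1 / 2| ≤ ρ
  nD : ∀ r ≤ n, ∀ i < N, |x r (i + 1) - x (r + 1) i - 1 / 2| ≤ ρ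
  dU : ∀ r ≤ n, ∀ i ≤ N, 1 ≤ (x (r + 1) i - x r i) ^ 2 + (vU y r i) ^ 2
  dD : ∀ r ≤ n, ∀ i < N, 1 ≤ (x r (i + 1) - x (r + 1) i) ^ 2 + (vD y r i) ^ 2
  dE : ∀ i < N, 1 ≤ (x 0 (i + 1) - x 0 i) ^ 2 + (y 0 (i + 1) - y 0 i) ^ 2

variable {n N : ℕ} {δ ρ : ℝ} {x y : ℕ → ℕ → ℝ}

theorem vU_near (h : ElData n N δ ρ x y) {r i : ℕ} (hr : r ≤ n) (hi : i ≤ N) :
    |vU y r i - h0| ≤ 2 * ρ := by
  have h1 := h.ny (r + 1) (by omega) i hi
  have h2 := h.ny r (by omega) i hi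
  push_cast at h1
  unfold vU
  rw [abs_le] at h1 h2 ⊢
  constructor <;> linarith [h1.1, h1.2, h2.1, h2.2]

theorem vD_near (h : ElData n N δ ρ x y) {r i : ℕ} (hr : r ≤ n) (hi : i < N) :
    |vD y r i - h0| ≤ 2 * ρ := by
  have h1 := h.ny (r + 1) (by omega) i hi.le
  have h2 := h.ny r (by omega) (i + 1) (by omega)
  push_cast at h1
  unfold vD
  rw [abs_le] at h1 h2 ⊢
  constructor <;> linarith [h1.1, h1.2, h2.1, h2.2]

theorem sqrt_le_dx {d v ρ : ℝ} (hρ : ρ ≤ 1 / 100) (hd : |d - 1 / 2| ≤ ρ)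
    (h : 1 ≤ d ^ 2 + v ^ 2) : Real.sqrt (1 - v ^ 2) ≤ d := by
  have h1 := (abs_le.1 hd).1
  rw [Real.sqrt_le_iff]
  constructor
  · linarith
  · linarith

theorem sU_nonneg (h : ElData n N δ ρ x y) (hρ : ρ ≤ 1 / 100) {r i : ℕ} (hr : r ≤ n)
    (hi : i ≤ N) : 0 ≤ sU x y r i := by
  unfold sU
  have := sqrt_le_dx hρ (h.nU r hr i hi) (h.dU r hr i hi)
  linarith

theorem sD_nonneg (h : ElData n N δ ρ x y) (hρ : ρ ≤ 1 / 100) {r i : ℕ} (hr : r ≤ n)
    (hi : i < N) : 0 ≤ sD x y r i := by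
  unfold sD
  have := sqrt_le_dx hρ (h.nD r hr i hi) (h.dD r hr i hi)
  linarith

theorem Acol_nonneg (h : ElData n N δ ρ x y) (hρ : ρ ≤ 1 / 100) {i : ℕ} (hi : i < N) :
    0 ≤ Acol n δ x y i := by
  unfold Acol
  have h1 : 0 ≤ ∑ r ∈ Finset.range (n + 1), (sU x y r i + sD x y r i) := by
    apply Finset.sum_nonneg
    intro r hr
    have hr' : r ≤ n := by
      have := Finset.mem_range.1 hr
      omega
    exact add_nonneg (sU_nonneg h hρ hr' hi.le) (sD_nonneg h hρ hr' hi)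
  have h2 := h.bot i hi.le
  have h3 := h.bot (i + 1) (by omega)
  have h4 := h.top i hi.le
  linarith

/-- the width of a bottom triangle -/
theorem bottom_main (h : ElData n N δ ρ x y) (hρ : ρ ≤ 1 / 100) {i : ℕ} (hi : i < N) :
    2 * Real.sqrt 3 * (vU y 0 i - h0) ≤ Real.sqrt 3 * (y 0 (i + 1) - y 0 i)
      + (y 0 (i + 1) - y 0 i) ^ 2 + sU x y 0 i + sD x y 0 i := by
  have hv1 := vU_near h (Nat.zero_le n) hi.le
  have hv2 := vD_near h (Nat.zero_le n) hi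
  have g2 := h0_gt
  have g3 := h0_lt
  have t1 : |vU y 0 i| ≤ 1 := by
    rw [abs_le] at hv1 ⊢
    constructor <;> linarith
  have t2 : |vD y 0 i| ≤ 1 := by
    rw [abs_le] at hv2 ⊢
    constructor <;> linarith
  have f1 := f_tangent t1
  have f2 := f_tangent t2
  have hD : vD y 0 i = vU y 0 i - (y 0 (i + 1) - y 0 i) := by
    unfold vD vU
    ring
  set D := y 0 (i + 1) - y 0 i with hDdef
  have hx : x 0 (i + 1) - x 0 i = sU x y 0 i + Real.sqrt (1 - (vU y 0 i) ^ 2)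
      + (sD x y 0 i + Real.sqrt (1 - (vD y 0 i) ^ 2)) := by
    unfold sU sD
    ring
  have hxl : 1 - D ^ 2 ≤ x 0 (i + 1) - x 0 i := by
    have h1 := h.dE i hi
    rw [← hDdef] at h1
    have h2 := (abs_le.1 (h.nU 0 (Nat.zero_le n) i hi.le)).1
    have h3 := (abs_le.1 (h.nD 0 (Nat.zero_le n) i hi)).1
    have h4 : 0.9 ≤ x 0 (i + 1) - x 0 i := by linarith
    by_contra hcon
    rw [not_le] at hcon
    have h5 : 0 < 1 - D ^ 2 := by linarith
    have h6 : 1 - D ^ 2 ≤ (x 0 (i + 1) - x 0 i) ^ 2 := by linarith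
    have h7 : (x 0 (i + 1) - x 0 i) ^ 2 < (1 - D ^ 2) * (1 - D ^ 2) := by
      rw [sq]
      exact mul_lt_mul'' hcon hcon (by linarith) (by linarith)
    nlinarith [sq_nonneg D]
  rw [hD] at f2
  rw [hx, hD] at hxl
  nlinarith

theorem bottomU (h : ElData n N δ ρ x y) (hρ : ρ ≤ 1 / 100) {i : ℕ} (hi : i < N) :
    vU y 0 i - h0 ≤ y 0 i + y 0 (i + 1) + sU x y 0 i + sD x y 0 i := by
  have h1 := bottom_main h hρ hi
  have h2 := sU_nonneg h hρ (Nat.zero_le n) hi.le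
  have h3 := sD_nonneg h hρ (Nat.zero_le n) hi
  have h4 := h.bot i hi.le
  have h5 := h.bot (i + 1) (by omega)
  have h6 := h.ny 0 (by omega) i hi.le
  have h7 := h.ny 0 (by omega) (i + 1) (by omega)
  simp only [Nat.cast_zero, zero_mul, sub_zero] at h6 h7
  rw [abs_of_nonneg h4] at h6
  rw [abs_of_nonneg h5] at h7
  have h8 : (1.7 : ℝ) ≤ Real.sqrt 3 := by
    apply Real.le_sqrt_of_sq_le
    norm_num
  by_contra hcon
  rw [not_le] at hcon
  set a := y 0 i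
  set b := y 0 (i + 1)
  have h9 : (b - a) ^ 2 ≤ 1 * (a + b) := by nlinarith
  have h10 : Real.sqrt 3 * (b - a) ≤ Real.sqrt 3 * (a + b) := by nlinarith
  have h11 : 2 * Real.sqrt 3 * (a + b + sU x y 0 i + sD x y 0 i)
      < 2 * Real.sqrt 3 * (vU y 0 i - h0) := mul_lt_mul_of_pos_left hcon (by positivity)
  nlinarith

theorem bottomD (h : ElData n N δ ρ x y) (hρ : ρ ≤ 1 / 100) {i : ℕ} (hi : i < N) :
    vD y 0 i - h0 ≤ y 0 i + y 0 (i + 1) + sU x y 0 i + sD x y 0 i := by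
  have h1 := bottom_main h hρ hi
  have h2 := sU_nonneg h hρ (Nat.zero_le n) hi.le
  have h3 := sD_nonneg h hρ (Nat.zero_le n) hi
  have h4 := h.bot i hi.le
  have h5 := h.bot (i + 1) (by omega)
  have h6 := h.ny 0 (by omega) i hi.le
  have h7 := h.ny 0 (by omega) (i + 1) (by omega)
  simp only [Nat.cast_zero, zero_mul, sub_zero] at h6 h7
  rw [abs_of_nonneg h4] at h6
  rw [abs_of_nonneg h5] at h7
  have h8 : (1.7 : ℝ) ≤ Real.sqrt 3 := by
    apply Real.le_sqrt_of_sq_le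
    norm_num
  have hD : vU y 0 i = vD y 0 i + (y 0 (i + 1) - y 0 i) := by
    unfold vD vU
    ring
  rw [hD] at h1
  by_contra hcon
  rw [not_le] at hcon
  set a := y 0 i
  set b := y 0 (i + 1)
  have h9 : (b - a) ^ 2 ≤ 1 * (a + b) := by nlinarith
  have h10 : - (Real.sqrt 3 * (b - a)) ≤ Real.sqrt 3 * (a + b) := by nlinarith
  have h11 : 2 * Real.sqrt 3 * (a + b + sU x y 0 i + sD x y 0 i)
      < 2 * Real.sqrt 3 * (vD y 0 i - h0) := mul_lt_mul_of_pos_left hcon (by positivity)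
  nlinarith

/-- the two triangles at an edge of the row `r + 1` -/
theorem step_main (h : ElData n N δ ρ x y) (hρ : ρ ≤ 1 / 100) {r i : ℕ} (hr : r + 1 ≤ n)
    (hi : i + 1 < N) :
    vU y (r + 1) i - vU y r (i + 1) ≤ sU x y (r + 1) i + sD x y (r + 1) i := by
  have n1 := vU_near h (show r + 1 ≤ n from hr) (show i ≤ N by omega)
  have n2 := vD_near h (show r + 1 ≤ n from hr) (show i < N by omega)
  have n3 := vU_near h (show r ≤ n by omega) (show i + 1 ≤ N by omega)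
  have n4 := vD_near h (show r ≤ n by omega) (show i < N by omega)
  have p1 := sU_nonneg h hρ (show r + 1 ≤ n from hr) (show i ≤ N by omega)
  have p2 := sD_nonneg h hρ (show r + 1 ≤ n from hr) (show i < N by omega)
  have p3 := sU_nonneg h hρ (show r ≤ n by omega) (show i + 1 ≤ N by omega)
  have p4 := sD_nonneg h hρ (show r ≤ n by omega) (show i < N by omega)
  have g2 := h0_gt
  have g3 := h0_lt
  rw [abs_le] at n1 n2 n3 n4
  by_contra hcon
  rw [not_le] at hcon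
  have hab : vU y r (i + 1) ≤ vU y (r + 1) i := by linarith
  have e1 : vD y (r + 1) i - vD y r i = vU y (r + 1) i - vU y r (i + 1) := by
    unfold vD vU
    ring
  have f1 := f_decr (a := vU y (r + 1) i) (b := vU y r (i + 1)) (by linarith) hab (by linarith)
  have f2 := f_decr (a := vD y (r + 1) i) (b := vD y r i) (by linarith) (by linarith)
    (by linarith)
  have hid : sU x y (r + 1) i + Real.sqrt (1 - (vU y (r + 1) i) ^ 2)
      + (sD x y (r + 1) i + Real.sqrt (1 - (vD y (r + 1) i) ^ 2))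
      = sD x y r i + Real.sqrt (1 - (vD y r i) ^ 2)
      + (sU x y r (i + 1) + Real.sqrt (1 - (vU y r (i + 1)) ^ 2)) := by
    unfold sU sD
    ring
  linarith

theorem stepU (h : ElData n N δ ρ x y) (hρ : ρ ≤ 1 / 100) {r i : ℕ} (hr : r + 1 ≤ n)
    (hi : i + 1 < N) :
    vU y (r + 1) i ≤ vU y r (i + 1) + sU x y (r + 1) i + sD x y (r + 1) i := by
  have := step_main h hρ hr hi
  linarith

theorem stepD (h : ElData n N δ ρ x y) (hρ : ρ ≤ 1 / 100) {r i : ℕ} (hr : r + 1 ≤ n)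
    (hi : i + 1 < N) :
    vD y (r + 1) i ≤ vD y r i + sU x y (r + 1) i + sD x y (r + 1) i := by
  have h1 := step_main h hρ hr hi
  have e1 : vD y (r + 1) i - vD y r i = vU y (r + 1) i - vU y r (i + 1) := by
    unfold vD vU
    ring
  linarith

end Pool.Agent.StripNear
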