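import Pool.Agent.StripNear.ArrayDefs
import Pool.Agent.StripNear.ElasticDefs

/-! # The array is elastic data -/

namespace Pool.Agent.StripNear

variable {X : Finset Pt} {n : ℕ}

theorem elData_of_array (hX : UnitSep X) {ρ δ : ℝ} (hρ : 0 ≤ ρ) (hρ1 : ρ ≤ 1 / 100)
    (hH : InStrip (((n : ℝ) + 1) * h0 - δ) X) {N : ℕ} {P : ℕ → ℕ → Pt}
    (hP : IsArray X n ρ N P) :
    ElData n N δ (2 * ρ) (fun r i => (P r i).1) (fun r i => (P r i).2) := by
  have h0g := h0_gt
  refine ⟨?_, ?_, ?_, ?_, ?_, ?_, ?_, ?_⟩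
  · intro i hi
    exact (hH _ (hP.mem 0 (by omega) i hi)).1
  · intro i hi
    exact (hH _ (hP.mem (n + 1) le_rfl i hi)).2
  · intro r hr i hi
    exact (hP.row r hr i hi).trans (by linarith)
  · intro r hr i hi
    exact (hP.ne r hr i hi).1.trans (by linarith)
  · intro r hr i hi
    have h1 := (hP.ne r hr i hi.le).1
    have h2 := (hP.east r (by omega) i hi).1
    rw [abs_le] at h1 h2 ⊢
    constructor <;> linarith
  · intro r hr i hi
    have h1 := (hP.ne r hr i hi).2
    have hne : P (r + 1) i ≠ P r i := by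
      intro h
      rw [h] at h1
      rw [abs_le] at h1
      linarith [h1.1]
    have h2 := hX _ (hP.mem (r + 1) (by omega) i hi) _ (hP.mem r (by omega) i hi) hne
    simpa [vU] using h2
  · intro r hr i hi
    have h1 := hP.row (r + 1) (by omega) i hi.le
    have h2 := hP.row r (by omega) (i + 1) (by omega)
    push_cast at h1
    have hne : P r (i + 1) ≠ P (r + 1) i := by
      intro h
      rw [h] at h2
      rw [abs_le] at h1 h2
      nlinarith [h1.1, h2.2]
    have h3 := hX _ (hP.mem r (by omega) (i + 1) (by omega)) _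
      (hP.mem (r + 1) (by omega) i hi.le) hne
    simp only [vD]
    have h4 : ((P (r + 1) i).2 - (P r (i + 1)).2) ^ 2 =
        ((P r (i + 1)).2 - (P (r + 1) i).2) ^ 2 := by ring
    rw [h4]
    exact h3
  · intro i hi
    have h1 := (hP.east 0 (by omega) i hi).1
    have hne : P 0 (i + 1) ≠ P 0 i := by
      intro h
      rw [h] at h1
      rw [abs_le] at h1
      linarith [h1.1]
    exact hX _ (hP.mem 0 (by omega) (i + 1) (by omega)) _ (hP.mem 0 (by omega) i hi.le) hne

end Pool.Agent.StripNear
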