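import Pool.Agent.StripNear.ArrayDefs

/-! # Existence of the array generated by a chain -/

namespace Pool.Agent.StripNear

variable {X : Finset Pt} {n : ℕ}

private theorem ArrayExists_row {ρ y : ℝ} {r r' : ℕ} (hρ1 : ρ ≤ 1 / 100)
    (h : |y - r * h0| ≤ 2 * ρ) (h' : |y - r' * h0| ≤ ρ) : r = r' := by
  rw [abs_le] at h h'
  have h0' := h0_gt
  rcases lt_trichotomy r r' with hlt | heq | hlt
  · exfalso
    have h1 : (r : ℝ) + 1 ≤ r' := by exact_mod_cast hlt
    have h2 : ((r : ℝ) + 1) * h0 ≤ r' * h0 := mul_le_mul_of_nonneg_right h1 h0_pos.le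
    nlinarith
  · exact heq
  · exfalso
    have h1 : (r' : ℝ) + 1 ≤ r := by exact_mod_cast hlt
    have h2 : ((r' : ℝ) + 1) * h0 ≤ r * h0 := mul_le_mul_of_nonneg_right h1 h0_pos.le
    nlinarith

/-- Construction of the array (with total neighbour functions); it is valid as long as the bottom
row stays on the left of `hi - (n + 2)`. -/
theorem array_exists (hX : UnitSep X) {ρ lo hi u : ℝ} (hρ : 0 ≤ ρ) (hρ1 : ρ ≤ 1 / 100)
    (hZ : Lat X n ρ lo hi) {c : ℕ → Pt} (hc : IsChain X n ρ u c) (h1 : lo ≤ (c 0).1)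
    (h2 : (c 0).1 ≤ hi - (n + 2)) :
    ∃ P : ℕ → ℕ → Pt, (∀ r ≤ n + 1, P r 0 = c r) ∧
      ∀ N : ℕ, (∀ i < N, (P 0 i).1 ≤ hi - (n + 2)) → IsArray X n ρ N P := by
  classical
  have hE : ∀ p : Pt, ∃ q : Pt, (∃ q' ∈ X, Near ρ p 1 0 q') → (q ∈ X ∧ Near ρ p 1 0 q) := by
    intro p
    by_cases h : ∃ q' ∈ X, Near ρ p 1 0 q'
    · obtain ⟨q, hq, hn⟩ := h
      exact ⟨q, fun _ => ⟨hq, hn⟩⟩
    · exact ⟨p, fun h' => absurd h' h⟩
  choose E hE using hE
  set P : ℕ → ℕ → Pt := fun r i => E^[i] (c r) with hP
  have hP0 : ∀ r, P r 0 = c r := fun r => rfl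
  have hPs : ∀ r i, P r (i + 1) = E (P r i) := fun r i => Function.iterate_succ_apply' E i (c r)
  refine ⟨P, fun r _ => rfl, ?_⟩
  have hnn : (0 : ℝ) ≤ n := Nat.cast_nonneg n
  -- the chain
  have hcpos : ∀ r ≤ n + 1, lo ≤ (c r).1 ∧ (c r).1 ≤ hi := by
    intro r hr
    have h3 := chain_pos hρ hc hr
    rw [abs_le] at h3
    have hr' : (r : ℝ) ≤ n + 1 := by exact_mod_cast hr
    have hr0 : (0 : ℝ) ≤ r := Nat.cast_nonneg r
    have h4 : (r : ℝ) * ρ ≤ r * (1 / 100) := mul_le_mul_of_nonneg_left hρ1 hr0
    constructor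
    · linarith
    · linarith
  have hcrow : ∀ r, r ≤ n + 1 → |(c r).2 - r * h0| ≤ ρ := by
    intro r
    induction r with
    | zero =>
      intro _
      have := hc.2.2.1
      simpa using this
    | succ r ih =>
      intro hr
      have ih' := ih (by omega)
      have hn := (hc.2.2.2 r (by omega)).2
      obtain ⟨r', hr', hrow, _⟩ := hZ (c (r + 1)) (hc.1 _ hr) (hcpos _ hr).1 (hcpos _ hr).2
      have h5 : |(c (r + 1)).2 - ((r + 1 : ℕ) : ℝ) * h0| ≤ 2 * ρ := by
        rw [abs_le] at ih' hn ⊢
        push_cast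
        constructor <;> linarith
      have heq := ArrayExists_row hρ1 h5 hrow
      rw [← heq] at hrow
      exact hrow
  -- induction
  have key : ∀ N : ℕ, (∀ i < N, (P 0 i).1 ≤ hi - (n + 2)) →
      IsArray X n ρ N P ∧ (c 0).1 ≤ (P 0 N).1 := by
    intro N
    induction N with
    | zero =>
      intro _
      refine ⟨⟨?_, ?_, ?_, ?_⟩, le_rfl⟩
      · intro r hr i hi0
        have : i = 0 := by omega
        subst this
        exact hc.1 r hr
      · intro r hr i hi0
        have : i = 0 := by omega
        subst this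
        exact hcrow r hr
      · intro r _ i hi0
        omega
      · intro r hr i hi0
        have : i = 0 := by omega
        subst this
        exact hc.2.2.2 r hr
    | succ N ih =>
      intro hN
      obtain ⟨hA, hlow⟩ := ih fun i hi' => hN i (by omega)
      have hN0 := hN N (by omega)
      -- column `N`
      have hcol : ∀ r ≤ n + 1, |(P r N).1 - (P 0 N).1 - r / 2| ≤ r * ρ := fun r hr =>
        array_col hA hr le_rfl
      have hzone : ∀ r ≤ n + 1, lo ≤ (P r N).1 ∧ (P r N).1 + 1 + ρ ≤ hi := by
        intro r hr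
        have h3 := hcol r hr
        rw [abs_le] at h3
        have hr' : (r : ℝ) ≤ n + 1 := by exact_mod_cast hr
        have hr0 : (0 : ℝ) ≤ r := Nat.cast_nonneg r
        have h4 : (r : ℝ) * ρ ≤ r * (1 / 100) := mul_le_mul_of_nonneg_left hρ1 hr0
        constructor
        · linarith
        · linarith
      have heast : ∀ r ≤ n + 1, P r (N + 1) ∈ X ∧ Near ρ (P r N) 1 0 (P r (N + 1)) := by
        intro r hr
        rw [hPs]
        apply hE
        have hz := hzone r hr
        obtain ⟨r', _, _, hq, _⟩ := hZ (P r N) (hA.mem r hr N le_rfl) hz.1 (by linarith)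
        exact hq
      have hzone1 : ∀ r ≤ n + 1, lo ≤ (P r (N + 1)).1 ∧ (P r (N + 1)).1 ≤ hi := by
        intro r hr
        have h3 := (heast r hr).2.1
        rw [abs_le] at h3
        have hz := hzone r hr
        constructor <;> linarith
      have hlat : ∀ r ≤ n + 1, |(P r (N + 1)).2 - r * h0| ≤ ρ ∧
          (r ≤ n → ∃ q ∈ X, Near ρ (P r (N + 1)) (1 / 2) h0 q) := by
        intro r hr
        obtain ⟨r', hr', hrow, _, hne, _⟩ := hZ (P r (N + 1)) (heast r hr).1 (hzone1 r hr).1
          (hzone1 r hr).2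
        have h3 := (heast r hr).2.2
        have h4 := hA.row r hr N le_rfl
        have h5 : |(P r (N + 1)).2 - r * h0| ≤ 2 * ρ := by
          rw [abs_le] at h3 h4 ⊢
          constructor <;> linarith
        have := ArrayExists_row hρ1 h5 hrow
        subst this
        exact ⟨hrow, hne⟩
      refine ⟨⟨?_, ?_, ?_, ?_⟩, ?_⟩
      · intro r hr i hi'
        rcases Nat.lt_or_ge i (N + 1) with h | h
        · exact hA.mem r hr i (by omega)
        · have : i = N + 1 := by omega
          subst this
          exact (heast r hr).1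
      · intro r hr i hi'
        rcases Nat.lt_or_ge i (N + 1) with h | h
        · exact hA.row r hr i (by omega)
        · have : i = N + 1 := by omega
          subst this
          exact (hlat r hr).1
      · intro r hr i hi'
        rcases Nat.lt_or_ge i N with h | h
        · exact hA.east r hr i h
        · have : i = N := by omega
          subst this
          exact (heast r hr).2
      · intro r hr i hi'
        rcases Nat.lt_or_ge i (N + 1) with h | h
        · exact hA.ne r hr i (by omega)
        · have : i = N + 1 := by omega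
          subst this
          obtain ⟨q, hq, hqn⟩ := (hlat r (by omega)).2 hr
          have e1 := (heast r (by omega)).2
          have e2 := (heast (r + 1) (by omega)).2
          have e3 := hA.ne r hr N le_rfl
          have m1 : Near (2 * ρ) (P r N) (3 / 2) h0 q := by
            unfold Near at hqn e1 ⊢
            rw [abs_le, abs_le] at *
            refine ⟨⟨?_, ?_⟩, ⟨?_, ?_⟩⟩ <;> linarith [hqn.1.1, hqn.1.2, hqn.2.1, hqn.2.2, e1.1.1,
              e1.1.2, e1.2.1, e1.2.2]
          have m2 : Near (2 * ρ) (P r N) (3 / 2) h0 (P (r + 1) (N + 1)) := by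
            unfold Near at e2 e3 ⊢
            rw [abs_le, abs_le] at *
            refine ⟨⟨?_, ?_⟩, ⟨?_, ?_⟩⟩ <;> linarith [e2.1.1, e2.1.2, e2.2.1, e2.2.2, e3.1.1,
              e3.1.2, e3.2.1, e3.2.2]
          have heq := near_unique hX hq (heast (r + 1) (by omega)).1 m1 m2 (by linarith)
          rw [← heq]
          exact hqn
      · have h3 := (heast 0 (by omega)).2.1
        rw [abs_le] at h3
        linarith
  exact fun N hN => (key N hN).1

end Pool.Agent.StripNear
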