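import Pool.Agent.StripNear.Defs

/-! # Elementary facts on the definitions -/

namespace Pool.Agent.StripNear

open MeasureTheory

theorem h0_sq : h0 ^ 2 = 3 / 4 := by
  unfold h0
  rw [div_pow, Real.sq_sqrt (by norm_num)]; norm_num

theorem h0_pos : 0 < h0 := by unfold h0; positivity

theorem h0_gt : (0.866 : ℝ) < h0 := by
  nlinarith [h0_sq, h0_pos]

theorem h0_lt : h0 < (0.8661 : ℝ) := by
  nlinarith [h0_sq, h0_pos]

/-- Lower bounds for the capped distance. -/
theorem le_xn {X : Finset Pt} {p : Pt} {a m : ℝ} :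
    m ≤ xn X p a ↔ m ≤ 2 ∧ ∀ q ∈ X, a ≤ q.2 → q.2 < a + h0 → p.1 < q.1 → m ≤ q.1 - p.1 := by
  unfold xn
  rw [Finset.le_fold_min]
  constructor
  · rintro ⟨h2, h⟩
    refine ⟨h2, fun q hq h1 h3 h4 => ?_⟩
    have := h q hq
    rwa [if_pos ⟨h1, h3, h4⟩] at this
  · rintro ⟨h2, h⟩
    refine ⟨h2, fun q hq => ?_⟩
    split_ifs with hc
    · exact h q hq hc.1 hc.2.1 hc.2.2
    · exact h2

theorem xn_le_two (X : Finset Pt) (p : Pt) (a : ℝ) : xn X p a ≤ 2 :=
  (le_xn.1 le_rfl).1

theorem xn_le {X : Finset Pt} {p q : Pt} {a : ℝ} (hq : q ∈ X) (h1 : a ≤ q.2)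
    (h2 : q.2 < a + h0) (h3 : p.1 < q.1) : xn X p a ≤ q.1 - p.1 :=
  (le_xn.1 le_rfl).2 q hq h1 h2 h3

theorem xn_nonneg (X : Finset Pt) (p : Pt) (a : ℝ) : 0 ≤ xn X p a :=
  le_xn.2 ⟨by norm_num, fun q _ _ _ h => by linarith⟩

theorem measurable_xn (X : Finset Pt) (p : Pt) : Measurable (fun a => xn X p a) := by
  unfold xn
  induction X using Finset.induction_on with
  | empty => simpa using (measurable_const : Measurable (fun _ : ℝ => (2 : ℝ)))
  | insert q X hq ih =>
    have h1 : (fun a => (insert q X).fold min 2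
        (fun q : Pt => if a ≤ q.2 ∧ q.2 < a + h0 ∧ p.1 < q.1 then q.1 - p.1 else 2)) =
        fun a => min (if a ≤ q.2 ∧ q.2 < a + h0 ∧ p.1 < q.1 then q.1 - p.1 else 2)
          (X.fold min 2 (fun q : Pt => if a ≤ q.2 ∧ q.2 < a + h0 ∧ p.1 < q.1 then q.1 - p.1
            else 2)) := by
      funext a
      rw [Finset.fold_insert hq]
    rw [h1]
    refine Measurable.min (Measurable.ite ?_ measurable_const measurable_const) ih
    have h2 : MeasurableSet {a : ℝ | a ≤ q.2} := measurableSet_Iic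
    have h3 : MeasurableSet {a : ℝ | q.2 < a + h0} :=
      measurableSet_lt measurable_const (measurable_id.add_const h0)
    exact h2.inter (h3.inter (MeasurableSet.const _))

private theorem intInt_of_bdd {f : ℝ → ℝ} (hf : Measurable f) {C : ℝ} (h : ∀ t, |f t| ≤ C)
    (a b : ℝ) : IntervalIntegrable f volume a b := by
  rw [intervalIntegrable_iff]
  refine Measure.integrableOn_of_bounded (M := C) ?_ hf.aestronglyMeasurable
    (Filter.Eventually.of_forall fun t => h t)
  rw [Set.uIoc, Real.volume_Ioc]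
  exact ENNReal.ofReal_ne_top

theorem xn_intervalIntegrable (X : Finset Pt) (p : Pt) (a b : ℝ) :
    IntervalIntegrable (fun t => xn X p t) volume a b := by
  refine intInt_of_bdd (measurable_xn X p) (C := 2) (fun t => ?_) a b
  rw [abs_of_nonneg (xn_nonneg X p t)]
  exact xn_le_two X p t

private theorem measurableSet_S (X : Finset Pt) :
    MeasurableSet {z : ℝ × ℝ | z.2 ∈ U X z.1} := by
  have h1 : {z : ℝ × ℝ | z.2 ∈ U X z.1} = ⋂ q ∈ X,
      {z : ℝ × ℝ | z.1 ≤ q.2 ∧ q.2 < z.1 + h0 ∧ q.1 ≤ z.2 ∧ z.2 < q.1 + 2}ᶜ := by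
    ext z
    simp only [Set.mem_iInter, Set.mem_compl_iff]
    constructor
    · intro h q hq hc
      exact h q hq hc.1 hc.2.1 hc.2.2
    · intro h q hq h1 h2 h3
      exact h q hq ⟨h1, h2, h3⟩
  rw [h1]
  refine Finset.measurableSet_biInter _ fun q _ => MeasurableSet.compl ?_
  have m1 : MeasurableSet {z : ℝ × ℝ | z.1 ≤ q.2} :=
    measurableSet_le measurable_fst measurable_const
  have m2 : MeasurableSet {z : ℝ × ℝ | q.2 < z.1 + h0} :=
    measurableSet_lt measurable_const (measurable_fst.add_const h0)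
  have m3 : MeasurableSet {z : ℝ × ℝ | q.1 ≤ z.2} :=
    measurableSet_le measurable_const measurable_snd
  have m4 : MeasurableSet {z : ℝ × ℝ | z.2 < q.1 + 2} :=
    measurableSet_lt measurable_snd measurable_const
  exact m1.inter (m2.inter (m3.inter m4))

theorem measurableSet_U (X : Finset Pt) (a : ℝ) : MeasurableSet (U X a) :=
  measurable_prodMk_left (measurableSet_S X)

theorem ulen_nonneg (X : Finset Pt) (a α β : ℝ) : 0 ≤ ulen X a α β := ENNReal.toReal_nonneg

private theorem vol_ne_top (X : Finset Pt) (a α β : ℝ) : volume (U X a ∩ Set.Ico α β) ≠ ⊤ := by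
  refine ne_top_of_le_ne_top (b := volume (Set.Ico α β)) ?_ (measure_mono Set.inter_subset_right)
  rw [Real.volume_Ico]
  exact ENNReal.ofReal_ne_top

theorem ulen_le (X : Finset Pt) (a : ℝ) {α β : ℝ} (h : α ≤ β) : ulen X a α β ≤ β - α := by
  unfold ulen
  have h1 : volume (U X a ∩ Set.Ico α β) ≤ volume (Set.Ico α β) :=
    measure_mono Set.inter_subset_right
  rw [Real.volume_Ico] at h1
  have h2 := ENNReal.toReal_mono ENNReal.ofReal_ne_top h1
  rwa [ENNReal.toReal_ofReal (by linarith)] at h2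

theorem ulen_add (X : Finset Pt) (a : ℝ) {α β γ : ℝ} (h : α ≤ β) (h' : β ≤ γ) :
    ulen X a α γ = ulen X a α β + ulen X a β γ := by
  unfold ulen
  rw [← ENNReal.toReal_add (vol_ne_top X a α β) (vol_ne_top X a β γ), ← measure_union,
    ← Set.inter_union_distrib_left, Set.Ico_union_Ico_eq_Ico h h']
  · rw [Set.disjoint_left]
    rintro u ⟨-, hu1⟩ ⟨-, hu2⟩
    exact absurd hu1.2 (not_lt.mpr hu2.1)
  · exact (measurableSet_U X a).inter measurableSet_Ico

theorem measurable_ulen (X : Finset Pt) (α β : ℝ) : Measurable (fun a => ulen X a α β) := by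
  have h1 : MeasurableSet ({z : ℝ × ℝ | z.2 ∈ U X z.1} ∩ Prod.snd ⁻¹' Set.Ico α β) :=
    (measurableSet_S X).inter (measurable_snd measurableSet_Ico)
  exact (measurable_measure_prodMk_left (ν := (volume : Measure ℝ)) h1).ennreal_toReal

theorem ulen_intervalIntegrable (X : Finset Pt) (α β a b : ℝ) :
    IntervalIntegrable (fun t => ulen X t α β) volume a b := by
  refine intInt_of_bdd (measurable_ulen X α β) (C := |β - α|) (fun t => ?_) a b
  rw [abs_of_nonneg (ulen_nonneg X t α β)]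
  rcases le_total α β with h | h
  · exact (ulen_le X t h).trans (le_abs_self _)
  · unfold ulen
    rw [Set.Ico_eq_empty (not_lt.mpr h), Set.inter_empty, measure_empty, ENNReal.toReal_zero]
    exact abs_nonneg _

theorem unc_nonneg (X : Finset Pt) (n : ℕ) (α β : ℝ) : 0 ≤ unc X n α β := by
  unfold unc
  have h := h0_pos
  refine mul_nonneg (by positivity) (intervalIntegral.integral_nonneg ?_ fun t _ =>
    ulen_nonneg X t α β)
  have : (0 : ℝ) ≤ (n + 1) * h0 := by positivity
  linarith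

theorem unc_add (X : Finset Pt) (n : ℕ) {α β γ : ℝ} (h : α ≤ β) (h' : β ≤ γ) :
    unc X n α γ = unc X n α β + unc X n β γ := by
  unfold unc
  rw [← mul_add, ← intervalIntegral.integral_add (ulen_intervalIntegrable X α β _ _)
    (ulen_intervalIntegrable X β γ _ _)]
  congr 1
  exact intervalIntegral.integral_congr fun t _ => ulen_add X t h h'

theorem T_add (X : Finset Pt) (n : ℕ) {α β γ : ℝ} (h : α ≤ β) (h' : β ≤ γ) :
    T X n α γ = T X n α β + T X n β γ := by
  classical
  unfold T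
  have h1 : X.filter (fun p => α ≤ p.1 ∧ p.1 < γ) =
      X.filter (fun p => α ≤ p.1 ∧ p.1 < β) ∪ X.filter (fun p => β ≤ p.1 ∧ p.1 < γ) := by
    ext p
    simp only [Finset.mem_filter, Finset.mem_union]
    constructor
    · rintro ⟨hp, h2, h3⟩
      rcases lt_or_ge p.1 β with h4 | h4
      · exact Or.inl ⟨hp, h2, h4⟩
      · exact Or.inr ⟨hp, h4, h3⟩
    · rintro (⟨hp, h2, h3⟩ | ⟨hp, h2, h3⟩)
      · exact ⟨hp, h2, h3.trans_le h'⟩
      · exact ⟨hp, h.trans h2, h3⟩
  have h2 : Disjoint (X.filter (fun p => α ≤ p.1 ∧ p.1 < β))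
      (X.filter (fun p => β ≤ p.1 ∧ p.1 < γ)) := by
    rw [Finset.disjoint_filter]
    rintro p _ ⟨-, h3⟩ ⟨h4, -⟩
    exact absurd h3 (not_lt.mpr h4)
  rw [unc_add X n h h']
  have h3 : ∑ p ∈ X.filter (fun p => α ≤ p.1 ∧ p.1 < γ), slack X p =
      ∑ p ∈ X.filter (fun p => α ≤ p.1 ∧ p.1 < β), slack X p +
        ∑ p ∈ X.filter (fun p => β ≤ p.1 ∧ p.1 < γ), slack X p := by
    rw [h1, Finset.sum_union h2]
  convert! congrArg (fun t => t + (unc X n α β + unc X n β γ)) h3 using 1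
  ring

/-- If the part `[α, β)` does not meet `X` (enlarged by 2 to the left) then it is uncovered. -/
theorem T_empty (X : Finset Pt) (n : ℕ) {α β : ℝ} (h : α ≤ β)
    (hX : ∀ p ∈ X, p.1 + 2 ≤ α ∨ β ≤ p.1) : T X n α β = (n + 2) * (β - α) := by
  classical
  unfold T
  have h1 : X.filter (fun p => α ≤ p.1 ∧ p.1 < β) = ∅ := by
    rw [Finset.filter_eq_empty_iff]
    rintro p hp ⟨h2, h3⟩
    rcases hX p hp with h4 | h4
    · linarith
    · linarith
  have h2 : ∀ t, ulen X t α β = β - α := by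
    intro t
    unfold ulen
    have h3 : U X t ∩ Set.Ico α β = Set.Ico α β := by
      rw [Set.inter_eq_right]
      intro u hu q hq _ _ hc
      rcases hX q hq with h4 | h4
      · linarith [hu.1, hc.2]
      · linarith [hu.2, hc.1]
    rw [h3, Real.volume_Ico, ENNReal.toReal_ofReal (by linarith)]
  have h3 : unc X n α β = (n + 2) * (β - α) := by
    unfold unc
    rw [intervalIntegral.integral_congr (fun t _ => h2 t), intervalIntegral.integral_const,
      smul_eq_mul]
    have := h0_pos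
    field_simp
    ring
  rw [h3]
  have h4 : ∑ p ∈ X.filter (fun p => α ≤ p.1 ∧ p.1 < β), slack X p = 0 := by
    rw [h1, Finset.sum_empty]
  convert! congrArg (fun t => t + ((n : ℝ) + 2) * (β - α)) h4 using 1
  ring

theorem band_eq {p : Pt} {r : ℕ} (h : |p.2 - r * h0| < h0 / 2) : band p = r := by
  unfold band
  have hh := h0_pos
  rw [abs_lt] at h
  have e : p.2 / h0 = (p.2 - r * h0) / h0 + r := by
    field_simp
    ring
  have h1 : -(1 / 2) < (p.2 - r * h0) / h0 := by
    rw [lt_div_iff₀ hh]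
    linarith [h.1]
  have h2 : (p.2 - r * h0) / h0 < 1 / 2 := by
    rw [div_lt_iff₀ hh]
    linarith [h.2]
  have h3 : (0 : ℝ) ≤ r := Nat.cast_nonneg r
  rw [Nat.floor_eq_iff]
  · rw [e]
    constructor <;> linarith
  · rw [e]
    linarith

theorem band_le {n : ℕ} {p : Pt} (h : 0 ≤ p.2) (h' : p.2 ≤ (n + 1) * h0) : band p ≤ n + 1 := by
  unfold band
  have hh := h0_pos
  have h1 : p.2 / h0 ≤ n + 1 := by
    rw [div_le_iff₀ hh]
    exact h'
  have h2 : 0 ≤ p.2 / h0 := div_nonneg h hh.le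
  have h3 : ⌊p.2 / h0 + 1 / 2⌋₊ < n + 2 := by
    rw [Nat.floor_lt (by linarith)]
    push_cast
    linarith
  omega

/-- Two points of a unit separated set near the same place are equal. -/
theorem near_unique {X : Finset Pt} (hX : UnitSep X) {ρ ρ' : ℝ} {p q q' : Pt} {dx dy : ℝ}
    (hq : q ∈ X) (hq' : q' ∈ X) (h : Near ρ p dx dy q) (h' : Near ρ' p dx dy q')
    (hρ : ρ + ρ' < 7 / 10) : q = q' := by
  by_contra hne
  have h1 := hX q hq q' hq' hne
  obtain ⟨a1, a2⟩ := h
  obtain ⟨b1, b2⟩ := h'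
  have c1 : |q.1 - q'.1| ≤ ρ + ρ' := by
    have e : q.1 - q'.1 = (q.1 - p.1 - dx) - (q'.1 - p.1 - dx) := by ring
    rw [e]
    exact (abs_sub _ _).trans (add_le_add a1 b1)
  have c2 : |q.2 - q'.2| ≤ ρ + ρ' := by
    have e : q.2 - q'.2 = (q.2 - p.2 - dy) - (q'.2 - p.2 - dy) := by ring
    rw [e]
    exact (abs_sub _ _).trans (add_le_add a2 b2)
  have d1 : (q.1 - q'.1) ^ 2 ≤ (7 / 10) ^ 2 := by
    rw [← sq_abs]
    exact pow_le_pow_left₀ (abs_nonneg _) (by linarith) 2
  have d2 : (q.2 - q'.2) ^ 2 ≤ (7 / 10) ^ 2 := by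
    rw [← sq_abs]
    exact pow_le_pow_left₀ (abs_nonneg _) (by linarith) 2
  norm_num at d1 d2
  linarith

end Pool.Agent.StripNear
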