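import Pool.Agent.StripNear.Params

/-! # Loss of cells -/

namespace Pool.Agent.StripNear

variable {X : Finset Pt} {n : ℕ}

/-- If no cell in `[j1, j1 + m)` is almost perfect the loss is large. -/
theorem loss_of_not_perfect (hX : UnitSep X) {ε2 : ℝ} (hε : 0 < ε2) (j1 : ℤ) (m : ℕ)
    (h : ∀ j : ℤ, j1 ≤ j → j < j1 + m → ε2 < Tw X n j) :
    ε2 * m / (2 * win n) ≤ T X n ((j1 : ℝ) - win n) ((j1 : ℝ) + m + win n) := by
  have hW : (0 : ℝ) < win n := by
    have : 0 < win n := by unfold win; omega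
    exact_mod_cast this
  rw [div_le_iff₀ (by linarith)]
  have h1 := T_windows (n := n) hX j1 m (win n)
  have h2 : ∑ i ∈ Finset.range m, ε2 ≤
      ∑ i ∈ Finset.range m, T X n ((j1 + i : ℝ) - win n) ((j1 + i : ℝ) + win n) := by
    refine Finset.sum_le_sum fun i hi => ?_
    rw [Finset.mem_range] at hi
    have h3 := h (j1 + i) (by omega) (by omega)
    unfold Tw at h3
    push_cast at h3
    exact h3.le
  rw [Finset.sum_const, Finset.card_range, nsmul_eq_mul] at h2
  linarith

/-- Cells far outside `[0, L]` are bad. -/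
theorem far_cells (hX : UnitSep X) {L : ℝ} (hL : ∀ p ∈ X, 0 ≤ p.1 ∧ p.1 ≤ L) {j : ℤ}
    (hj : (j : ℝ) ≤ -win n ∨ L + 2 + win n ≤ j) : 1 < Tw X n j := by
  have hW : (60 : ℝ) ≤ win n := by
    have : 60 ≤ win n := by unfold win; omega
    exact_mod_cast this
  have hn : (0 : ℝ) ≤ n := Nat.cast_nonneg n
  have h1 : Tw X n j = (n + 2) * (((j : ℝ) + win n) - ((j : ℝ) - win n)) := by
    unfold Tw
    refine T_empty X n (by linarith) ?_
    intro p hp
    have h2 := hL p hp
    rcases hj with h | h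
    · right
      linarith [h2.1]
    · left
      linarith [h2.2]
  rw [h1]
  nlinarith

end Pool.Agent.StripNear
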