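import Pool.Agent.StripNear.Basic

/-! # Estimates on `v ↦ sqrt (1 - v^2)` near `h0` -/

namespace Pool.Agent.StripNear

/-- Slope of the chord between `h0 - δ` and `h0`. -/
noncomputable def sl (δ : ℝ) : ℝ := (cs δ - 1 / 2) / δ

theorem f_tangent {v : ℝ} (h : |v| ≤ 1) :
    Real.sqrt (1 - v ^ 2) ≤ 1 / 2 - Real.sqrt 3 * (v - h0) := by
  have h3 : Real.sqrt 3 ^ 2 = 3 := Real.sq_sqrt (by norm_num)
  have h30 : 0 ≤ Real.sqrt 3 := Real.sqrt_nonneg 3
  have h32 : Real.sqrt 3 < 2 := by nlinarith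
  have e : 1 / 2 - Real.sqrt 3 * (v - h0) = 2 - Real.sqrt 3 * v := by
    unfold h0
    linear_combination (1 / 2 : ℝ) * h3
  rw [e, Real.sqrt_le_iff]
  obtain ⟨h1, h2⟩ := abs_le.1 h
  constructor
  · nlinarith
  · nlinarith [sq_nonneg (2 * v - Real.sqrt 3)]

theorem f_decr {a b : ℝ} (hb : 0.8 ≤ b) (hab : b ≤ a) (ha : a ≤ 1) :
    a - b ≤ Real.sqrt (1 - b ^ 2) - Real.sqrt (1 - a ^ 2) := by
  have hA0 : 0 ≤ 1 - a ^ 2 := by nlinarith
  have hB0 : 0 ≤ 1 - b ^ 2 := by nlinarith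
  have hA := Real.sq_sqrt hA0
  have hB := Real.sq_sqrt hB0
  have hAn := Real.sqrt_nonneg (1 - a ^ 2)
  have hBn := Real.sqrt_nonneg (1 - b ^ 2)
  set A := Real.sqrt (1 - a ^ 2)
  set B := Real.sqrt (1 - b ^ 2)
  have hB6 : B ≤ 0.6 := by nlinarith
  have hA6 : A ≤ 0.6 := by nlinarith
  have hAB : A ≤ B := by
    by_contra hcon
    rw [not_le] at hcon
    nlinarith
  nlinarith

theorem f_lip {a b : ℝ} (hb : 0.8 ≤ b) (hab : b ≤ a) (ha : a ≤ 0.9) :
    Real.sqrt (1 - b ^ 2) - Real.sqrt (1 - a ^ 2) ≤ 3 * (a - b) := by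
  have hA0 : 0 ≤ 1 - a ^ 2 := by nlinarith
  have hB0 : 0 ≤ 1 - b ^ 2 := by nlinarith
  have hA := Real.sq_sqrt hA0
  have hB := Real.sq_sqrt hB0
  have hAn := Real.sqrt_nonneg (1 - a ^ 2)
  have hBn := Real.sqrt_nonneg (1 - b ^ 2)
  set A := Real.sqrt (1 - a ^ 2)
  set B := Real.sqrt (1 - b ^ 2)
  have hA4 : 0.43 ≤ A := by
    by_contra hcon
    rw [not_le] at hcon
    nlinarith
  have hB4 : 0.43 ≤ B := by
    by_contra hcon
    rw [not_le] at hcon
    nlinarith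
  by_contra hcon
  rw [not_le] at hcon
  have h1 : (B - A) * (B + A) = (a - b) * (a + b) := by nlinarith
  have h2 : 3 * (a - b) * 0.86 < (B - A) * (B + A) := by nlinarith
  nlinarith

theorem f_h0 : Real.sqrt (1 - h0 ^ 2) = 1 / 2 := by
  rw [h0_sq]
  rw [show (1 - 3 / 4 : ℝ) = (1 / 2) ^ 2 by norm_num]
  exact Real.sqrt_sq (by norm_num)

/-- the square of `cs` -/
theorem cs_sq' {δ : ℝ} (hδ : 0 < δ) (hδ1 : δ ≤ 1 / 100) :
    cs δ ^ 2 = 1 / 4 + 2 * h0 * δ - δ ^ 2 := by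
  unfold cs
  have h1 := h0_sq
  have h2 := h0_gt
  have h3 := h0_lt
  rw [Real.sq_sqrt (by nlinarith)]
  nlinarith

theorem sl_ge {δ : ℝ} (hδ : 0 < δ) (hδ1 : δ ≤ 1 / 100) : 1 ≤ sl δ := by
  unfold sl
  rw [le_div_iff₀ hδ]
  have h1 : 1 / 2 + δ ≤ cs δ := by
    unfold cs
    apply Real.le_sqrt_of_sq_le
    have h1 := h0_sq
    have h2 := h0_gt
    nlinarith
  linarith

theorem sl_le {δ : ℝ} (hδ : 0 < δ) (hδ1 : δ ≤ 1 / 100) : sl δ ≤ 2 := by
  unfold sl
  rw [div_le_iff₀ hδ]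
  have h1 : cs δ ≤ 1 / 2 + 2 * δ := by
    unfold cs
    rw [Real.sqrt_le_iff]
    have h1 := h0_sq
    have h2 := h0_lt
    constructor
    · linarith
    · nlinarith
  linarith

/-- the chord equation -/
theorem sl_eq {δ : ℝ} (hδ : 0 < δ) (hδ1 : δ ≤ 1 / 100) :
    sl δ + (sl δ ^ 2 + 1) * δ = 2 * h0 := by
  have h1 := cs_sq' hδ hδ1
  have h2 : cs δ = 1 / 2 + sl δ * δ := by
    unfold sl
    field_simp
    ring
  rw [h2] at h1
  have h3 : δ * (sl δ + (sl δ ^ 2 + 1) * δ - 2 * h0) = 0 := by linear_combination h1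
  have h4 := (mul_eq_zero.1 h3).resolve_left hδ.ne'
  linarith

/-- Lower bound by the chord, with the loss outside `[h0 - δ, h0]`. -/
theorem chord_out {δ v : ℝ} (hδ : 0 < δ) (hδ1 : δ ≤ 1 / 100) (hv : |v - h0| ≤ 1 / 50) :
    1 / 2 + sl δ * (h0 - v)
      - 20 * (|v - h0| + δ) * (max 0 (v - h0) + max 0 (h0 - δ - v)) ≤ Real.sqrt (1 - v ^ 2) := by
  have g1 := sl_ge hδ hδ1
  have g2 := sl_le hδ hδ1
  have g3 := sl_eq hδ hδ1
  have g4 := h0_sq
  apply Real.le_sqrt_of_sq_le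
  rcases le_total v h0 with h | h
  · -- `v ≤ h0`
    obtain ⟨t, ht⟩ : ∃ t, t = h0 - v := ⟨_, rfl⟩
    have ht0 : 0 ≤ t := by linarith
    have hvt : v = h0 - t := by linarith
    have habs : |v - h0| = t := by
      rw [abs_of_nonpos (by linarith)]
      linarith
    rw [habs] at hv ⊢
    have e1 : max 0 (v - h0) = 0 := max_eq_left (by linarith)
    rw [e1, zero_add]
    have e2 : 1 - v ^ 2 = 1 / 4 + 2 * h0 * t - t ^ 2 := by
      rw [hvt]
      linear_combination -g4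
    rw [e2, ← ht]
    rcases le_total t δ with h' | h'
    · have e3 : max 0 (h0 - δ - v) = 0 := max_eq_left (by linarith)
      rw [e3, mul_zero, sub_zero]
      have h5 : (sl δ ^ 2 + 1) * t ≤ (sl δ ^ 2 + 1) * δ :=
        mul_le_mul_of_nonneg_left h' (by positivity)
      nlinarith
    · have e3 : max 0 (h0 - δ - v) = t - δ := by
        rw [max_eq_right (by linarith)]
        linarith
      rw [e3]
      set E : ℝ := 20 * (t + δ) * (t - δ) with hE
      have hE0 : 0 ≤ E := by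
        rw [hE]
        have : 0 ≤ t - δ := by linarith
        positivity
      have hE1 : E ≤ 1 / 50 := by
        rw [hE]
        nlinarith
      have key : 1 / 4 + 2 * h0 * t - t ^ 2 - (1 / 2 + sl δ * t - E) ^ 2
          = (t - δ) * (-(1 + sl δ ^ 2) * t + 20 * (t + δ) * (1 + 2 * sl δ * t - E)) := by
        have : E * (1 + 2 * sl δ * t - E) = (t - δ) * (20 * (t + δ) * (1 + 2 * sl δ * t - E)) := by
          rw [hE]
          ring
        linear_combination this - t * g3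
      have h6 : 0 ≤ -(1 + sl δ ^ 2) * t + 20 * (t + δ) * (1 + 2 * sl δ * t - E) := by
        have h7 : 0.9 ≤ 1 + 2 * sl δ * t - E := by nlinarith
        have h8 : 20 * (t + δ) * 0.9 ≤ 20 * (t + δ) * (1 + 2 * sl δ * t - E) :=
          mul_le_mul_of_nonneg_left h7 (by positivity)
        have h9 : sl δ ^ 2 ≤ 4 := by nlinarith
        nlinarith
      have h10 : 0 ≤ (t - δ) * (-(1 + sl δ ^ 2) * t + 20 * (t + δ) * (1 + 2 * sl δ * t - E)) :=
        mul_nonneg (by linarith) h6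
      linarith
  · -- `h0 ≤ v`
    obtain ⟨t, ht⟩ : ∃ t, t = v - h0 := ⟨_, rfl⟩
    have ht0 : 0 ≤ t := by linarith
    have hvt : v = h0 + t := by linarith
    have habs : |v - h0| = t := by
      rw [abs_of_nonneg (by linarith)]
      linarith
    rw [habs] at hv ⊢
    have e1 : max 0 (v - h0) = t := by
      rw [max_eq_right (by linarith)]
      linarith
    have e3 : max 0 (h0 - δ - v) = 0 := max_eq_left (by linarith)
    rw [e1, e3, add_zero]
    have e2 : 1 - v ^ 2 = 1 / 4 - 2 * h0 * t - t ^ 2 := by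
      rw [hvt]
      linear_combination -g4
    rw [e2]
    set m : ℝ := sl δ + 20 * (t + δ) with hm
    have e4 : 1 / 2 + sl δ * (h0 - v) - 20 * (t + δ) * t = 1 / 2 - t * m := by
      rw [hm, hvt]
      ring
    rw [e4]
    have hm1 : 0 ≤ m := by
      rw [hm]
      positivity
    have hm2 : m ≤ 2.6 := by
      rw [hm]
      linarith
    have hm3 : m ^ 2 ≤ 7 := by nlinarith
    have h9 : sl δ ^ 2 ≤ 4 := by nlinarith
    have h10 : 2 * h0 + t + t * m ^ 2 ≤ m := by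
      have h11 : t * m ^ 2 ≤ t * 7 := mul_le_mul_of_nonneg_left hm3 ht0
      have h12 : (sl δ ^ 2 + 1) * δ ≤ 5 * δ := mul_le_mul_of_nonneg_right (by linarith) hδ.le
      rw [hm] at *
      linarith
    have h13 := mul_le_mul_of_nonneg_left h10 ht0
    nlinarith

end Pool.Agent.StripNear
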