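import Pool.Agent.StripNear.CellLoss
import Pool.Agent.StripNear.Accounting

/-! # Defects: a bad cell pays for the two cuts around it -/

namespace Pool.Agent.StripNear

variable {X : Finset Pt} {n : ℕ}

private theorem Defect_small {δ ρ η ε1 ε2 : ℝ} (P : Par n δ ρ η ε1 ε2) :
    η ≤ 1 / 1000 ∧ δ ≤ 1 / 100 := by
  have h1 := P.hρ
  have h2 : (8 : ℝ) ≤ ((n : ℝ) + 2) ^ 3 := by
    have h3 : (2 : ℝ) ≤ (n : ℝ) + 2 := by
      have : (0 : ℝ) ≤ n := Nat.cast_nonneg n
      linarith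
    calc (8 : ℝ) = 2 ^ 3 := by norm_num
      _ ≤ ((n : ℝ) + 2) ^ 3 := pow_le_pow_left₀ (by norm_num) h3 3
  have h4 := P.hη
  have h5 := P.hηρ
  have h6 := P.hδ
  have h7 : 0 < 4 * ρ + δ := by linarith
  have h8 : 1000 * 8 * (4 * ρ + δ) ≤ 1 := by
    refine le_trans ?_ h1
    refine mul_le_mul_of_nonneg_right ?_ h7.le
    linarith
  constructor <;> linarith

private theorem Defect_chain {δ ρ η ε1 ε2 : ℝ} (P : Par n δ ρ η ε1 ε2) {a : ℤ} {d : ℕ → Pt}
    (hd : IsChain X n η a d) {r : ℕ} (hr : r ≤ n + 1) :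
    (a : ℝ) - 5 ≤ (d r).1 ∧ (d r).1 ≤ a + n + 7 ∧ |(d r).1 - (d 0).1| ≤ n + 2 := by
  obtain ⟨hη1, -⟩ := Defect_small P
  have h1 := abs_le.1 (chain_pos P.hη.le hd hr)
  have h2 := abs_le.1 hd.2.1
  have h3 : (0 : ℝ) ≤ r := Nat.cast_nonneg r
  have h4 : (r : ℝ) ≤ n + 1 := by exact_mod_cast hr
  have h5 : (r : ℝ) * η ≤ r * (1 / 1000) := mul_le_mul_of_nonneg_left hη1 h3
  refine ⟨by linarith [h1.1, h2.1], by linarith [h1.2, h2.2], ?_⟩
  rw [abs_le]
  constructor <;> linarith [h1.1, h1.2]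

private theorem Defect_strip {δ : ℝ} (hδ : 0 < δ)
    (hH : InStrip (((n : ℝ) + 1) * h0 - δ) X) : InStrip (((n : ℝ) + 1) * h0) X := by
  intro p hp
  have := hH p hp
  exact ⟨this.1, by linarith [this.2]⟩

/-- The defect lemma. -/
theorem defect {δ ρ η ε1 ε2 : ℝ} (P : Par n δ ρ η ε1 ε2) (hX : UnitSep X)
    (hH : InStrip (((n : ℝ) + 1) * h0 - δ) X) {a b b' : ℤ} (hab : a < b) (hbb : b < b')
    (hbad : ε1 < Tw X n b) (hVa : Tw X n a ≤ ε2) (hVb : Tw X n b' ≤ ε2)
    (hnon : ∀ j : ℤ, a < j → j < b' → ε2 < Tw X n j) {d e : ℕ → Pt}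
    (hd : IsChain X n η a d) (he : IsChain X n η b' e) :
    (∀ r ≤ n + 1, (d r).1 ≤ (e r).1) ∧
    ((btw X (fun r => (d r).1) (fun r => (e r).1)).card : ℝ)
      ≤ mf n δ * (∑ r ∈ Finset.range (n + 2), ((e r).1 - (d r).1)) - 500 * (n + 2) ^ 3 * η := by
  obtain ⟨hη1, hδ1⟩ := Defect_small P
  have hη := P.hη
  have hδ := P.hδ
  have hε2 := P.hε2
  have hε := P.hε
  have hH' := Defect_strip P.hδ hH
  have hGa : Good X n η a := P.good2 X hX hH' a hVa
  have hGb : Good X n η b' := P.good2 X hX hH' b' hVb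
  have hn : (0 : ℝ) ≤ n := Nat.cast_nonneg n
  have hWr : (win n : ℝ) = 12 * n + 60 := by unfold win; push_cast; ring
  have hW0 : (0 : ℝ) < win n := by rw [hWr]; linarith
  have habr : (a : ℝ) < b := by exact_mod_cast hab
  have hbbr : (b : ℝ) < b' := by exact_mod_cast hbb
  -- the two windows are far apart
  have hfar : (a : ℝ) + 2 * win n < b' := by
    by_contra hcon
    rw [not_lt] at hcon
    have h1 : Tw X n b ≤ T X n ((a : ℝ) - win n) ((b' : ℝ) + win n) := by
      unfold Tw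
      exact T_mono hX (by linarith) (by linarith)
    have h2 := T_add X n (α := (a : ℝ) - win n) (β := (a : ℝ) + win n) (γ := (b' : ℝ) + win n)
      (by linarith) (by linarith)
    have h3 : T X n ((a : ℝ) + win n) ((b' : ℝ) + win n) ≤ Tw X n b' := by
      unfold Tw
      exact T_mono hX (by linarith) le_rfl
    have h4 : T X n ((a : ℝ) - win n) ((a : ℝ) + win n) ≤ ε2 := hVa
    linarith
  set α : ℝ := (a : ℝ) + n + 7 with hα
  set β : ℝ := (b' : ℝ) - 5 with hβ
  have hαβ : α ≤ β := by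
    rw [hα, hβ]
    linarith
  have hda : ∀ r ≤ n + 1, (d r).1 ≤ α := fun r hr => (Defect_chain P hd hr).2.1
  have heb : ∀ r ≤ n + 1, β ≤ (e r).1 := fun r hr => (Defect_chain P he hr).1
  have hde : ∀ r ≤ n + 1, (d r).1 ≤ (e r).1 := fun r hr =>
    (hda r hr).trans (hαβ.trans (heb r hr))
  refine ⟨hde, ?_⟩
  -- the loss between the cuts
  have hT1 : ε1 / 2 ≤ T X n α β := by
    have h1 : Tw X n b ≤ T X n ((a : ℝ) - win n) ((b' : ℝ) + win n) := by
      unfold Tw
      exact T_mono hX (by linarith) (by linarith)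
    have h2 := T_add X n (α := (a : ℝ) - win n) (β := α) (γ := (b' : ℝ) + win n)
      (by rw [hα]; linarith) (by rw [hα]; linarith)
    have h3 := T_add X n (α := α) (β := β) (γ := (b' : ℝ) + win n) hαβ (by rw [hβ]; linarith)
    have h4 : T X n ((a : ℝ) - win n) α ≤ Tw X n a := by
      unfold Tw
      exact T_mono hX le_rfl (by rw [hα]; linarith)
    have h5 : T X n β ((b' : ℝ) + win n) ≤ Tw X n b' := by
      unfold Tw
      exact T_mono hX (by rw [hβ]; linarith) le_rfl
    linarith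
  set m : ℕ := (b' - a - n - 12 - 2 * win n).toNat with hm
  have hmr : (b' : ℝ) - a - n - 12 - 2 * win n ≤ m := by
    have h1 : b' - a - n - 12 - 2 * win n ≤ (m : ℤ) := Int.self_le_toNat _
    exact_mod_cast h1
  have hT2 : ε2 * m / (2 * win n) ≤ T X n α β := by
    rcases Nat.eq_zero_or_pos m with h0 | h0
    · rw [h0]
      simp only [Nat.cast_zero, mul_zero, zero_div]
      exact T_nonneg hX n α β
    · have h1 : (m : ℤ) = b' - a - n - 12 - 2 * win n := by
        rw [hm]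
        exact Int.toNat_of_nonneg (by omega)
      have h1r : (m : ℝ) = b' - a - n - 12 - 2 * win n := by exact_mod_cast h1
      have h2 := loss_of_not_perfect (n := n) hX hε2 (a + n + 7 + win n) m (by
        intro j hj1 hj2
        exact hnon j (by omega) (by omega))
      refine h2.trans (T_mono hX ?_ ?_)
      · rw [hα]
        push_cast
        linarith
      · rw [hβ]
        push_cast
        linarith
  have acc := accounting hX hδ hH (η := 2 * η) (by linarith) (by linarith)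
    (fun r => (d r).1) (fun r => (e r).1) hde (fun r hr => (Defect_chain P hd hr).2.2)
    (fun r hr => (Defect_chain P he hr).2.2)
    (chain_left hX hH' hη.le (by linarith) le_rfl hGa hd)
    (chain_right hX hH' hη.le (by linarith) le_rfl hGb he) hαβ hda heb
  set S := ∑ r ∈ Finset.range (n + 2), ((e r).1 - (d r).1) with hS
  have hS0 : 0 ≤ S := by
    refine Finset.sum_nonneg fun r hr => ?_
    rw [Finset.mem_range] at hr
    linarith [hde r (by omega)]
  have hS1 : S ≤ (n + 2) * (m + 3 * win n) := by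
    calc S ≤ ∑ r ∈ Finset.range (n + 2), ((m : ℝ) + 3 * win n) := by
          refine Finset.sum_le_sum fun r hr => ?_
          rw [Finset.mem_range] at hr
          have h1 := (Defect_chain P hd (r := r) (by omega)).1
          have h2 := (Defect_chain P he (r := r) (by omega)).2.1
          linarith
      _ = (n + 2) * (m + 3 * win n) := by
          rw [Finset.sum_const, Finset.card_range, nsmul_eq_mul]
          push_cast
          ring
  have h1 : (1 - mf n δ) * S ≤ 4 * δ * S := mul_le_mul_of_nonneg_right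
    (one_sub_mf n hδ hδ1) hS0
  have h2 : 4 * δ * S ≤ 4 * δ * ((n + 2) * (m + 3 * win n)) :=
    mul_le_mul_of_nonneg_left hS1 (by linarith)
  have h4 := P.hδ2
  have hm0 : (0 : ℝ) ≤ m := Nat.cast_nonneg m
  -- 4 δ (n+2) m ≤ (1/125) T
  have h3 : 4 * δ * ((n + 2) * m) ≤ (1 / 125) * T X n α β := by
    have h5 : 4 * δ * ((n + 2) * m) ≤ (1 / 125) * (ε2 * m / (2 * win n)) := by
      rw [← mul_div_assoc, le_div_iff₀ (by linarith)]
      have h6 := mul_le_mul_of_nonneg_right h4 hm0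
      linarith
    refine h5.trans (mul_le_mul_of_nonneg_left hT2 (by norm_num))
  have h5 : 4 * δ * ((n + 2) * (3 * win n)) ≤ (3 / 250) * ε2 := by linarith
  have h6 : 4 * δ * (((n : ℝ) + 2) * (m + 3 * win n)) =
      4 * δ * ((n + 2) * m) + 4 * δ * ((n + 2) * (3 * win n)) := by ring
  rw [h6] at h2
  have hcost := P.hcost
  have h7 : ((n : ℝ) + 2) ^ 2 * η ≤ (n + 2) ^ 3 * η / 2 := by
    have h8 : 0 ≤ ((n : ℝ) + 2) ^ 2 * η := by positivity
    have h9 : ((n : ℝ) + 2) ^ 3 * η = (n + 2) * (((n : ℝ) + 2) ^ 2 * η) := by ring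
    rw [h9]
    nlinarith
  have h10 : 20 * ((n : ℝ) + 2) ^ 2 * (2 * η) = 40 * (((n : ℝ) + 2) ^ 2 * η) := by ring
  have h11 : 500 * ((n : ℝ) + 2) ^ 3 * η = 500 * (((n : ℝ) + 2) ^ 3 * η) := by ring
  have h12 : 4000 * ((n : ℝ) + 2) ^ 3 * η = 4000 * (((n : ℝ) + 2) ^ 3 * η) := by ring
  rw [h10] at acc
  rw [h11]
  rw [h12] at hcost
  have h13 : 0 ≤ ((n : ℝ) + 2) ^ 3 * η := by positivity
  linarith

end Pool.Agent.StripNear
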