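import Mathlib

/-!
# Molnar's conjecture just below a lattice width: common definitions

All files of this folder work with finite sets of points of the plane whose pairwise distances are
at least one (`UnitSep`) in a horizontal strip (`InStrip`).  `h0` is the height of a row of the
triangular lattice.
-/

namespace Pool.Agent.StripNear

open MeasureTheory

/-- A point of the plane, `p.1` horizontal, `p.2` vertical coordinate. -/
abbrev Pt := ℝ × ℝ

/-- The height of the equilateral triangle of side one. -/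
noncomputable def h0 : ℝ := Real.sqrt 3 / 2

/-- Pairwise distances at least one. -/
def UnitSep (X : Finset Pt) : Prop :=
  ∀ p ∈ X, ∀ q ∈ X, p ≠ q → 1 ≤ (p.1 - q.1) ^ 2 + (p.2 - q.2) ^ 2

/-- All points lie in the strip `0 ≤ y ≤ H`. -/
def InStrip (H : ℝ) (X : Finset Pt) : Prop := ∀ p ∈ X, 0 ≤ p.2 ∧ p.2 ≤ H

/-- Capped horizontal distance from `p` to the next point of `X` on its right in the slab
`a ≤ y < a + h0`. -/
noncomputable def xn (X : Finset Pt) (p : Pt) (a : ℝ) : ℝ :=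
  X.fold min 2 (fun q => if a ≤ q.2 ∧ q.2 < a + h0 ∧ p.1 < q.1 then q.1 - p.1 else 2)

/-- The slack of a point: average capped distance to the next point of its slab, minus one. -/
noncomputable def slack (X : Finset Pt) (p : Pt) : ℝ :=
  (1 / h0) * (∫ a in (p.2 - h0)..p.2, xn X p a) - 1

/-- Abscissae not covered by the slab with bottom `a`. -/
def U (X : Finset Pt) (a : ℝ) : Set ℝ :=
  {u | ∀ q ∈ X, a ≤ q.2 → q.2 < a + h0 → ¬ (q.1 ≤ u ∧ u < q.1 + 2)}

/-- Length of the uncovered part of `[α, β)` in the slab with bottom `a`. -/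
noncomputable def ulen (X : Finset Pt) (a α β : ℝ) : ℝ := (volume (U X a ∩ Set.Ico α β)).toReal

/-- Average uncovered length of `[α, β)` over all slabs. -/
noncomputable def unc (X : Finset Pt) (n : ℕ) (α β : ℝ) : ℝ :=
  (1 / h0) * ∫ a in (-h0)..((n + 1) * h0), ulen X a α β

open Classical in
/-- Total local loss of the interval `[α, β)`. -/
noncomputable def T (X : Finset Pt) (n : ℕ) (α β : ℝ) : ℝ :=
  (∑ p ∈ X.filter (fun p => α ≤ p.1 ∧ p.1 < β), slack X p) + unc X n α β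

/-- `q` is within `ρ` of the point `p + (dx, dy)` in both coordinates. -/
def Near (ρ : ℝ) (p : Pt) (dx dy : ℝ) (q : Pt) : Prop :=
  |q.1 - p.1 - dx| ≤ ρ ∧ |q.2 - p.2 - dy| ≤ ρ

/-- Near the abscissa `u` the set `X` looks like the horizontal triangular lattice with
`n + 2` rows, up to `ρ`. -/
def Good (X : Finset Pt) (n : ℕ) (ρ u : ℝ) : Prop :=
  (∀ p ∈ X, |p.1 - u| ≤ 2 * n + 20 → ∃ r : ℕ, r ≤ n + 1 ∧ |p.2 - r * h0| ≤ ρ ∧
    (∃ q ∈ X, Near ρ p 1 0 q) ∧
    (r ≤ n → ∃ q ∈ X, Near ρ p (1 / 2) h0 q) ∧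
    (1 ≤ r → ∃ q ∈ X, Near ρ p (1 / 2) (-h0) q)) ∧
  (∃ p ∈ X, |p.1 - u| ≤ 4 ∧ |p.2| ≤ ρ)

/-- A chain near `u`: one point in each of the rows `0, ..., n + 1`, going up in direction 60. -/
def IsChain (X : Finset Pt) (n : ℕ) (ρ u : ℝ) (c : ℕ → Pt) : Prop :=
  (∀ r ≤ n + 1, c r ∈ X) ∧ |(c 0).1 - u| ≤ 5 ∧ |(c 0).2| ≤ ρ ∧
    ∀ r ≤ n, Near ρ (c r) (1 / 2) h0 (c (r + 1))

/-- The band (row) number of a point. -/
noncomputable def band (p : Pt) : ℕ := ⌊p.2 / h0 + 1 / 2⌋₊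

/-- Half of the long side of Molnar's fault: `sqrt (1 - (h0 - δ)^2)`. -/
noncomputable def cs (δ : ℝ) : ℝ := Real.sqrt (1 - (h0 - δ) ^ 2)

/-- Half width of the windows in which the local loss is measured. -/
def win (n : ℕ) : ℕ := 12 * n + 60

/-- Regular left cut: in a slab whose only possible row is `j`, the points on the right of the
cut (cut position of their own band) are on the right of the position of row `j`. -/
def LeftOK (X : Finset Pt) (n : ℕ) (η : ℝ) (c : ℕ → ℝ) : Prop :=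
  ∀ j : ℕ, j ≤ n + 1 → ∀ a : ℝ, ((j : ℝ) - 1) * h0 + η < a → a < j * h0 - η →
    ∀ p ∈ X, a ≤ p.2 → p.2 < a + h0 → c (band p) ≤ p.1 → c j ≤ p.1

/-- Regular right cut. -/
def RightOK (X : Finset Pt) (n : ℕ) (η : ℝ) (d : ℕ → ℝ) : Prop :=
  ∀ j : ℕ, j ≤ n + 1 → ∀ a : ℝ, ((j : ℝ) - 1) * h0 + η < a → a < j * h0 - η →
    ∀ p ∈ X, a ≤ p.2 → p.2 < a + h0 → p.1 < d (band p) → p.1 + xn X p a ≤ d j

open Classical in
/-- Points between two cuts. -/
noncomputable def btw (X : Finset Pt) (c d : ℕ → ℝ) : Finset Pt :=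
  X.filter (fun p => c (band p) ≤ p.1 ∧ p.1 < d (band p))

open Classical in
/-- Points on the right of a cut. -/
noncomputable def rgt (X : Finset Pt) (c : ℕ → ℝ) : Finset Pt :=
  X.filter (fun p => c (band p) ≤ p.1)

/-- `k` rows are known on `[α, β)`: every point is in one of the rows `0, ..., k - 1` or above
`k h0 - κ`, the rows are populated, and every point of these rows has a neighbour near
`p + (1, 0)`. -/
def Rows (X : Finset Pt) (k : ℕ) (κ α β : ℝ) : Prop :=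
  (∀ p ∈ X, α ≤ p.1 → p.1 < β → (∃ r < k, |p.2 - r * h0| ≤ κ) ∨ k * h0 - κ ≤ p.2) ∧
  (∀ r < k, ∀ u : ℝ, α ≤ u → u ≤ β → ∃ p ∈ X, u - 4 < p.1 ∧ p.1 ≤ u ∧ |p.2 - r * h0| ≤ κ) ∧
  (∀ r < k, ∀ p ∈ X, α ≤ p.1 → p.1 < β → |p.2 - r * h0| ≤ κ → ∃ q ∈ X, Near κ p 1 0 q)

end Pool.Agent.StripNear
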