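import Pool.Agent.StripNear.ElasticBounds

/-! # Elastic lemma -/

namespace Pool.Agent.StripNear

variable {n N : ℕ} {δ ρ : ℝ} {x y : ℕ → ℕ → ℝ}

private theorem elastic_sum_v_col (n : ℕ) (δ : ℝ) (y : ℕ → ℕ → ℝ) (i : ℕ) :
    ∑ r ∈ Finset.range (n + 1), (2 * h0 - vU y r i - vD y r i) =
      2 * δ + (2 * (((n : ℝ) + 1) * h0 - δ - y (n + 1) i) + y 0 i + y 0 (i + 1)) -
        ∑ r ∈ Finset.range n, (y (r + 1) i - y (r + 1) (i + 1)) := by
  induction n with
  | zero =>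
    simp [vU, vD]
    ring
  | succ n ih =>
    rw [Finset.sum_range_succ, ih, Finset.sum_range_succ _ n]
    unfold vU vD
    push_cast
    ring

/-- Summation of the vertical differences. -/
theorem sum_v (n K : ℕ) (δ : ℝ) (y : ℕ → ℕ → ℝ) :
    (∑ i ∈ Finset.range K, ∑ r ∈ Finset.range (n + 1), (2 * h0 - vU y r i - vD y r i))
      = 2 * K * δ + (∑ i ∈ Finset.range K, (2 * (((n : ℝ) + 1) * h0 - δ - y (n + 1) i)
          + y 0 i + y 0 (i + 1)))
        - ∑ r ∈ Finset.range n, (y (r + 1) 0 - y (r + 1) K) := by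
  induction K with
  | zero => simp
  | succ K ih =>
    rw [Finset.sum_range_succ, ih, elastic_sum_v_col n δ y K, Finset.sum_range_succ _ K]
    have h1 : ∑ r ∈ Finset.range n, (y (r + 1) 0 - y (r + 1) (K + 1)) =
        ∑ r ∈ Finset.range n, (y (r + 1) 0 - y (r + 1) K) +
          ∑ r ∈ Finset.range n, (y (r + 1) K - y (r + 1) (K + 1)) := by
      rw [← Finset.sum_add_distrib]
      refine Finset.sum_congr rfl fun r _ => ?_
      ring
    rw [h1]
    push_cast
    ring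

private theorem elastic_h0_bounds : 0.86 < h0 ∧ h0 < 0.8665 := by
  have h3 : Real.sqrt 3 ^ 2 = 3 := Real.sq_sqrt (by norm_num)
  have hp : 0 < Real.sqrt 3 := Real.sqrt_pos.mpr (by norm_num)
  unfold h0
  constructor <;> nlinarith

private theorem elastic_sqrt {v η : ℝ} (hη : 0 ≤ η) (hη1 : η ≤ 1 / 100) (hv : |v - h0| ≤ 2 * η) :
    1 / 2 - 6 * η ≤ Real.sqrt (1 - v ^ 2) := by
  obtain ⟨hl, hu⟩ := elastic_h0_bounds
  have h1 := abs_le.mp hv
  apply Real.le_sqrt_of_sq_le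
  have hsq : h0 ^ 2 = 3 / 4 := h0_sq
  have h2 : v ≤ h0 + 2 * η := by linarith
  have h3 : 0 ≤ v := by linarith
  have h4 : v ^ 2 ≤ (h0 + 2 * η) ^ 2 := by nlinarith
  nlinarith

/-- Slack of a column where the deviation is at most `η`. -/
theorem Acol_end (h : ElData n N δ ρ x y) (hρ : ρ ≤ 1 / 100) (hδ : 0 < δ) {η : ℝ}
    (hη : 0 ≤ η) (hηρ : η ≤ ρ) {i : ℕ} (hi : i < N)
    (e1 : ∀ r ≤ n + 1, |y r i - r * h0| ≤ η ∧ |y r (i + 1) - r * h0| ≤ η)
    (e2 : ∀ r ≤ n, |x (r + 1) i - x r i - 1 / 2| ≤ η ∧ |x r (i + 1) - x (r + 1) i - 1 / 2| ≤ η) :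
    Acol n δ x y i ≤ (14 * n + 17) * η := by
  have hη1 : η ≤ 1 / 100 := hηρ.trans hρ
  have hs : ∀ r ∈ Finset.range (n + 1), sU x y r i + sD x y r i ≤ 14 * η := by
    intro r hr
    have hr' : r ≤ n := by
      rw [Finset.mem_range] at hr
      omega
    obtain ⟨a1, a2⟩ := e1 r (by omega)
    obtain ⟨b1, b2⟩ := e1 (r + 1) (by omega)
    obtain ⟨c1, c2⟩ := e2 r hr'
    have a1' := abs_le.mp a1
    have a2' := abs_le.mp a2
    have b1' := abs_le.mp b1
    have c1' := abs_le.mp c1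
    have c2' := abs_le.mp c2
    push_cast at b1'
    have hU : |vU y r i - h0| ≤ 2 * η := by
      unfold vU
      rw [abs_le]
      constructor <;> linarith
    have hD : |vD y r i - h0| ≤ 2 * η := by
      unfold vD
      rw [abs_le]
      constructor <;> linarith
    have h1 := elastic_sqrt hη hη1 hU
    have h2 := elastic_sqrt hη hη1 hD
    unfold sU sD
    linarith
  have hsum := Finset.sum_le_sum hs
  rw [Finset.sum_const, Finset.card_range, nsmul_eq_mul] at hsum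
  obtain ⟨a1, a2⟩ := e1 0 (by omega)
  obtain ⟨b1, -⟩ := e1 (n + 1) le_rfl
  have a1' := abs_le.mp a1
  have a2' := abs_le.mp a2
  have b1' := abs_le.mp b1
  push_cast at a1' a2' b1' hsum
  unfold Acol
  linarith

/-- The elastic lemma.  `K` columns, `N = K + n + 2`. -/
theorem elastic (n : ℕ) {δ ρ η : ℝ} (hδ : 0 < δ) (hη : 0 ≤ η) (hηρ : η ≤ ρ)
    (hsmall : 1000 * ((n : ℝ) + 2) ^ 3 * (2 * ρ + δ) ≤ 1) (K : ℕ) (x y : ℕ → ℕ → ℝ)
    (h : ElData n (K + n + 2) δ ρ x y)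
    (e0 : ∀ r ≤ n + 1, |y r 0 - r * h0| ≤ η)
    (e1 : ∀ i, K ≤ i → i ≤ K + n + 2 → ∀ r ≤ n + 1, |y r i - r * h0| ≤ η)
    (e2 : ∀ i, K ≤ i → i ≤ K + n + 2 → ∀ r ≤ n, |x (r + 1) i - x r i - 1 / 2| ≤ η)
    (e3 : ∀ i, K ≤ i → i < K + n + 2 → ∀ r ≤ n, |x r (i + 1) - x (r + 1) i - 1 / 2| ≤ η) :
    (K : ℝ) * (n + 2 * cs δ) - 100 * (n + 2) ^ 3 * η
      ≤ ∑ r ∈ Finset.range (n + 1), (x r K - x r 0) := by
  have hn : (0 : ℝ) ≤ n := Nat.cast_nonneg n
  have hρ0 : 0 ≤ ρ := hη.trans hηρ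
  have hn8 : (8 : ℝ) ≤ ((n : ℝ) + 2) ^ 3 := by
    have : (2 : ℝ) ^ 3 ≤ ((n : ℝ) + 2) ^ 3 := pow_le_pow_left₀ (by norm_num) (by linarith) 3
    norm_num at this
    exact this
  have hsm : 2 * ρ + δ ≤ 1 / 8000 := by
    have h1 : 8000 * (2 * ρ + δ) ≤ 1000 * ((n : ℝ) + 2) ^ 3 * (2 * ρ + δ) :=
      mul_le_mul_of_nonneg_right (by linarith) (by linarith)
    linarith
  have hρ : ρ ≤ 1 / 100 := by linarith
  have hδ1 : δ ≤ 1 / 100 := by linarith
  have hsl1 := sl_ge hδ hδ1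
  have hsl2 := sl_le hδ hδ1
  have hslδ : sl δ * δ = cs δ - 1 / 2 := by
    unfold sl
    field_simp
  -- the columns
  have hcol : ∀ i ∈ Finset.range K,
      (∑ r ∈ Finset.range (n + 1), (1 + sl δ * (2 * h0 - vU y r i - vD y r i)
        + (sU x y r i + sD x y r i))) - 80 * (n + 1) ^ 2 * (2 * ρ + δ) * Bcol n δ x y i ≤
      ∑ r ∈ Finset.range (n + 1), (x r (i + 1) - x r i) := by
    intro i hi
    rw [Finset.mem_range] at hi
    exact column h hρ hδ hδ1 (by omega)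
  have hsumcol := Finset.sum_le_sum hcol
  have htel : ∑ i ∈ Finset.range K, ∑ r ∈ Finset.range (n + 1), (x r (i + 1) - x r i) =
      ∑ r ∈ Finset.range (n + 1), (x r K - x r 0) := by
    rw [Finset.sum_comm]
    refine Finset.sum_congr rfl fun r _ => ?_
    exact Finset.sum_range_sub (fun i => x r i) K
  rw [htel] at hsumcol
  have hexp : ∑ i ∈ Finset.range K,
      ((∑ r ∈ Finset.range (n + 1), (1 + sl δ * (2 * h0 - vU y r i - vD y r i)
        + (sU x y r i + sD x y r i))) - 80 * (n + 1) ^ 2 * (2 * ρ + δ) * Bcol n δ x y i) =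
      K * (n + 1) + sl δ * (∑ i ∈ Finset.range K, ∑ r ∈ Finset.range (n + 1),
        (2 * h0 - vU y r i - vD y r i)) +
      (∑ i ∈ Finset.range K, ∑ r ∈ Finset.range (n + 1), (sU x y r i + sD x y r i)) -
      80 * (n + 1) ^ 2 * (2 * ρ + δ) * ∑ i ∈ Finset.range K, Bcol n δ x y i := by
    rw [Finset.mul_sum, Finset.mul_sum, Finset.sum_sub_distrib]
    congr 1
    have h1 : (K : ℝ) * (n + 1) = ∑ _i ∈ Finset.range K, ((n : ℝ) + 1) := by
      rw [Finset.sum_const, Finset.card_range, nsmul_eq_mul]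
    rw [h1, ← Finset.sum_add_distrib, ← Finset.sum_add_distrib]
    refine Finset.sum_congr rfl fun i _ => ?_
    rw [Finset.sum_add_distrib, Finset.sum_add_distrib, ← Finset.mul_sum]
    simp
  rw [hexp, sum_v n K δ y] at hsumcol
  -- the slacks
  have hA0 : ∀ j, j < K + n + 2 → 0 ≤ Acol n δ x y j := fun j hj => Acol_nonneg h hρ hj
  have hAcol : ∑ i ∈ Finset.range K, Acol n δ x y i ≤
      sl δ * (∑ i ∈ Finset.range K, (2 * (((n : ℝ) + 1) * h0 - δ - y (n + 1) i)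
          + y 0 i + y 0 (i + 1))) +
        ∑ i ∈ Finset.range K, ∑ r ∈ Finset.range (n + 1), (sU x y r i + sD x y r i) := by
    rw [Finset.mul_sum, ← Finset.sum_add_distrib]
    refine Finset.sum_le_sum fun i hi => ?_
    rw [Finset.mem_range] at hi
    have t1 : 0 ≤ ((n : ℝ) + 1) * h0 - δ - y (n + 1) i := by
      have := h.top i (by omega)
      linarith
    have t2 := h.bot i (by omega)
    have t3 := h.bot (i + 1) (by omega)
    unfold Acol
    have t4 : 0 ≤ (sl δ - 1) * (2 * (((n : ℝ) + 1) * h0 - δ - y (n + 1) i)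
          + y 0 i + y 0 (i + 1)) := mul_nonneg (by linarith) (by linarith)
    nlinarith
  set S : ℝ := ∑ j ∈ Finset.range (K + n + 1), Acol n δ x y j with hS
  have hB : ∑ i ∈ Finset.range K, Bcol n δ x y i ≤ (n + 2) * S := by
    unfold Bcol
    rw [Finset.sum_comm]
    have h1 : ∀ j ∈ Finset.range (n + 2), ∑ i ∈ Finset.range K, Acol n δ x y (i + j) ≤ S := by
      intro j hj
      rw [Finset.mem_range] at hj
      have h2 : ∑ i ∈ Finset.range K, Acol n δ x y (i + j) =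
          ∑ k ∈ (Finset.range K).map (addRightEmbedding j), Acol n δ x y k := by
        rw [Finset.sum_map]
        rfl
      rw [h2, hS]
      apply Finset.sum_le_sum_of_subset_of_nonneg
      · intro k hk
        rw [Finset.mem_map] at hk
        obtain ⟨i, hi, rfl⟩ := hk
        rw [Finset.mem_range] at hi ⊢
        show i + j < K + n + 1
        omega
      · intro k hk _
        rw [Finset.mem_range] at hk
        exact hA0 k (by omega)
    have h3 := Finset.sum_le_sum h1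
    rw [Finset.sum_const, Finset.card_range, nsmul_eq_mul] at h3
    push_cast at h3
    exact h3
  have hSsplit : S ≤ ∑ i ∈ Finset.range K, Acol n δ x y i + (n + 1) * ((14 * n + 17) * η) := by
    rw [hS, show K + n + 1 = K + (n + 1) by ring, Finset.sum_range_add]
    have h1 : ∀ j ∈ Finset.range (n + 1), Acol n δ x y (K + j) ≤ (14 * n + 17) * η := by
      intro j hj
      rw [Finset.mem_range] at hj
      refine Acol_end h hρ hδ hη hηρ (by omega) ?_ ?_
      · intro r hr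
        exact ⟨e1 _ (by omega) (by omega) r hr, e1 _ (by omega) (by omega) r hr⟩
      · intro r hr
        exact ⟨e2 _ (by omega) (by omega) r hr, e3 _ (by omega) (by omega) r hr⟩
    have h3 := Finset.sum_le_sum h1
    rw [Finset.sum_const, Finset.card_range, nsmul_eq_mul] at h3
    push_cast at h3
    linarith
  have hS0 : 0 ≤ ∑ i ∈ Finset.range K, Acol n δ x y i := Finset.sum_nonneg fun i hi => by
    rw [Finset.mem_range] at hi
    exact hA0 i (by omega)
  have hc0 : 0 ≤ 80 * ((n : ℝ) + 1) ^ 2 * (2 * ρ + δ) := by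
    have : 0 ≤ 2 * ρ + δ := by linarith
    positivity
  have hc1 : 80 * ((n : ℝ) + 1) ^ 2 * (2 * ρ + δ) * (n + 2) ≤ 1 / 2 := by
    have h1 : ((n : ℝ) + 1) ^ 2 * (n + 2) ≤ (n + 2) ^ 3 := by nlinarith
    have h2 : ((n : ℝ) + 1) ^ 2 * (n + 2) * (2 * ρ + δ) ≤ (n + 2) ^ 3 * (2 * ρ + δ) :=
      mul_le_mul_of_nonneg_right h1 (by linarith)
    nlinarith
  have hBloss : 80 * ((n : ℝ) + 1) ^ 2 * (2 * ρ + δ) * ∑ i ∈ Finset.range K, Bcol n δ x y i ≤
      1 / 2 * (∑ i ∈ Finset.range K, Acol n δ x y i + (n + 1) * ((14 * n + 17) * η)) := by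
    have hS1 : 0 ≤ S := Finset.sum_nonneg fun j hj => by
      rw [Finset.mem_range] at hj
      exact hA0 j (by omega)
    calc 80 * ((n : ℝ) + 1) ^ 2 * (2 * ρ + δ) * ∑ i ∈ Finset.range K, Bcol n δ x y i ≤
          80 * ((n : ℝ) + 1) ^ 2 * (2 * ρ + δ) * ((n + 2) * S) :=
          mul_le_mul_of_nonneg_left hB hc0
      _ = 80 * ((n : ℝ) + 1) ^ 2 * (2 * ρ + δ) * (n + 2) * S := by ring
      _ ≤ 1 / 2 * S := mul_le_mul_of_nonneg_right hc1 hS1
      _ ≤ _ := mul_le_mul_of_nonneg_left hSsplit (by norm_num)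
  have hends : sl δ * ∑ r ∈ Finset.range n, (y (r + 1) 0 - y (r + 1) K) ≤ 4 * n * η := by
    have h1 : ∑ r ∈ Finset.range n, (y (r + 1) 0 - y (r + 1) K) ≤ n * (2 * η) := by
      have h2 : ∀ r ∈ Finset.range n, y (r + 1) 0 - y (r + 1) K ≤ 2 * η := by
        intro r hr
        rw [Finset.mem_range] at hr
        have a1 := abs_le.mp (e0 (r + 1) (by omega))
        have a2 := abs_le.mp (e1 K le_rfl (by omega) (r + 1) (by omega))
        linarith
      have h3 := Finset.sum_le_sum h2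
      rw [Finset.sum_const, Finset.card_range, nsmul_eq_mul] at h3
      exact h3
    have h4 : sl δ * ∑ r ∈ Finset.range n, (y (r + 1) 0 - y (r + 1) K) ≤ sl δ * (n * (2 * η)) :=
      mul_le_mul_of_nonneg_left h1 (by linarith)
    have h5 : sl δ * (n * (2 * η)) ≤ 2 * (n * (2 * η)) :=
      mul_le_mul_of_nonneg_right hsl2 (by positivity)
    linarith
  have hK : (0 : ℝ) ≤ K := Nat.cast_nonneg K
  have hmain : (K : ℝ) * (n + 1) + sl δ * (2 * K * δ) = K * (n + 2 * cs δ) := by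
    have : sl δ * (2 * K * δ) = 2 * K * (sl δ * δ) := by ring
    rw [this, hslδ]
    ring
  have hpoly : 1 / 2 * ((n + 1) * ((14 * n + 17) * η)) + 4 * n * η ≤ 100 * ((n : ℝ) + 2) ^ 3 * η := by
    have h1 : 1 / 2 * (((n : ℝ) + 1) * (14 * n + 17)) + 4 * n ≤ 100 * ((n : ℝ) + 2) ^ 3 := by
      nlinarith [pow_nonneg hn 3, pow_nonneg hn 2]
    have h2 := mul_le_mul_of_nonneg_right h1 hη
    linarith
  have hfin : sl δ * (2 * K * δ + (∑ i ∈ Finset.range K, (2 * (((n : ℝ) + 1) * h0 - δ - y (n + 1) i)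
          + y 0 i + y 0 (i + 1))) - ∑ r ∈ Finset.range n, (y (r + 1) 0 - y (r + 1) K)) =
      sl δ * (2 * K * δ) + sl δ * (∑ i ∈ Finset.range K,
        (2 * (((n : ℝ) + 1) * h0 - δ - y (n + 1) i) + y 0 i + y 0 (i + 1))) -
      sl δ * ∑ r ∈ Finset.range n, (y (r + 1) 0 - y (r + 1) K) := by ring
  rw [hfin] at hsumcol
  linarith

end Pool.Agent.StripNear
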