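import Pool.Agent.StripNear.ElasticDefs

/-! # Elastic lemma: `v` stays in `[h0 - δ, h0]` up to the slack of the next columns -/

namespace Pool.Agent.StripNear

variable {n N : ℕ} {δ ρ : ℝ} {x y : ℕ → ℕ → ℝ}

/-- the partial column slack -/
theorem part_le_Acol (h : ElData n N δ ρ x y) (hρ : ρ ≤ 1 / 100) {r i : ℕ} (hr : r ≤ n)
    (hi : i < N) :
    y 0 i + y 0 (i + 1) + ∑ k ∈ Finset.range (r + 1), (sU x y k i + sD x y k i)
      ≤ Acol n δ x y i := by
  have h1 : ∑ k ∈ Finset.range (r + 1), (sU x y k i + sD x y k i)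
      ≤ ∑ k ∈ Finset.range (n + 1), (sU x y k i + sD x y k i) := by
    apply Finset.sum_le_sum_of_subset_of_nonneg (Finset.range_subset_range.2 (by omega))
    intro k hk _
    have hk' : k ≤ n := by
      have := Finset.mem_range.1 hk
      omega
    exact add_nonneg (sU_nonneg h hρ hk' hi.le) (sD_nonneg h hρ hk' hi)
  have h2 := h.top i hi.le
  unfold Acol
  linarith

theorem one_le_Acol (h : ElData n N δ ρ x y) (hρ : ρ ≤ 1 / 100) {r i : ℕ} (hr : r ≤ n)
    (hi : i < N) :
    y 0 i + y 0 (i + 1) + sU x y r i + sD x y r i ≤ Acol n δ x y i := by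
  have h1 := part_le_Acol h hρ hr hi
  have h2 : sU x y r i + sD x y r i
      ≤ ∑ k ∈ Finset.range (r + 1), (sU x y k i + sD x y k i) := by
    apply Finset.single_le_sum (f := fun k => sU x y k i + sD x y k i) _
      (Finset.mem_range.2 (Nat.lt_succ_self r))
    intro k hk
    have hk' : k ≤ n := by
      have := Finset.mem_range.1 hk
      omega
    exact add_nonneg (sU_nonneg h hρ hk' hi.le) (sD_nonneg h hρ hk' hi)
  linarith

theorem upU (h : ElData n N δ ρ x y) (hρ : ρ ≤ 1 / 100) {r i : ℕ} (hr : r ≤ n)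
    (hi : i + r < N) : vU y r i - h0 ≤ ∑ j ∈ Finset.range (r + 1), Acol n δ x y (i + j) := by
  induction r generalizing i with
  | zero =>
    have h1 := bottomU h hρ (show i < N by omega)
    have h2 := one_le_Acol h hρ (Nat.zero_le n) (show i < N by omega)
    rw [zero_add, Finset.sum_range_one, add_zero]
    linarith
  | succ r ih =>
    have h1 := ih (i := i + 1) (by omega) (by omega)
    have h2 := stepU h hρ hr (show i + 1 < N by omega)
    have h3 := one_le_Acol h hρ hr (show i < N by omega)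
    have h4 := h.bot i (by omega)
    have h5 := h.bot (i + 1) (by omega)
    rw [Finset.sum_range_succ', add_zero]
    have h6 : ∑ j ∈ Finset.range (r + 1), Acol n δ x y (i + (j + 1))
        = ∑ j ∈ Finset.range (r + 1), Acol n δ x y (i + 1 + j) := by
      refine Finset.sum_congr rfl fun j _ => ?_
      congr 1
      omega
    rw [h6]
    linarith

theorem upD (h : ElData n N δ ρ x y) (hρ : ρ ≤ 1 / 100) {r i : ℕ} (hr : r ≤ n)
    (hi : i + 1 < N) : vD y r i - h0 ≤ Acol n δ x y i := by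
  have key : ∀ r : ℕ, r ≤ n → vD y r i - h0 ≤ y 0 i + y 0 (i + 1)
      + ∑ k ∈ Finset.range (r + 1), (sU x y k i + sD x y k i) := by
    intro r
    induction r with
    | zero =>
      intro _
      have h1 := bottomD h hρ (show i < N by omega)
      rw [zero_add, Finset.sum_range_one]
      linarith
    | succ r ih =>
      intro hr
      have h1 := ih (by omega)
      have h2 := stepD h hρ hr hi
      rw [Finset.sum_range_succ]
      linarith
  exact (key r hr).trans (part_le_Acol h hρ hr (by omega))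

/-- a partial sum of columns -/
theorem sub_le_Bcol (h : ElData n N δ ρ x y) (hρ : ρ ≤ 1 / 100) {i a m : ℕ}
    (ham : a + m ≤ n + 2) (hi : i + n + 2 ≤ N) :
    ∑ j ∈ Finset.range m, Acol n δ x y (i + a + j) ≤ Bcol n δ x y i := by
  unfold Bcol
  have h1 : ∑ j ∈ Finset.range m, Acol n δ x y (i + a + j)
      = ∑ j ∈ Finset.Ico a (a + m), Acol n δ x y (i + j) := by
    rw [Finset.sum_Ico_eq_sum_range]
    have : a + m - a = m := by omega
    rw [this]
    refine Finset.sum_congr rfl fun j _ => ?_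
    congr 1
    omega
  rw [h1]
  apply Finset.sum_le_sum_of_subset_of_nonneg
  · intro j hj
    have := Finset.mem_Ico.1 hj
    exact Finset.mem_range.2 (by omega)
  · intro j hj _
    have := Finset.mem_range.1 hj
    exact Acol_nonneg h hρ (by omega)

theorem Bcol_nonneg (h : ElData n N δ ρ x y) (hρ : ρ ≤ 1 / 100) {i : ℕ} (hi : i + n + 2 ≤ N) :
    0 ≤ Bcol n δ x y i := by
  have := sub_le_Bcol h hρ (i := i) (a := 0) (m := 0) (by omega) hi
  simpa using this

theorem Acol_le_Bcol (h : ElData n N δ ρ x y) (hρ : ρ ≤ 1 / 100) {i : ℕ} (hi : i + n + 2 ≤ N) :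
    Acol n δ x y i ≤ Bcol n δ x y i := by
  have := sub_le_Bcol h hρ (i := i) (a := 0) (m := 1) (by omega) hi
  simpa using this

theorem upU' (h : ElData n N δ ρ x y) (hρ : ρ ≤ 1 / 100) {r i : ℕ} (hr : r ≤ n)
    (hi : i + n + 2 ≤ N) : vU y r i - h0 ≤ Bcol n δ x y i := by
  have h1 := upU h hρ hr (show i + r < N by omega)
  have h2 := sub_le_Bcol h hρ (i := i) (a := 0) (m := r + 1) (by omega) hi
  rw [add_zero] at h2
  linarith

theorem upU'' (h : ElData n N δ ρ x y) (hρ : ρ ≤ 1 / 100) {r i : ℕ} (hr : r < n)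
    (hi : i + n + 2 ≤ N) : vU y r (i + 1) - h0 ≤ Bcol n δ x y i := by
  have h1 := upU h hρ hr.le (show i + 1 + r < N by omega)
  have h2 := sub_le_Bcol h hρ (i := i) (a := 1) (m := r + 1) (by omega) hi
  linarith

theorem sum_vU (y : ℕ → ℕ → ℝ) (i a m : ℕ) :
    ∑ k ∈ Finset.Ico a (a + m), vU y k i = y (a + m) i - y a i := by
  induction m with
  | zero => simp
  | succ m ih =>
    rw [← add_assoc, Finset.sum_Ico_succ_top (by omega), ih]
    unfold vU
    ring

theorem lowU (h : ElData n N δ ρ x y) (hρ : ρ ≤ 1 / 100) {r i : ℕ} (hr : r ≤ n)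
    (hi : i + n + 2 ≤ N) : h0 - δ - vU y r i ≤ (n + 1) * Bcol n δ x y i := by
  have h1 := sum_vU y i 0 (n + 1)
  rw [zero_add, ← Finset.range_eq_Ico, ← Finset.add_sum_erase _ _
    (Finset.mem_range.2 (show r < n + 1 by omega))] at h1
  have h2 : ∑ k ∈ (Finset.range (n + 1)).erase r, vU y k i
      ≤ ∑ k ∈ (Finset.range (n + 1)).erase r, (h0 + Bcol n δ x y i) := by
    apply Finset.sum_le_sum
    intro k hk
    have hk' := Finset.mem_range.1 (Finset.mem_of_mem_erase hk)
    have := upU' h hρ (show k ≤ n by omega) hi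
    linarith
  rw [Finset.sum_const, Finset.card_erase_of_mem (Finset.mem_range.2 (show r < n + 1 by omega)),
    Finset.card_range, nsmul_eq_mul] at h2
  have h3 : ((n + 1 - 1 : ℕ) : ℝ) = n := by simp
  rw [h3] at h2
  have h4 := Acol_le_Bcol h hρ hi
  have h5 := one_le_Acol h hρ hr (show i < N by omega)
  have h6 := sU_nonneg h hρ hr (show i ≤ N by omega)
  have h7 := sD_nonneg h hρ hr (show i < N by omega)
  have h8 := h.bot (i + 1) (by omega)
  have h9 : ((n : ℝ) + 1) * h0 - δ - y (n + 1) i + y 0 i ≤ Acol n δ x y i := by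
    have h10 : 0 ≤ ∑ k ∈ Finset.range (n + 1), (sU x y k i + sD x y k i) := by
      apply Finset.sum_nonneg
      intro k hk
      have hk' : k ≤ n := by
        have := Finset.mem_range.1 hk
        omega
      exact add_nonneg (sU_nonneg h hρ hk' (by omega)) (sD_nonneg h hρ hk' (by omega))
    unfold Acol
    linarith
  linarith

theorem lowD (h : ElData n N δ ρ x y) (hρ : ρ ≤ 1 / 100) {r i : ℕ} (hr : r ≤ n)
    (hi : i + n + 2 ≤ N) : h0 - δ - vD y r i ≤ (n + 1) * Bcol n δ x y i := by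
  have h1 := sum_vU y (i + 1) 0 r
  have h2 := sum_vU y i (r + 1) (n - r)
  have e : r + 1 + (n - r) = n + 1 := by omega
  rw [zero_add] at h1
  rw [e] at h2
  have h3 : ∑ k ∈ Finset.Ico 0 r, vU y k (i + 1)
      ≤ ∑ k ∈ Finset.Ico 0 r, (h0 + Bcol n δ x y i) := by
    apply Finset.sum_le_sum
    intro k hk
    have hk' := (Finset.mem_Ico.1 hk).2
    have := upU'' h hρ (show k < n by omega) hi
    linarith
  have h4 : ∑ k ∈ Finset.Ico (r + 1) (n + 1), vU y k i
      ≤ ∑ k ∈ Finset.Ico (r + 1) (n + 1), (h0 + Bcol n δ x y i) := by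
    apply Finset.sum_le_sum
    intro k hk
    have hk' := (Finset.mem_Ico.1 hk).2
    have := upU' h hρ (show k ≤ n by omega) hi
    linarith
  rw [Finset.sum_const, Nat.card_Ico, nsmul_eq_mul, Nat.sub_zero] at h3
  rw [Finset.sum_const, Nat.card_Ico, nsmul_eq_mul] at h4
  have h5 : ((n + 1 - (r + 1) : ℕ) : ℝ) = n - r := by
    rw [Nat.cast_sub (by omega)]
    push_cast
    ring
  rw [h5] at h4
  have h6 := Acol_le_Bcol h hρ hi
  have h8 := h.bot i (by omega)
  have h9 : ((n : ℝ) + 1) * h0 - δ - y (n + 1) i + y 0 (i + 1) ≤ Acol n δ x y i := by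
    have h10 : 0 ≤ ∑ k ∈ Finset.range (n + 1), (sU x y k i + sD x y k i) := by
      apply Finset.sum_nonneg
      intro k hk
      have hk' : k ≤ n := by
        have := Finset.mem_range.1 hk
        omega
      exact add_nonneg (sU_nonneg h hρ hk' (by omega)) (sD_nonneg h hρ hk' (by omega))
    unfold Acol
    linarith
  have h11 : vD y r i = y (r + 1) i - y r (i + 1) := rfl
  linarith

/-- one edge -/
theorem edge (hδ : 0 < δ) (hδ1 : δ ≤ 1 / 100) (hρ0 : 0 ≤ ρ) (hρ : ρ ≤ 1 / 100) {v B : ℝ} {n : ℕ}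
    (hv : |v - h0| ≤ 2 * ρ) (hB : 0 ≤ B) (h1 : v - h0 ≤ B) (h2 : h0 - δ - v ≤ (n + 1) * B) :
    1 / 2 + sl δ * (h0 - v) - 40 * (n + 1) * (2 * ρ + δ) * B ≤ Real.sqrt (1 - v ^ 2) := by
  have h3 := chord_out hδ hδ1 (show |v - h0| ≤ 1 / 50 by linarith)
  have hn : (0 : ℝ) ≤ n := Nat.cast_nonneg n
  have hnB : 0 ≤ n * B := mul_nonneg hn hB
  have h4 : max 0 (v - h0) ≤ B := max_le hB h1
  have h5 : max 0 (h0 - δ - v) ≤ (n + 1) * B := max_le (by positivity) h2
  have h6 : max 0 (v - h0) + max 0 (h0 - δ - v) ≤ 2 * (n + 1) * B := by linarith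
  have h7 : 20 * (|v - h0| + δ) * (max 0 (v - h0) + max 0 (h0 - δ - v))
      ≤ 20 * (2 * ρ + δ) * (2 * (n + 1) * B) := by
    apply mul_le_mul _ h6 (by positivity) (by positivity)
    linarith
  linarith

/-- One column. -/
theorem column (h : ElData n N δ ρ x y) (hρ : ρ ≤ 1 / 100) (hδ : 0 < δ) (hδ1 : δ ≤ 1 / 100)
    {i : ℕ} (hi : i + n + 2 ≤ N) :
    (∑ r ∈ Finset.range (n + 1), (1 + sl δ * (2 * h0 - vU y r i - vD y r i)
        + (sU x y r i + sD x y r i)))
      - 80 * (n + 1) ^ 2 * (2 * ρ + δ) * Bcol n δ x y i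
    ≤ ∑ r ∈ Finset.range (n + 1), (x r (i + 1) - x r i) := by
  have hρ0 : 0 ≤ ρ := (abs_nonneg _).trans (h.ny 0 (by omega) 0 (by omega))
  have hB := Bcol_nonneg h hρ hi
  have h1 : ∀ r ∈ Finset.range (n + 1), (1 + sl δ * (2 * h0 - vU y r i - vD y r i)
        + (sU x y r i + sD x y r i)) - 80 * (n + 1) * (2 * ρ + δ) * Bcol n δ x y i
        ≤ x r (i + 1) - x r i := by
    intro r hr
    have hr' : r ≤ n := by
      have := Finset.mem_range.1 hr
      omega
    have u1 := edge hδ hδ1 hρ0 hρ (vU_near h hr' (show i ≤ N by omega)) hB (upU' h hρ hr' hi)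
      (lowU h hρ hr' hi)
    have u2 := edge hδ hδ1 hρ0 hρ (vD_near h hr' (show i < N by omega)) hB
      ((upD h hρ hr' (show i + 1 < N by omega)).trans (Acol_le_Bcol h hρ hi))
      (lowD h hρ hr' hi)
    have hx : x r (i + 1) - x r i = sU x y r i + Real.sqrt (1 - (vU y r i) ^ 2)
        + (sD x y r i + Real.sqrt (1 - (vD y r i) ^ 2)) := by
      unfold sU sD
      ring
    rw [hx]
    linarith
  have h2 := Finset.sum_le_sum h1
  rw [Finset.sum_sub_distrib, Finset.sum_const, Finset.card_range, nsmul_eq_mul] at h2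
  push_cast at h2
  refine le_trans (le_of_eq ?_) h2
  ring

end Pool.Agent.StripNear
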