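import Pool.Agent.StripNear.Chains
import Pool.Agent.StripNear.Chord

/-! # Constants of the argument -/

namespace Pool.Agent.StripNear

variable {X : Finset Pt} {n : ℕ}

/-- Molnar's factor per row. -/
noncomputable def mf (n : ℕ) (δ : ℝ) : ℝ := (n + 1) / (n + 2 * cs δ)

private theorem par_cs {δ : ℝ} (hδ : 0 < δ) (hδ1 : δ ≤ 1 / 100) :
    1 / 2 ≤ cs δ ∧ cs δ ≤ 1 / 2 + 2 * δ := by
  have h1 := sl_ge hδ hδ1
  have h2 := sl_le hδ hδ1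
  unfold sl at h1 h2
  rw [le_div_iff₀ hδ] at h1
  rw [div_le_iff₀ hδ] at h2
  constructor <;> linarith

theorem mf_pos (n : ℕ) {δ : ℝ} (hδ : 0 < δ) (hδ1 : δ ≤ 1 / 100) : 0 < mf n δ := by
  have h := (par_cs hδ hδ1).1
  have hn : (0 : ℝ) ≤ n := Nat.cast_nonneg n
  unfold mf
  exact div_pos (by linarith) (by linarith)

theorem mf_le_one (n : ℕ) {δ : ℝ} (hδ : 0 < δ) (hδ1 : δ ≤ 1 / 100) : mf n δ ≤ 1 := by
  have h := (par_cs hδ hδ1).1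
  have hn : (0 : ℝ) ≤ n := Nat.cast_nonneg n
  unfold mf
  exact (div_le_one (by linarith)).2 (by linarith)

theorem one_sub_mf (n : ℕ) {δ : ℝ} (hδ : 0 < δ) (hδ1 : δ ≤ 1 / 100) : 1 - mf n δ ≤ 4 * δ := by
  obtain ⟨h1, h2⟩ := par_cs hδ hδ1
  have hn : (0 : ℝ) ≤ n := Nat.cast_nonneg n
  have hq : (0 : ℝ) < n + 2 * cs δ := by linarith
  unfold mf
  rw [sub_le_iff_le_add, ← sub_le_iff_le_add', le_div_iff₀ hq]
  have h3 : 0 ≤ 4 * δ * (n + 2 * cs δ - 1) := by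
    refine mul_nonneg (by linarith) (by linarith)
  nlinarith

/-- The constants of the argument. -/
structure Par (n : ℕ) (δ ρ η ε1 ε2 : ℝ) : Prop where
  hδ : 0 < δ
  hη : 0 < η
  hηρ : η ≤ ρ
  hρ : 1000 * ((n : ℝ) + 2) ^ 3 * (4 * ρ + δ) ≤ 1
  hε2 : 0 < ε2
  hε : 4 * ε2 ≤ ε1
  hε1 : ε1 ≤ 1
  hcost : 4000 * ((n : ℝ) + 2) ^ 3 * η ≤ ε1
  hδ2 : 1000 * ((n : ℝ) + 2) * win n * δ ≤ ε2
  good1 : ∀ X : Finset Pt, UnitSep X → InStrip (((n : ℝ) + 1) * h0) X → ∀ u : ℝ,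
    T X n (u - win n) (u + win n) ≤ ε1 → Good X n ρ u
  good2 : ∀ X : Finset Pt, UnitSep X → InStrip (((n : ℝ) + 1) * h0) X → ∀ u : ℝ,
    T X n (u - win n) (u + win n) ≤ ε2 → Good X n η u

/-- Loss of the window of the cell `j`. -/
noncomputable def Tw (X : Finset Pt) (n : ℕ) (j : ℤ) : ℝ := T X n ((j : ℝ) - win n) ((j : ℝ) + win n)

end Pool.Agent.StripNear
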