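import Pool.Agent.StripNear.GoodOfT
import Pool.Agent.StripNear.Params

/-! # Choice of the constants -/

namespace Pool.Agent.StripNear

variable {X : Finset Pt} {n : ℕ}

/-- Choice of the constants. -/
theorem exists_par (n : ℕ) : ∃ δ0 > 0, ∃ ρ η ε1 ε2 : ℝ, ∀ δ : ℝ, 0 < δ → δ ≤ δ0 →
    Par n δ ρ η ε1 ε2 := by
  have hN : (0 : ℝ) < ((n : ℝ) + 2) ^ 3 := by positivity
  have hW : (0 : ℝ) < win n := by
    have : 0 < win n := by unfold win; omega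
    exact_mod_cast this
  obtain ⟨ρ, hρ⟩ : ∃ ρ : ℝ, ρ = 1 / (8000 * ((n : ℝ) + 2) ^ 3) := ⟨_, rfl⟩
  have hρ0 : 0 < ρ := by rw [hρ]; positivity
  obtain ⟨e1, he1, hg1⟩ := good_of_T n hρ0
  obtain ⟨ε1, hε1⟩ : ∃ ε1 : ℝ, ε1 = min 1 e1 := ⟨_, rfl⟩
  have hε10 : 0 < ε1 := by rw [hε1]; exact lt_min one_pos he1
  obtain ⟨η, hη⟩ : ∃ η : ℝ, η = min ρ (ε1 / (4000 * ((n : ℝ) + 2) ^ 3)) := ⟨_, rfl⟩
  have hη0 : 0 < η := by rw [hη]; exact lt_min hρ0 (by positivity)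
  obtain ⟨e2, he2, hg2⟩ := good_of_T n hη0
  obtain ⟨ε2, hε2⟩ : ∃ ε2 : ℝ, ε2 = min (ε1 / 4) e2 := ⟨_, rfl⟩
  have hε20 : 0 < ε2 := by rw [hε2]; exact lt_min (by positivity) he2
  refine ⟨min (1 / (2000 * ((n : ℝ) + 2) ^ 3)) (ε2 / (1000 * ((n : ℝ) + 2) * win n)),
    lt_min (by positivity) (by positivity), ρ, η, ε1, ε2, fun δ hδ hδ1 => ?_⟩
  have hδa : δ ≤ 1 / (2000 * ((n : ℝ) + 2) ^ 3) := hδ1.trans (min_le_left _ _)
  have hδb : δ ≤ ε2 / (1000 * ((n : ℝ) + 2) * win n) := hδ1.trans (min_le_right _ _)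
  refine ⟨hδ, hη0, ?_, ?_, hε20, ?_, ?_, ?_, ?_, ?_, ?_⟩
  · rw [hη]; exact min_le_left _ _
  · rw [le_div_iff₀ (by positivity)] at hδa
    have h1 : ρ * (8000 * ((n : ℝ) + 2) ^ 3) = 1 := by
      rw [hρ]
      exact div_mul_cancel₀ _ (by positivity)
    linarith
  · have : ε2 ≤ ε1 / 4 := by rw [hε2]; exact min_le_left _ _
    linarith
  · rw [hε1]; exact min_le_left _ _
  · have h1 : η ≤ ε1 / (4000 * ((n : ℝ) + 2) ^ 3) := by rw [hη]; exact min_le_right _ _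
    rw [le_div_iff₀ (by positivity)] at h1
    linarith
  · rw [le_div_iff₀ (by positivity)] at hδb
    linarith
  · intro X hX hH u hT
    exact hg1 X hX hH u (hT.trans (by rw [hε1]; exact min_le_right _ _))
  · intro X hX hH u hT
    exact hg2 X hX hH u (hT.trans (by rw [hε2]; exact min_le_right _ _))

end Pool.Agent.StripNear
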