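import Pool.Agent.StripNear.RightCount
import Pool.Agent.StripNear.ExistsPar

/-! # Global counting -/

namespace Pool.Agent.StripNear

variable {X : Finset Pt} {n : ℕ}

theorem gl_small {δ ρ η ε1 ε2 : ℝ} (P : Par n δ ρ η ε1 ε2) : δ ≤ 1 / 100 := by
  have h1 := P.hρ
  have h2 := P.hδ
  have h3 := P.hη
  have h4 := P.hηρ
  have h5 : (8 : ℝ) ≤ ((n : ℝ) + 2) ^ 3 := by
    have h6 : (2 : ℝ) ≤ (n : ℝ) + 2 := by
      have := Nat.cast_nonneg (α := ℝ) n
      linarith
    calc (8 : ℝ) = 2 ^ 3 := by norm_num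
      _ ≤ ((n : ℝ) + 2) ^ 3 := pow_le_pow_left₀ (by norm_num) h6 3
  have h7 : 0 < 4 * ρ + δ := by linarith
  have h8 : 8 * (4 * ρ + δ) ≤ ((n : ℝ) + 2) ^ 3 * (4 * ρ + δ) :=
    mul_le_mul_of_nonneg_right h5 h7.le
  nlinarith

/-- Counting theorem. -/
theorem count_bound (n : ℕ) : ∃ δ0 > 0, ∀ δ : ℝ, 0 < δ → δ ≤ δ0 → ∃ C : ℝ, ∀ L : ℝ, 0 ≤ L →
    ∀ X : Finset Pt, UnitSep X → (∀ p ∈ X, 0 ≤ p.1 ∧ p.1 ≤ L) →
    InStrip (((n : ℝ) + 1) * h0 - δ) X →
    (X.card : ℝ) ≤ ((n + 1) * (n + 2)) / (n + 2 * cs δ) * L + C := by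
  obtain ⟨δ0, hδ0, ρ, η, ε1, ε2, hP⟩ := exists_par n
  refine ⟨δ0, hδ0, fun δ hδ hδ1 => ?_⟩
  have P := hP δ hδ hδ1
  obtain ⟨C1, hC1, h1⟩ := first_part n P
  obtain ⟨C2, hC2, h2⟩ := right_count n P
  obtain ⟨C3, hC3, h3⟩ := no_part n P
  have hmf := mf_pos n hδ (gl_small P)
  refine ⟨mf n δ * (2 * ((n : ℝ) + 2)) + C1 + C2 + C3, fun L hL0 X hX hL hH => ?_⟩
  have hη := P.hη
  have hε2 := P.hε2
  have hε := P.hε
  have hε1 := P.hε1
  have hcoef : ((n + 1) * (n + 2)) / (n + 2 * cs δ) * L = mf n δ * (((n : ℝ) + 2) * L) := by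
    unfold mf
    ring
  rw [hcoef]
  by_cases hex : ∃ j : ℤ, Tw X n j ≤ ε2
  · obtain ⟨a, ha, hmin⟩ := Int.exists_least_of_bdd (P := fun j : ℤ => Tw X n j ≤ ε2)
      ⟨-(win n : ℤ), fun z hz => by
        have := rc_near hX hL (j := z) (by linarith : Tw X n z ≤ 1)
        exact this.1.le⟩ hex
    have hgood : Good X n η a := P.good2 X hX (rc_strip_mono P.hδ hH) a ha
    obtain ⟨c, hc⟩ := exists_chain hX hη.le (rc_small P).1 hgood
    have hfirst := h1 X hX hH L hL0 hL a ha (by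
      intro j hj
      by_contra hcon
      rw [not_lt] at hcon
      have := hmin j hcon
      omega) c hc
    have hright := h2 X hX hH L hL0 hL a ha c hc
    have hcard : (X.card : ℝ) ≤ ((btw X (fun _ => 0) (fun r => (c r).1)).card : ℝ)
        + ((rgt X (fun r => (c r).1)).card : ℝ) := by
      classical
      have h : X ⊆ btw X (fun _ => 0) (fun r => (c r).1) ∪ rgt X (fun r => (c r).1) := by
        intro p hp
        rw [Finset.mem_union]
        unfold btw rgt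
        rw [Finset.mem_filter, Finset.mem_filter]
        rcases lt_or_ge p.1 (c (band p)).1 with h | h
        · exact Or.inl ⟨hp, (hL p hp).1, h⟩
        · exact Or.inr ⟨hp, h⟩
      have h1 := (Finset.card_le_card h).trans (Finset.card_union_le _ _)
      exact_mod_cast h1
    have hsum : (∑ r ∈ Finset.range (n + 2), (c r).1)
        + (∑ r ∈ Finset.range (n + 2), (L + 2 - (c r).1)) = ((n : ℝ) + 2) * (L + 2) := by
      rw [← Finset.sum_add_distrib]
      have : ∀ r ∈ Finset.range (n + 2), (c r).1 + (L + 2 - (c r).1) = L + 2 := by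
        intro r _
        ring
      rw [Finset.sum_congr rfl this, Finset.sum_const, Finset.card_range, nsmul_eq_mul]
      push_cast
      ring
    have hfin : mf n δ * (∑ r ∈ Finset.range (n + 2), (c r).1)
        + mf n δ * (∑ r ∈ Finset.range (n + 2), (L + 2 - (c r).1))
        = mf n δ * (((n : ℝ) + 2) * L) + mf n δ * (2 * ((n : ℝ) + 2)) := by
      rw [← mul_add, hsum]
      ring
    linarith
  · have hno := h3 X hX hH L hL0 hL (by
      intro j
      by_contra hcon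
      rw [not_lt] at hcon
      exact hex ⟨j, hcon⟩)
    have e : mf n δ * (((n : ℝ) + 2) * (L + 2))
        = mf n δ * (((n : ℝ) + 2) * L) + mf n δ * (2 * ((n : ℝ) + 2)) := by ring
    rw [e] at hno
    linarith

end Pool.Agent.StripNear
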