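import Pool.Agent.StripNear.RowStep

/-! # Small loss in a window implies lattice structure -/

namespace Pool.Agent.StripNear

variable {X : Finset Pt} {n : ℕ}

theorem got_rows_mono_interval {k : ℕ} {κ α β α' β' : ℝ} (h1 : α ≤ α') (h2 : β' ≤ β)
    (hR : Rows X k κ α β) : Rows X k κ α' β' := by
  obtain ⟨a, b, c⟩ := hR
  refine ⟨?_, ?_, ?_⟩
  · intro p hp h3 h4
    exact a p hp (h1.trans h3) (h4.trans_le h2)
  · intro r hr u h3 h4
    exact b r hr u (h1.trans h3) (h4.trans h2)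
  · intro r hr p hp h3 h4 h5
    exact c r hr p hp (h1.trans h3) (h4.trans_le h2) h5

theorem got_row_unique {y : ℝ} {r s : ℕ} (hr : |y - r * h0| ≤ 1 / 20) (hs : |y - s * h0| ≤ 1 / 20) :
    r = s := by
  have h0g := h0_gt
  rw [abs_le] at hr hs
  rcases lt_trichotomy r s with h | h | h
  · exfalso
    have h1 : (r : ℝ) + 1 ≤ s := by exact_mod_cast h
    nlinarith
  · exact h
  · exfalso
    have h1 : (s : ℝ) + 1 ≤ r := by exact_mod_cast h
    nlinarith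

theorem got_rows_mono_kappa {k : ℕ} {κ κ' α β : ℝ} (h1 : κ ≤ κ') (h2 : κ' ≤ 1 / 1000)
    (hR : Rows X k κ α β) : Rows X k κ' α β := by
  obtain ⟨a, b, c⟩ := hR
  have h0g := h0_gt
  refine ⟨?_, ?_, ?_⟩
  · intro p hp h3 h4
    rcases a p hp h3 h4 with ⟨r, hr, h5⟩ | h5
    · exact Or.inl ⟨r, hr, h5.trans h1⟩
    · right
      linarith
  · intro r hr u h3 h4
    obtain ⟨p, hp, h5, h6, h7⟩ := b r hr u h3 h4
    exact ⟨p, hp, h5, h6, h7.trans h1⟩
  · intro r hr p hp h3 h4 h5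
    rcases a p hp h3 h4 with ⟨s, hs, h6⟩ | h6
    · have hrs : r = s := got_row_unique (h5.trans (by linarith)) (h6.trans (by linarith))
      subst hrs
      obtain ⟨q, hq, h7, h8⟩ := c r hr p hp h3 h4 h6
      exact ⟨q, hq, h7.trans h1, h8.trans h1⟩
    · exfalso
      rw [abs_le] at h5
      have h7 : (r : ℝ) + 1 ≤ k := by exact_mod_cast hr
      nlinarith [h5.2]

theorem got_rows_aux (n k : ℕ) (hk : k ≤ n + 2) : ∀ κ : ℝ, 0 < κ → κ ≤ 1 / 1000 →
    ∃ ε > 0, ∀ X : Finset Pt, UnitSep X → (∀ p ∈ X, 0 ≤ p.2) → ∀ α β : ℝ,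
      T X n α β ≤ ε → Rows X k κ (α + 8 * k) (β - 8 * k) := by
  induction k with
  | zero =>
    intro κ hκ _
    refine ⟨1, one_pos, ?_⟩
    intro X _ hX0 α β _
    refine ⟨?_, ?_, ?_⟩
    · intro p hp _ _
      right
      have := hX0 p hp
      rw [Nat.cast_zero, zero_mul]
      linarith
    · intro r hr
      exact absurd hr (Nat.not_lt_zero r)
    · intro r hr
      exact absurd hr (Nat.not_lt_zero r)
  | succ k ih =>
    intro κ hκ hκ1
    set κ' : ℝ := min (κ / (2 * 10 ^ 10)) (1 / (4 * 10 ^ 12)) with hκ'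
    have hκ'0 : 0 < κ' := lt_min (by positivity) (by positivity)
    have hκ'1 : κ' ≤ κ / (2 * 10 ^ 10) := min_le_left _ _
    have hκ'2 : κ' ≤ 1 / (4 * 10 ^ 12) := min_le_right _ _
    obtain ⟨ε1, hε1, h⟩ := ih (by omega) κ' hκ'0 (hκ'2.trans (by norm_num))
    refine ⟨min ε1 κ', lt_min hε1 hκ'0, ?_⟩
    intro X hX hX0 α β hT
    have hR := h X hX hX0 α β (hT.trans (min_le_left _ _))
    have hT' : T X n (α + 8 * k) (β - 8 * k) ≤ κ' := by
      refine (T_mono hX ?_ ?_).trans (hT.trans (min_le_right _ _))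
      · have : (0 : ℝ) ≤ k := Nat.cast_nonneg k
        linarith
      · have : (0 : ℝ) ≤ k := Nat.cast_nonneg k
        linarith
    have hs : 10 ^ 12 * (κ' + κ') ≤ 1 := by
      have : 10 ^ 12 * (κ' + κ') ≤ 10 ^ 12 * (1 / (4 * 10 ^ 12) + 1 / (4 * 10 ^ 12)) := by
        gcongr
      refine this.trans ?_
      norm_num
    have hS := row_step hX (by omega : k ≤ n + 1) hκ'0.le hκ'0 hs hR hT'
    have h3 : 10 ^ 10 * (κ' + κ') ≤ κ := by
      have : 10 ^ 10 * (κ' + κ') ≤ 10 ^ 10 * (κ / (2 * 10 ^ 10) + κ / (2 * 10 ^ 10)) := by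
        gcongr
      refine this.trans (le_of_eq ?_)
      ring
    have hS' := got_rows_mono_kappa h3 hκ1 hS
    refine got_rows_mono_interval ?_ ?_ hS'
    · push_cast
      linarith
    · push_cast
      linarith

theorem rows_all (n : ℕ) {κ : ℝ} (hκ : 0 < κ) (hκ1 : κ ≤ 1 / 1000) :
    ∃ ε > 0, ∀ X : Finset Pt, UnitSep X → (∀ p ∈ X, 0 ≤ p.2) → ∀ α β : ℝ,
      T X n α β ≤ ε → Rows X (n + 2) κ (α + 8 * (n + 2)) (β - 8 * (n + 2)) := by
  obtain ⟨ε, hε, h⟩ := got_rows_aux n (n + 2) le_rfl κ hκ hκ1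
  refine ⟨ε, hε, ?_⟩
  intro X hX hX0 α β hT
  have := h X hX hX0 α β hT
  refine got_rows_mono_interval ?_ ?_ this
  · push_cast
    linarith
  · push_cast
    linarith

/-- Every point of the zone is in a row. -/
theorem got_zone_row (hH : InStrip (((n : ℝ) + 1) * h0) X) {κ α β : ℝ} (hκ1 : κ ≤ 1 / 1000)
    (hR : Rows X (n + 2) κ α β) {p : Pt} (hp : p ∈ X) (h1 : α ≤ p.1) (h2 : p.1 < β) :
    ∃ r < n + 2, |p.2 - r * h0| ≤ κ := by
  rcases hR.1 p hp h1 h2 with h | h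
  · exact h
  · exfalso
    have h0g := h0_gt
    have h3 := (hH p hp).2
    push_cast at h
    linarith

/-- Two consecutive points of row `s` around a given abscissa. -/
theorem got_walk (hH : InStrip (((n : ℝ) + 1) * h0) X) {κ α β : ℝ} (hκ : 0 ≤ κ)
    (hκ1 : κ ≤ 1 / 1000) (hR : Rows X (n + 2) κ α β) {s : ℕ} (hs : s < n + 2) {x : ℝ}
    (h1 : α + 4 ≤ x) (h2 : x + 2 < β) :
    ∃ z ∈ X, ∃ z' ∈ X, z.1 ≤ x ∧ x < z'.1 ∧ z'.1 - z.1 ≤ 1 + κ ∧
      |z.2 - s * h0| ≤ κ ∧ |z'.2 - s * h0| ≤ κ := by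
  classical
  obtain ⟨z0, hz0, h3, h4, h5⟩ := hR.2.1 s hs x (by linarith) (by linarith)
  obtain ⟨z, hz, hzm⟩ := Finset.exists_max_image
    (X.filter (fun z => |z.2 - s * h0| ≤ κ ∧ z.1 ≤ x)) (fun z => z.1)
    ⟨z0, Finset.mem_filter.2 ⟨hz0, h5, h4⟩⟩
  rw [Finset.mem_filter] at hz
  obtain ⟨hzX, hz1, hz2⟩ := hz
  have h6 : z0.1 ≤ z.1 := hzm z0 (Finset.mem_filter.2 ⟨hz0, h5, h4⟩)
  obtain ⟨z', hz', h7, h8⟩ := hR.2.2 s hs z hzX (by linarith) (by linarith) hz1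
  rw [abs_le] at h7
  obtain ⟨r', hr', h9⟩ := got_zone_row hH hκ1 hR hz' (by linarith [h7.1]) (by linarith [h7.2])
  have h10 : |z'.2 - s * h0| ≤ 1 / 20 := by
    rw [abs_le] at h8 hz1 ⊢
    constructor <;> linarith [h8.1, h8.2, hz1.1, hz1.2]
  have h11 : r' = s := got_row_unique (h9.trans (by linarith)) h10
  subst h11
  refine ⟨z, hzX, z', hz', hz2, ?_, by linarith [h7.2], hz1, h9⟩
  by_contra hcon
  push Not at hcon
  have := hzm z' (Finset.mem_filter.2 ⟨hz', h9, hcon⟩)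
  linarith [h7.1]

/-- The horizontal distance of two points of adjacent rows. -/
theorem got_adj_dist (hX : UnitSep X) {κ : ℝ} (hκ : 0 ≤ κ) (hκ1 : κ ≤ 1 / 1000) {p q : Pt}
    (hp : p ∈ X) (hq : q ∈ X) (h1 : p.1 ≤ q.1) (h2 : h0 - 2 * κ ≤ |q.2 - p.2|)
    (h3 : |q.2 - p.2| ≤ h0 + 2 * κ) : 1 / 2 - 4 * κ ≤ q.1 - p.1 := by
  have h0g := h0_gt
  have h0l := h0_lt
  have hsq := h0_sq
  have hne : q ≠ p := by
    intro h
    rw [h, sub_self, abs_zero] at h2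
    linarith
  have h4 := hX q hq p hp hne
  have h5 : (q.2 - p.2) ^ 2 ≤ (h0 + 2 * κ) ^ 2 := by
    rw [← sq_abs]
    exact pow_le_pow_left₀ (abs_nonneg _) h3 2
  by_contra hcon
  push Not at hcon
  have h6 : 0 ≤ q.1 - p.1 := by linarith
  have h7 : (q.1 - p.1) ^ 2 < (1 / 2 - 4 * κ) ^ 2 := by
    apply pow_lt_pow_left₀ hcon h6
    norm_num
  nlinarith

theorem got_adj_near (hX : UnitSep X) (hH : InStrip (((n : ℝ) + 1) * h0) X) {κ α β : ℝ} (hκ : 0 ≤ κ)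
    (hκ1 : κ ≤ 1 / 1000) (hR : Rows X (n + 2) κ α β) {r s : ℕ} (hs : s < n + 2) {p : Pt}
    (hp : p ∈ X) (hpr : |p.2 - r * h0| ≤ κ) (h1 : α + 4 ≤ p.1) (h2 : p.1 + 2 < β) {d : ℝ}
    (hd : d = h0 ∨ d = -h0) (hrs : (s : ℝ) * h0 = r * h0 + d) :
    ∃ q ∈ X, Near (10 * κ) p (1 / 2) d q := by
  have h0g := h0_gt
  obtain ⟨z, hz, z', hz', h3, h4, h5, h6, h7⟩ := got_walk hH hκ hκ1 hR hs h1 h2
  rw [hrs] at h6 h7
  rw [abs_le] at h6 h7 hpr
  have hz1 : h0 - 2 * κ ≤ |p.2 - z.2| ∧ |p.2 - z.2| ≤ h0 + 2 * κ := by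
    rcases hd with hd | hd
    · subst hd
      rw [abs_of_nonpos (by linarith)]
      constructor <;> linarith
    · subst hd
      rw [abs_of_nonneg (by linarith)]
      constructor <;> linarith
  have hz2 : h0 - 2 * κ ≤ |z'.2 - p.2| ∧ |z'.2 - p.2| ≤ h0 + 2 * κ := by
    rcases hd with hd | hd
    · subst hd
      rw [abs_of_nonneg (by linarith)]
      constructor <;> linarith
    · subst hd
      rw [abs_of_nonpos (by linarith)]
      constructor <;> linarith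
  have h8 := got_adj_dist hX hκ hκ1 hz hp h3 hz1.1 hz1.2
  have h9 := got_adj_dist hX hκ hκ1 hp hz' h4.le hz2.1 hz2.2
  refine ⟨z', hz', ?_, ?_⟩
  · rw [abs_le]
    constructor <;> linarith
  · rw [abs_le]
    constructor <;> linarith

/-- North-east and south-east neighbours from complete rows. -/
theorem good_of_rows (hX : UnitSep X) (hH : InStrip (((n : ℝ) + 1) * h0) X) {κ u : ℝ}
    (hκ : 0 ≤ κ) (hκ1 : κ ≤ 1 / 1000)
    (hR : Rows X (n + 2) κ (u - (2 * n + 30)) (u + (2 * n + 30))) : Good X n (10 * κ) u := by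
  have hn : (0 : ℝ) ≤ n := Nat.cast_nonneg n
  refine ⟨?_, ?_⟩
  · intro p hp hpu
    rw [abs_le] at hpu
    obtain ⟨r, hr, h1⟩ := got_zone_row hH hκ1 hR hp (by linarith [hpu.1]) (by linarith [hpu.2])
    refine ⟨r, by omega, h1.trans (by linarith), ?_, ?_, ?_⟩
    · obtain ⟨q, hq, h2, h3⟩ := hR.2.2 r hr p hp (by linarith [hpu.1]) (by linarith [hpu.2]) h1
      exact ⟨q, hq, h2.trans (by linarith), h3.trans (by linarith)⟩
    · intro hrn
      refine got_adj_near hX hH hκ hκ1 hR (s := r + 1) (by omega) hp h1 (by linarith [hpu.1])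
        (by linarith [hpu.2]) (Or.inl rfl) ?_
      push_cast
      ring
    · intro hr1
      obtain ⟨t, rfl⟩ : ∃ t, r = t + 1 := ⟨r - 1, by omega⟩
      refine got_adj_near hX hH hκ hκ1 hR (s := t) (by omega) hp h1 (by linarith [hpu.1])
        (by linarith [hpu.2]) (Or.inr rfl) ?_
      push_cast
      ring
  · obtain ⟨p, hp, h1, h2, h3⟩ := hR.2.1 0 (by omega) u (by linarith) (by linarith)
    refine ⟨p, hp, ?_, ?_⟩
    · rw [abs_le]
      constructor <;> linarith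
    · rw [Nat.cast_zero, zero_mul, sub_zero] at h3
      exact h3.trans (by linarith)

theorem got_good_mono {ρ ρ' u : ℝ} (h : ρ ≤ ρ') (hG : Good X n ρ u) : Good X n ρ' u := by
  obtain ⟨h1, p0, hp0, h2, h3⟩ := hG
  refine ⟨?_, p0, hp0, h2, h3.trans h⟩
  intro p hp hpu
  obtain ⟨r, hr, h4, ⟨q, hq, h5, h6⟩, h7, h8⟩ := h1 p hp hpu
  refine ⟨r, hr, h4.trans h, ⟨q, hq, h5.trans h, h6.trans h⟩, ?_, ?_⟩
  · intro hrn
    obtain ⟨q, hq, h9, h10⟩ := h7 hrn
    exact ⟨q, hq, h9.trans h, h10.trans h⟩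
  · intro hrn
    obtain ⟨q, hq, h9, h10⟩ := h8 hrn
    exact ⟨q, hq, h9.trans h, h10.trans h⟩

theorem good_of_T (n : ℕ) {ρ : ℝ} (hρ : 0 < ρ) :
    ∃ ε > 0, ∀ X : Finset Pt, UnitSep X → InStrip (((n : ℝ) + 1) * h0) X → ∀ u : ℝ,
      T X n (u - win n) (u + win n) ≤ ε → Good X n ρ u := by
  have hκ0 : 0 < min (ρ / 10) (1 / 1000 : ℝ) := lt_min (by positivity) (by norm_num)
  have hκ1 : min (ρ / 10) (1 / 1000 : ℝ) ≤ 1 / 1000 := min_le_right _ _
  obtain ⟨ε, hε, h⟩ := rows_all n hκ0 hκ1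
  refine ⟨ε, hε, ?_⟩
  intro X hX hH u hT
  have hR := h X hX (fun p hp => (hH p hp).1) _ _ hT
  have hn : (0 : ℝ) ≤ n := Nat.cast_nonneg n
  have hw : ((win n : ℕ) : ℝ) = 12 * n + 60 := by
    unfold win
    push_cast
    ring
  have hR' : Rows X (n + 2) (min (ρ / 10) (1 / 1000 : ℝ)) (u - (2 * n + 30))
      (u + (2 * n + 30)) := by
    refine got_rows_mono_interval ?_ ?_ hR
    · rw [hw]
      linarith
    · rw [hw]
      linarith
  have hG := good_of_rows hX hH hκ0.le hκ1 hR'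
  refine got_good_mono ?_ hG
  have := min_le_left (ρ / 10) (1 / 1000 : ℝ)
  linarith

end Pool.Agent.StripNear
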