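import Pool.Agent.StripNear.PointIneq

/-! # Almost equality with a forbidden band below: there is a point near `p + (1, 0)` -/

namespace Pool.Agent.StripNear

open MeasureTheory

private theorem n1_int_ge {G : ℝ → ℝ} (hG : IntervalIntegrable G volume 0 h0) {a b m : ℝ}
    (ha : 0 ≤ a) (hab : a ≤ b) (hb : b ≤ h0) (hm : ∀ t ∈ Set.Ioo a b, m ≤ G t) :
    m * (b - a) ≤ ∫ t in a..b, G t := by
  have hsub : IntervalIntegrable G volume a b := by
    apply hG.mono_set
    rw [Set.uIcc_of_le hab, Set.uIcc_of_le (by linarith)]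
    exact Set.Icc_subset_Icc ha hb
  have h1 : (∫ _ in a..b, m) ≤ ∫ t in a..b, G t :=
    intervalIntegral.integral_mono_on_of_le_Ioo hab intervalIntegrable_const hsub hm
  rw [intervalIntegral.integral_const, smul_eq_mul] at h1
  linarith

private theorem n1_three {G : ℝ → ℝ} (hG : IntervalIntegrable G volume 0 h0) {a b m1 m2 : ℝ}
    (ha : 0 ≤ a) (hab : a ≤ b) (hb : b ≤ h0) (h1 : ∀ t ∈ Set.Ioo 0 a, m1 ≤ G t)
    (h2 : ∀ t ∈ Set.Ioo a b, m2 ≤ G t) (h3 : ∀ t ∈ Set.Ioo b h0, 0 ≤ G t) :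
    m1 * a + m2 * (b - a) ≤ ∫ t in (0 : ℝ)..h0, G t := by
  have hi : ∀ u v : ℝ, 0 ≤ u → u ≤ v → v ≤ h0 → IntervalIntegrable G volume u v := by
    intro u v hu huv hv
    apply hG.mono_set
    rw [Set.uIcc_of_le huv, Set.uIcc_of_le (by linarith)]
    exact Set.Icc_subset_Icc hu hv
  have e1 := n1_int_ge hG le_rfl ha (by linarith) h1
  have e2 := n1_int_ge hG ha hab hb h2
  have e3 := n1_int_ge hG (by linarith) hb le_rfl h3
  have s1 := intervalIntegral.integral_add_adjacent_intervals (hi 0 a le_rfl ha (by linarith))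
    (hi a b ha hab hb)
  have s2 := intervalIntegral.integral_add_adjacent_intervals (hi 0 b le_rfl (by linarith) hb)
    (hi b h0 (by linarith) hb le_rfl)
  linarith

private theorem n1_two {G : ℝ → ℝ} (hG : IntervalIntegrable G volume 0 h0) {b m : ℝ}
    (hb0 : 0 ≤ b) (hb : b ≤ h0) (h2 : ∀ t ∈ Set.Ioo 0 b, m ≤ G t)
    (h3 : ∀ t ∈ Set.Ioo b h0, 0 ≤ G t) :
    m * b ≤ ∫ t in (0 : ℝ)..h0, G t := by
  have h := n1_three hG (a := 0) (b := b) (m1 := 0) (m2 := m) le_rfl hb0 hb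
    (by intro t ht; exact absurd ht.1 (not_lt.mpr ht.2.le)) h2 h3
  rwa [zero_mul, zero_add, sub_zero] at h

/-- square comparison -/
private theorem n1_le_of_sq {a b : ℝ} (hb : 0 ≤ b) (h : a ^ 2 ≤ b ^ 2) : a ≤ b :=
  le_of_sq_le_sq h hb

theorem near_one_abs (Q : Finset Pt) (hQ : ∀ q ∈ Q, 1 ≤ q.1 ^ 2 + q.2 ^ 2) (hsep : UnitSep Q)
    (G : ℝ → ℝ) (hG : IntervalIntegrable G volume 0 h0) (hG0 : ∀ t ∈ Set.Ioo 0 h0, 0 ≤ G t)
    (hD : Dom Q G) {κ ε : ℝ} (hκ : 0 ≤ κ) (hκ1 : κ ≤ 1 / 1000) (hε : 0 ≤ ε) (hε1 : ε ≤ 1 / 1000)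
    (hforb : ∀ q ∈ Q, 0 < q.1 → q.1 ≤ 2 → -h0 + κ < q.2 → -κ ≤ q.2)
    (hE : (∫ t in (0 : ℝ)..h0, G t) ≤ h0 * (1 + ε)) :
    ∃ q ∈ Q, |q.1 - 1| ≤ 40 * (κ + ε) ∧ |q.2| ≤ 40 * (κ + ε) := by
  classical
  have hg := h0_gt
  have hl := h0_lt
  have hsq := h0_sq
  have hp := h0_pos
  norm_num at hg hl
  have hhe : h0 * ε ≤ 0.001 * h0 := by
    have := mul_le_mul_of_nonneg_left hε1 hp.le
    linarith
  rw [mul_add, mul_one] at hE
  -- the candidate points
  set S : Finset Pt := Q.filter (fun q => 0 < q.1 ∧ q.1 ≤ 2 ∧ -κ ≤ q.2 ∧ q.2 ≤ h0) with hS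
  have hmem : ∀ q ∈ Q, 0 < q.1 → q.1 ≤ 2 → ∀ t : ℝ, 0 < t → t < h0 - κ → -t ≤ q.2 →
      q.2 ≤ h0 - t → q ∈ S := by
    intro q hq h1 h2 t ht0 ht1 h3 h4
    rw [hS, Finset.mem_filter]
    exact ⟨hq, h1, h2, hforb q hq h1 h2 (by linarith), by linarith⟩
  have hne : S.Nonempty := by
    by_contra hemp
    rw [Finset.not_nonempty_iff_eq_empty] at hemp
    have h2 : ∀ t ∈ Set.Ioo (0 : ℝ) (h0 - κ), (2 : ℝ) ≤ G t := by
      intro t ht
      apply hD t ⟨ht.1, by linarith [ht.2]⟩ 2 le_rfl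
      intro q hq h1 h3 h4
      by_contra hc
      push Not at hc
      have := hmem q hq h1 hc.le t ht.1 ht.2 h3 h4
      rw [hemp] at this
      simp at this
    have h3 := n1_two hG (b := h0 - κ) (by linarith) (by linarith) h2
      (fun t ht => hG0 t ⟨by linarith [ht.1], ht.2⟩)
    linarith
  obtain ⟨qs, hqs, hmin⟩ := S.exists_min_image (fun q => q.1) hne
  have hqs' := hqs
  rw [hS, Finset.mem_filter] at hqs'
  obtain ⟨hqsQ, hx0, hx2, hs1, hs2⟩ := hqs'
  set x := qs.1 with hx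
  set s := qs.2 with hs
  have hxs : 1 ≤ x ^ 2 + s ^ 2 := hQ qs hqsQ
  have hGx : ∀ t ∈ Set.Ioo (0 : ℝ) (h0 - κ), x ≤ G t := by
    intro t ht
    apply hD t ⟨ht.1, by linarith [ht.2]⟩ x hx2
    intro q hq h1 h3 h4
    by_contra hc
    push Not at hc
    have := hmin q (hmem q hq h1 (by linarith) t ht.1 ht.2 h3 h4)
    linarith
  have hG0' : ∀ t ∈ Set.Ioo (h0 - κ) h0, 0 ≤ G t := fun t ht => hG0 t ⟨by linarith [ht.1], ht.2⟩
  have hxle : x * (h0 - κ) ≤ h0 + h0 * ε := by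
    have h3 := n1_two hG (b := h0 - κ) (by linarith) (by linarith) hGx hG0'
    linarith
  have hx1 : x ≤ 1 + 2 * (κ + ε) := by
    by_contra hc
    push Not at hc
    have h1 : (1 + 2 * (κ + ε)) * (h0 - κ) < x * (h0 - κ) :=
      mul_lt_mul_of_pos_right hc (by linarith)
    have e1 : (1 + 2 * (κ + ε)) * (h0 - κ) =
        h0 + 2 * (κ * h0) + 2 * (h0 * ε) - κ - 2 * (κ * κ) - 2 * (κ * ε) := by ring
    have e2 : κ * 0.866 ≤ κ * h0 := mul_le_mul_of_nonneg_left (by linarith) hκ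
    have e3 : κ * κ ≤ κ * 0.001 := mul_le_mul_of_nonneg_left (by linarith) hκ
    have e4 : κ * ε ≤ κ * 0.001 := mul_le_mul_of_nonneg_left (by linarith) hκ
    have e5 : 0 ≤ h0 * ε := mul_nonneg hp.le hε
    rw [e1] at h1
    linarith
  rcases le_or_gt s (39 * (κ + ε)) with hcase | hcase
  · -- case A
    have habs : |s| ≤ 39 * (κ + ε) := abs_le.mpr ⟨by linarith, hcase⟩
    refine ⟨qs, hqsQ, ?_, by show |s| ≤ _; linarith⟩
    show |x - 1| ≤ _
    rw [abs_le]
    refine ⟨?_, by linarith⟩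
    have h1 : 1 - |s| ≤ x := by
      apply n1_le_of_sq hx0.le
      have e2 : s ^ 2 = |s| ^ 2 := (sq_abs s).symm
      rw [e2] at hxs
      have e3 := abs_nonneg s
      have e4 : |s| * |s| ≤ |s| * 1 := mul_le_mul_of_nonneg_left (by linarith) e3
      have e5 : (1 - |s|) ^ 2 = 1 - 2 * |s| + |s| * |s| := by ring
      have e6 : |s| ^ 2 = |s| * |s| := by ring
      rw [e5]
      rw [e6] at hxs
      linarith
    linarith
  · -- case B
    have hs0 : 0 < s := by linarith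
    have hh : ∀ t : ℝ, h0 - s < t → t < h0 - κ → 0 < t ∧ t < h0 - κ := fun t h1 h2 =>
      ⟨by linarith, h2⟩
    -- step 1: the window above the axis misses `qs`
    have hG1 : ∀ t ∈ Set.Ioo (h0 - s) (h0 - κ), x + 1 / 2 - 2 * κ ≤ G t := by
      intro t ht
      obtain ⟨ht0, ht1⟩ := hh t ht.1 ht.2
      apply hD t ⟨ht0, by linarith⟩ _ (by linarith)
      intro q hq h1 h3 h4
      by_contra hc
      push Not at hc
      have hqS := hmem q hq h1 (by linarith) t ht0 ht1 h3 h4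
      have hxq : x ≤ q.1 := hmin q hqS
      have hqS' := hqS
      rw [hS, Finset.mem_filter] at hqS'
      obtain ⟨-, -, -, hq2, -⟩ := hqS'
      have hlt : q.2 < s := by linarith [ht.1]
      have hqne : q ≠ qs := by
        intro h
        rw [h] at hlt
        exact lt_irrefl _ hlt
      have h5 := hsep q hq qs hqsQ hqne
      have h6 : (q.1 - qs.1) ^ 2 < (1 / 2 - 2 * κ) ^ 2 := by
        have : q.1 - qs.1 < 1 / 2 - 2 * κ := by linarith
        have h7 : 0 ≤ q.1 - qs.1 := by linarith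
        exact sq_lt_sq' (by linarith) (by linarith)
      have h8 : (q.2 - qs.2) ^ 2 ≤ (h0 + κ) ^ 2 := by
        apply sq_le_sq'
        · linarith
        · linarith
      have e1 : κ * h0 ≤ κ * 0.87 := mul_le_mul_of_nonneg_left (by linarith) hκ
      have e2 : κ * κ ≤ κ * 0.001 := mul_le_mul_of_nonneg_left (by linarith) hκ
      have e3 : (1 / 2 - 2 * κ) ^ 2 = 1 / 4 - 2 * κ + 4 * (κ * κ) := by ring
      have e4 : (h0 + κ) ^ 2 = 3 / 4 + 2 * (κ * h0) + κ * κ := by
        rw [← hsq]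
        ring
      rw [e3] at h6
      rw [e4] at h8
      linarith
    have hkey : h0 * x + s / 2 ≤ h0 + 0.87 * ε + 3.3 * κ := by
      have h3 := n1_three hG (a := h0 - s) (b := h0 - κ) (m1 := x) (by linarith) (by linarith)
        (by linarith) (fun t ht => hGx t ⟨ht.1, by linarith [ht.2]⟩) hG1 hG0'
      have e1 : κ * x ≤ κ * 1.01 := mul_le_mul_of_nonneg_left (by linarith) hκ
      have e2 : κ * s ≤ κ * 0.87 := mul_le_mul_of_nonneg_left (by linarith) hκ
      have e3 : h0 * ε ≤ 0.87 * ε := mul_le_mul_of_nonneg_right (by linarith) hε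
      have e4 : x * (h0 - s) + (x + 1 / 2 - 2 * κ) * (h0 - κ - (h0 - s)) =
          h0 * x + s / 2 - κ * x - κ / 2 - 2 * (κ * s) + 2 * (κ * κ) := by ring
      have e6 : 0 ≤ κ * κ := mul_nonneg hκ hκ
      rw [e4] at h3
      linarith
    have hx2s : 3 / 4 * (1 - s ^ 2) ≤ (h0 * x) ^ 2 := by
      rw [mul_pow, hsq]
      linarith
    have hs12 : 1 / 2 ≤ s := by
      by_contra hc
      push Not at hc
      have h1 : h0 - 0.24 * s ≤ h0 * x := by
        apply n1_le_of_sq (mul_nonneg hp.le hx0.le)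
        have e1 : 0 ≤ s * (0.48 * h0 - 0.8076 * s) := mul_nonneg hs0.le (by linarith)
        have e2 : (h0 - 0.24 * s) ^ 2 + s * (0.48 * h0 - 0.8076 * s) =
            3 / 4 * (1 - s ^ 2) := by
          have e3 : (h0 - 0.24 * s) ^ 2 + s * (0.48 * h0 - 0.8076 * s) =
            h0 ^ 2 - 3 / 4 * s ^ 2 := by ring
          rw [e3, hsq]
          ring
        linarith
      linarith
    have h1 : 1.36 * h0 - 0.86 * s ≤ h0 * x := by
      apply n1_le_of_sq (mul_nonneg hp.le hx0.le)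
      have e1 := mul_nonneg (show 0 ≤ h0 - s by linarith)
        (show 0 ≤ 1.4896 * s - 0.8496 * h0 by linarith)
      have e2 : (1.36 * h0 - 0.86 * s) ^ 2 + (h0 - s) * (1.4896 * s - 0.8496 * h0) =
          3 / 4 * (1 - s ^ 2) := by
        have e3 : (1.36 * h0 - 0.86 * s) ^ 2 + (h0 - s) * (1.4896 * s - 0.8496 * h0) =
          h0 ^ 2 - 3 / 4 * s ^ 2 := by ring
        rw [e3, hsq]
        ring
      linarith
    have hhs : h0 - s ≤ 2.42 * ε + 9.17 * κ := by linarith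
    -- step 2: the second point
    set S2 : Finset Pt := S.filter (fun q => q.2 < s) with hS2
    have hmem2 : ∀ q ∈ Q, 0 < q.1 → q.1 ≤ 2 → ∀ t : ℝ, h0 - s < t → t < h0 - κ → -t ≤ q.2 →
        q.2 ≤ h0 - t → q ∈ S2 := by
      intro q hq h1 h2 t ht0 ht1 h3 h4
      rw [hS2, Finset.mem_filter]
      exact ⟨hmem q hq h1 h2 t (hh t ht0 ht1).1 ht1 h3 h4, by linarith⟩
    have hG00 : ∀ t ∈ Set.Ioo 0 (h0 - s), 0 ≤ G t := fun t ht => hG0 t ⟨ht.1, by linarith [ht.2]⟩
    have hne2 : S2.Nonempty := by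
      by_contra hemp
      rw [Finset.not_nonempty_iff_eq_empty] at hemp
      have h2 : ∀ t ∈ Set.Ioo (h0 - s) (h0 - κ), (2 : ℝ) ≤ G t := by
        intro t ht
        obtain ⟨ht0, ht1⟩ := hh t ht.1 ht.2
        apply hD t ⟨ht0, by linarith⟩ 2 le_rfl
        intro q hq h1 h3 h4
        by_contra hc
        push Not at hc
        have := hmem2 q hq h1 hc.le t ht.1 ht.2 h3 h4
        rw [hemp] at this
        simp at this
      have h3 := n1_three hG (a := h0 - s) (b := h0 - κ) (m1 := 0) (by linarith) (by linarith)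
        (by linarith) hG00 h2 hG0'
      rw [zero_mul, zero_add] at h3
      linarith
    obtain ⟨q', hq', hmin'⟩ := S2.exists_min_image (fun q => q.1) hne2
    have hq'' := hq'
    rw [hS2, Finset.mem_filter] at hq''
    obtain ⟨hq'S, hq's⟩ := hq''
    have hq'3 := hq'S
    rw [hS, Finset.mem_filter] at hq'3
    obtain ⟨hq'Q, hx'0, hx'2, hv1, hv2⟩ := hq'3
    have hxx' : x ≤ q'.1 := hmin q' hq'S
    have hG2 : ∀ t ∈ Set.Ioo (h0 - s) (h0 - κ), q'.1 ≤ G t := by
      intro t ht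
      obtain ⟨ht0, ht1⟩ := hh t ht.1 ht.2
      apply hD t ⟨ht0, by linarith⟩ _ hx'2
      intro q hq h1 h3 h4
      by_contra hc
      push Not at hc
      have := hmin' q (hmem2 q hq h1 (by linarith) t ht.1 ht.2 h3 h4)
      linarith
    have hx'le : q'.1 * (s - κ) ≤ h0 + h0 * ε := by
      have h3 := n1_three hG (a := h0 - s) (b := h0 - κ) (m1 := 0) (by linarith) (by linarith)
        (by linarith) hG00 hG2 hG0'
      have e1 : h0 - κ - (h0 - s) = s - κ := by ring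
      rw [zero_mul, zero_add, e1] at h3
      linarith
    set D : ℝ := 4 * ε + 12.5 * κ with hDdef
    have hD0 : 0 ≤ D := by positivity
    have hD1 : D ≤ 0.0165 := by rw [hDdef]; linarith
    have hx'1 : q'.1 ≤ 1 + D := by
      by_contra hc
      push Not at hc
      have h1 : (1 + D) * (s - κ) < q'.1 * (s - κ) := mul_lt_mul_of_pos_right hc (by linarith)
      have h2 : (1 + D) * (h0 - (2.42 * ε + 10.17 * κ)) ≤ (1 + D) * (s - κ) :=
        mul_le_mul_of_nonneg_left (by linarith) (by linarith)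
      have h3 : D * (2.42 * ε + 10.17 * κ) ≤ D * 0.0126 :=
        mul_le_mul_of_nonneg_left (by linarith) hD0
      have h4 : D * 0.866 ≤ D * h0 := mul_le_mul_of_nonneg_left (by linarith) hD0
      have h5 : h0 * ε ≤ 0.8661 * ε := mul_le_mul_of_nonneg_right (by linarith) hε
      have h6 : (1 + D) * (h0 - (2.42 * ε + 10.17 * κ)) =
          h0 + D * h0 - (2.42 * ε + 10.17 * κ) - D * (2.42 * ε + 10.17 * κ) := by ring
      rw [h6] at h2
      linarith
    have hxhalf : 1 / 2 ≤ x := by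
      apply n1_le_of_sq hx0.le
      have : s ^ 2 ≤ h0 ^ 2 := by
        apply sq_le_sq'
        · linarith
        · exact hs2
      rw [hsq] at this
      linarith
    have hqne : q' ≠ qs := by
      intro h
      rw [h] at hq's
      exact lt_irrefl _ hq's
    have h5 := hsep q' hq'Q qs hqsQ hqne
    have h6 : (q'.1 - qs.1) ^ 2 ≤ (1 / 2 + D) ^ 2 := by
      apply sq_le_sq'
      · linarith
      · linarith
    have h7 : h0 - 0.6 * D ≤ s - q'.2 := by
      apply n1_le_of_sq (by linarith)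
      have e1 : (s - q'.2) ^ 2 = (q'.2 - qs.2) ^ 2 := by
        rw [hs]
        ring
      rw [e1]
      have e2 : D * D ≤ D * 0.0165 := mul_le_mul_of_nonneg_left hD1 hD0
      have e3 : D * 0.866 ≤ D * h0 := mul_le_mul_of_nonneg_left (by linarith) hD0
      have e4 : (h0 - 0.6 * D) ^ 2 = 3 / 4 - 1.2 * (D * h0) + 0.36 * (D * D) := by
        rw [← hsq]
        ring
      have e5 : (1 / 2 + D) ^ 2 = 1 / 4 + D + D * D := by ring
      rw [e4]
      rw [e5] at h6
      linarith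
    have hv3 : q'.2 ≤ 7.5 * (κ + ε) := by
      rw [hDdef] at h7
      linarith
    have habs : |q'.2| ≤ 7.5 * (κ + ε) := abs_le.mpr ⟨by linarith, hv3⟩
    refine ⟨q', hq'Q, ?_, by linarith⟩
    rw [abs_le]
    refine ⟨?_, by rw [hDdef] at hx'1; linarith⟩
    have h8 : 1 - |q'.2| ≤ q'.1 := by
      apply n1_le_of_sq hx'0.le
      have e1 := hQ q' hq'Q
      have e2 : q'.2 ^ 2 = |q'.2| ^ 2 := (sq_abs q'.2).symm
      rw [e2] at e1
      have e3 := abs_nonneg q'.2
      have e4 : |q'.2| * |q'.2| ≤ |q'.2| * 1 := mul_le_mul_of_nonneg_left (by linarith) e3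
      have e5 : (1 - |q'.2|) ^ 2 = 1 - 2 * |q'.2| + |q'.2| * |q'.2| := by ring
      have e6 : |q'.2| ^ 2 = |q'.2| * |q'.2| := by ring
      rw [e5]
      rw [e6] at e1
      linarith
    linarith

theorem near_one {X : Finset Pt} (hX : UnitSep X) {p : Pt} (hp : p ∈ X) {κ ε : ℝ} (hκ : 0 ≤ κ)
    (hκ1 : κ ≤ 1 / 1000) (hε : 0 ≤ ε) (hε1 : ε ≤ 1 / 1000)
    (hforb : ∀ q ∈ X, p.1 < q.1 → q.1 ≤ p.1 + 2 → p.2 - h0 + κ < q.2 → p.2 - κ ≤ q.2)
    (hs : slack X p ≤ ε) : ∃ q ∈ X, Near (40 * (κ + ε)) p 1 0 q := by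
  classical
  have hp0 := h0_pos
  set f : Pt → Pt := fun q => (q.1 - p.1, q.2 - p.2) with hf
  obtain ⟨q, hq, h1, h2⟩ := near_one_abs ((X.erase p).image f) (by
      intro q hq
      rw [Finset.mem_image] at hq
      obtain ⟨z, hz, rfl⟩ := hq
      rw [Finset.mem_erase] at hz
      exact hX z hz.2 p hp hz.1) (by
      intro q hq q' hq' hne
      rw [Finset.mem_image] at hq hq'
      obtain ⟨z, hz, rfl⟩ := hq
      obtain ⟨z', hz', rfl⟩ := hq'
      rw [Finset.mem_erase] at hz hz'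
      have hzne : z ≠ z' := by
        rintro rfl
        exact hne rfl
      have := hX z hz.2 z' hz'.2 hzne
      show 1 ≤ ((z.1 - p.1) - (z'.1 - p.1)) ^ 2 + ((z.2 - p.2) - (z'.2 - p.2)) ^ 2
      have e1 : (z.1 - p.1) - (z'.1 - p.1) = z.1 - z'.1 := by ring
      have e2 : (z.2 - p.2) - (z'.2 - p.2) = z.2 - z'.2 := by ring
      rw [e1, e2]
      exact this) (fun t => xn X p (p.2 - t)) (by
      have h3 := (xn_intervalIntegrable X p p.2 (p.2 - h0)).comp_sub_left p.2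
      rw [sub_self, sub_sub_cancel] at h3
      exact h3) (fun t _ => xn_nonneg X p _) (by
      intro t ht m hm hall
      apply dom_xn X p t ht m hm
      intro q hq h1 h3 h4
      rw [Finset.mem_image] at hq
      obtain ⟨z, hz, rfl⟩ := hq
      have hzp : z ≠ p := by
        rintro rfl
        simp at h1
      exact hall _ (Finset.mem_image.mpr ⟨z, Finset.mem_erase.mpr ⟨hzp, hz⟩, rfl⟩) h1 h3 h4)
      hκ hκ1 hε hε1 (by
      intro q hq h1 h3 h4
      rw [Finset.mem_image] at hq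
      obtain ⟨z, hz, rfl⟩ := hq
      rw [Finset.mem_erase] at hz
      simp only [hf] at h1 h3 h4 ⊢
      have := hforb z hz.2 (by linarith) (by linarith) (by linarith)
      linarith) (by
      rw [intervalIntegral.integral_comp_sub_left (fun a => xn X p a), sub_zero]
      unfold slack at hs
      have h3 : (1 / h0) * (∫ a in (p.2 - h0)..p.2, xn X p a) ≤ 1 + ε := by linarith
      rw [one_div, inv_mul_le_iff₀ hp0] at h3
      exact h3)
  rw [Finset.mem_image] at hq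
  obtain ⟨z, hz, rfl⟩ := hq
  rw [Finset.mem_erase] at hz
  refine ⟨z, hz.2, h1, ?_⟩
  rw [sub_zero]
  exact h2

end Pool.Agent.StripNear
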