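import Pool.Agent.StripNear.PointReal

/-! # Groemer's inequality, pointwise form -/

namespace Pool.Agent.StripNear

open MeasureTheory

/-- `G` dominates the closed-window next distance of the finite set `Q` of relative points. -/
def Dom (Q : Finset Pt) (G : ℝ → ℝ) : Prop :=
  ∀ t ∈ Set.Ioo 0 h0, ∀ m ≤ (2 : ℝ),
    (∀ q ∈ Q, 0 < q.1 → -t ≤ q.2 → q.2 ≤ h0 - t → m ≤ q.1) → m ≤ G t

/-- Lower bound of an integral by a constant lower bound on the open interval. -/
theorem const_mul_le_integral {G : ℝ → ℝ} {a b c : ℝ} (hab : a ≤ b)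
    (hG : IntervalIntegrable G volume a b) (h : ∀ t, a < t → t < b → c ≤ G t) :
    (b - a) * c ≤ ∫ t in a..b, G t := by
  have h1 : ∫ _ in a..b, c ≤ ∫ t in a..b, G t :=
    intervalIntegral.integral_mono_on_of_le_Ioo hab intervalIntegrable_const hG
      (fun t ht => h t ht.1 ht.2)
  rwa [intervalIntegral.integral_const, smul_eq_mul] at h1

/-- Main case: the nearest seen point `qs` is not above the axis. -/
theorem window_ineq_low (Q : Finset Pt) (hQ : ∀ q ∈ Q, 1 ≤ q.1 ^ 2 + q.2 ^ 2) (hsep : UnitSep Q)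
    (G : ℝ → ℝ) (hG : IntervalIntegrable G volume 0 h0) (hD : Dom Q G)
    (qs : Pt) (hqs : qs ∈ Q) (h1 : 0 < qs.1) (h2 : -h0 ≤ qs.2) (h3 : qs.2 ≤ 0)
    (hmin : ∀ q ∈ Q, 0 < q.1 → -h0 ≤ q.2 → q.2 ≤ h0 → qs.1 ≤ q.1) :
    h0 ≤ ∫ t in (0 : ℝ)..h0, G t := by
  classical
  have hpos := h0_pos
  rcases le_or_gt 1 qs.1 with hx1 | hx1
  · -- the nearest point is at distance at least one
    have key := const_mul_le_integral (c := 1) hpos.le hG (fun t ht ht' => by
      refine hD t ⟨ht, ht'⟩ 1 (by norm_num) (fun q hq hq1 hq2 hq3 => ?_)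
      exact hx1.trans (hmin q hq hq1 (by linarith) (by linarith)))
    linarith
  -- `G ≥ x` everywhere
  have hGx : ∀ t, 0 < t → t < h0 → qs.1 ≤ G t := fun t ht ht' => by
    refine hD t ⟨ht, ht'⟩ qs.1 (by linarith) (fun q hq hq1 hq2 hq3 => ?_)
    exact hmin q hq hq1 (by linarith) (by linarith)
  obtain ⟨x, y⟩ := qs
  dsimp only at h1 h2 h3 hmin hx1 hGx
  obtain ⟨s, rfl⟩ : ∃ s : ℝ, y = -s := ⟨-y, by ring⟩
  have hs0 : 0 ≤ s := by linarith
  have hs1 : s ≤ h0 := by linarith
  have hxs : 1 ≤ x ^ 2 + s ^ 2 := by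
    have := hQ _ hqs
    dsimp only at this
    nlinarith
  have hInt : ∀ a b : ℝ, 0 ≤ a → b ≤ h0 → a ≤ b → IntervalIntegrable G volume a b := by
    intro a b ha hb hab
    refine hG.mono_set ?_
    rw [Set.uIcc_of_le hab, Set.uIcc_of_le hpos.le]
    exact Set.Icc_subset_Icc ha hb
  by_cases hall : ∀ q ∈ Q, 0 < q.1 → -s < q.2 → q.2 ≤ h0 → x + 1 / 2 ≤ q.1
  · have e1 := const_mul_le_integral (c := x + 1 / 2) hs0 (hInt 0 s le_rfl hs1 hs0)
      (fun t ht ht' => by
        refine hD t ⟨ht, by linarith⟩ _ (by linarith) (fun q hq hq1 hq2 hq3 => ?_)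
        exact hall q hq hq1 (by linarith) (by linarith))
    have e2 := const_mul_le_integral (c := x) hs1 (hInt s h0 hs0 le_rfl hs1)
      (fun t ht ht' => hGx t (by linarith) ht')
    have e3 : (∫ t in (0 : ℝ)..s, G t) + ∫ t in s..h0, G t = ∫ t in (0 : ℝ)..h0, G t :=
      intervalIntegral.integral_add_adjacent_intervals (hInt 0 s le_rfl hs1 hs0)
        (hInt s h0 hs0 le_rfl hs1)
    have := A1 hs0 hs1 h1 hxs (le_refl (x + 1 / 2))
    linarith
  · push Not at hall
    obtain ⟨q1, hq1Q, hq1a, hq1b, hq1c, hq1d⟩ := hall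
    obtain ⟨q', hq'S, hq'min⟩ := Finset.exists_min_image
      (Q.filter (fun q => 0 < q.1 ∧ -s < q.2 ∧ q.2 ≤ h0)) (fun q => q.1)
      ⟨q1, Finset.mem_filter.2 ⟨hq1Q, hq1a, hq1b, hq1c⟩⟩
    obtain ⟨hq'Q, hq'a, hq'b, hq'c⟩ := Finset.mem_filter.1 hq'S
    have hx'lt : q'.1 < x + 1 / 2 :=
      lt_of_le_of_lt (hq'min q1 (Finset.mem_filter.2 ⟨hq1Q, hq1a, hq1b, hq1c⟩)) hq1d
    have hmin' : ∀ q ∈ Q, 0 < q.1 → -s < q.2 → q.2 ≤ h0 → q'.1 ≤ q.1 :=
      fun q hq ha hb hc => hq'min q (Finset.mem_filter.2 ⟨hq, ha, hb, hc⟩)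
    have hxx : x ≤ q'.1 := hmin q' hq'Q hq'a (by linarith) hq'c
    obtain ⟨x', v⟩ := q'
    dsimp only at hq'a hq'b hq'c hx'lt hmin' hxx
    have hne : ((x', v) : Pt) ≠ (x, -s) := fun h => by
      have := congrArg Prod.snd h
      dsimp only at this
      linarith
    have hd := hsep _ hq'Q _ hqs hne
    dsimp only at hd
    have hd' : 1 ≤ (x' - x) ^ 2 + (s + v) ^ 2 := by nlinarith
    have hsv : h0 < s + v := by
      by_contra hcon
      push Not at hcon
      have a1 : (s + v) ^ 2 ≤ 3 / 4 := by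
        rw [← h0_sq]
        exact pow_le_pow_left₀ (by linarith) hcon 2
      have a2 : (x' - x) ^ 2 < 1 / 4 := by nlinarith
      linarith
    have hv0 : 0 ≤ v := by linarith
    have hv2 : 1 ≤ x' ^ 2 + v ^ 2 := hQ _ hq'Q
    have hden : 0 < s + v - h0 := by linarith
    have hm2 : (h0 - (h0 - s) * x - (h0 - v) * x') / (s + v - h0) ≤ 2 := by
      rw [div_le_iff₀ hden]
      have := A2 (Z := 2) (A := 0) (B := s + v) hs0 hs1 hv0 hq'c hsv.le h1 hxs hxx hv2 hd' le_rfl
        (by linarith) (by ring) (by linarith) (by nlinarith) (by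
          have a1 : (3 : ℝ) / 4 ≤ (s + v) ^ 2 := by
            rw [← h0_sq]
            exact pow_le_pow_left₀ hpos.le hsv.le 2
          nlinarith)
      linarith
    have hGm : ∀ t, h0 - v < t → t < s →
        (h0 - (h0 - s) * x - (h0 - v) * x') / (s + v - h0) ≤ G t := by
      intro t ht ht'
      refine hD t ⟨by linarith, by linarith⟩ _ hm2 (fun q hq hq1 hq2 hq3 => ?_)
      rw [div_le_iff₀ hden]
      have hqs' : ((q.1 : ℝ), q.2) ≠ ((x, -s) : Pt) := fun h => by
        have := congrArg Prod.snd h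
        dsimp only at this
        linarith
      have hqv' : ((q.1 : ℝ), q.2) ≠ ((x', v) : Pt) := fun h => by
        have := congrArg Prod.snd h
        dsimp only at this
        linarith
      have d1 := hsep q hq _ hqs hqs'
      have d2 := hsep q hq _ hq'Q hqv'
      dsimp only at d1 d2
      have := A2 (Z := q.1) (A := q.2 + s) (B := v - q.2) hs0 hs1 hv0 hq'c hsv.le h1 hxs hxx hv2
        hd' (by linarith) (by linarith) (by ring)
        (hmin' q hq hq1 (by linarith) (by linarith)) (by nlinarith) (by nlinarith)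
      linarith
    have i1 := hInt 0 (h0 - v) le_rfl (by linarith) (by linarith)
    have i2 := hInt (h0 - v) s (by linarith) hs1 (by linarith)
    have i3 := hInt s h0 hs0 le_rfl hs1
    have e1 := const_mul_le_integral (c := x') (by linarith : (0 : ℝ) ≤ h0 - v) i1
      (fun t ht ht' => by
        refine hD t ⟨ht, by linarith⟩ _ (by linarith) (fun q hq hq1 hq2 hq3 => ?_)
        exact hmin' q hq hq1 (by linarith) (by linarith))
    have e2 := const_mul_le_integral (by linarith : h0 - v ≤ s) i2 hGm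
    have e3 := const_mul_le_integral (c := x) hs1 i3 (fun t ht ht' => hGx t (by linarith) ht')
    have e4 : (∫ t in (0 : ℝ)..(h0 - v), G t) + ∫ t in (h0 - v)..s, G t =
        ∫ t in (0 : ℝ)..s, G t := intervalIntegral.integral_add_adjacent_intervals i1 i2
    have e5 : (∫ t in (0 : ℝ)..s, G t) + ∫ t in s..h0, G t = ∫ t in (0 : ℝ)..h0, G t :=
      intervalIntegral.integral_add_adjacent_intervals (i1.trans i2) i3
    have e6 : (s - (h0 - v)) * ((h0 - (h0 - s) * x - (h0 - v) * x') / (s + v - h0)) =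
        h0 - (h0 - s) * x - (h0 - v) * x' := by
      rw [show s - (h0 - v) = s + v - h0 by ring]
      field_simp
    rw [e6] at e2
    rw [← e5, ← e4]
    clear e4 e5 e6
    generalize (∫ t in (0 : ℝ)..(h0 - v), G t) = I1 at e1 ⊢
    generalize (∫ t in (h0 - v)..s, G t) = I2 at e2 ⊢
    generalize (∫ t in s..h0, G t) = I3 at e3 ⊢
    linarith only [e1, e2, e3]

theorem window_ineq (Q : Finset Pt) (hQ : ∀ q ∈ Q, 1 ≤ q.1 ^ 2 + q.2 ^ 2) (hsep : UnitSep Q)
    (G : ℝ → ℝ) (hG : IntervalIntegrable G volume 0 h0) (hD : Dom Q G) :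
    h0 ≤ ∫ t in (0 : ℝ)..h0, G t := by
  classical
  have hpos := h0_pos
  by_cases hne : (Q.filter (fun q => 0 < q.1 ∧ -h0 ≤ q.2 ∧ q.2 ≤ h0)).Nonempty
  · obtain ⟨qs, hqsS, hmin⟩ := Finset.exists_min_image _ (fun q : Pt => q.1) hne
    obtain ⟨hqsQ, ha, hb, hc⟩ := Finset.mem_filter.1 hqsS
    have hmin' : ∀ q ∈ Q, 0 < q.1 → -h0 ≤ q.2 → q.2 ≤ h0 → qs.1 ≤ q.1 :=
      fun q hq ha hb hc => hmin q (Finset.mem_filter.2 ⟨hq, ha, hb, hc⟩)
    rcases le_or_gt qs.2 0 with hlow | hhigh
    · exact window_ineq_low Q hQ hsep G hG hD qs hqsQ ha hb hlow hmin'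
    · -- reflect in the horizontal axis
      have hInt' : IntervalIntegrable (fun t => G (h0 - t)) volume 0 h0 := by
        have := hG.comp_sub_left h0
        simp only [sub_zero, sub_self] at this
        exact this.symm
      have hval : ∫ t in (0 : ℝ)..h0, G (h0 - t) = ∫ t in (0 : ℝ)..h0, G t := by
        rw [intervalIntegral.integral_comp_sub_left G h0]
        simp
      rw [← hval]
      refine window_ineq_low (Q.image (fun q => (q.1, -q.2))) ?_ ?_ (fun t => G (h0 - t)) hInt' ?_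
        (qs.1, -qs.2) (Finset.mem_image.2 ⟨qs, hqsQ, rfl⟩) ha (by dsimp only; linarith)
        (by dsimp only; linarith) ?_
      · intro q hq
        obtain ⟨r, hr, rfl⟩ := Finset.mem_image.1 hq
        have := hQ r hr
        dsimp only
        nlinarith
      · intro p hp q hq hpq
        obtain ⟨r, hr, rfl⟩ := Finset.mem_image.1 hp
        obtain ⟨r', hr', rfl⟩ := Finset.mem_image.1 hq
        have hrr : r ≠ r' := fun h => hpq (by rw [h])
        have := hsep r hr r' hr' hrr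
        dsimp only
        nlinarith
      · intro t ht m hm h
        refine hD (h0 - t) ⟨by linarith [ht.2], by linarith [ht.1]⟩ m hm
          (fun q hq hq1 hq2 hq3 => ?_)
        have := h (q.1, -q.2) (Finset.mem_image.2 ⟨q, hq, rfl⟩) hq1 (by dsimp only; linarith)
          (by dsimp only; linarith)
        exact this
      · intro q hq h1 h2 h3
        obtain ⟨r, hr, rfl⟩ := Finset.mem_image.1 hq
        dsimp only at h1 h2 h3 ⊢
        exact hmin' r hr h1 (by linarith) (by linarith)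
  · have key := const_mul_le_integral (c := 2) hpos.le hG (fun t ht ht' => by
      refine hD t ⟨ht, ht'⟩ 2 le_rfl (fun q hq hq1 hq2 hq3 => ?_)
      exact absurd ⟨q, Finset.mem_filter.2 ⟨hq, hq1, by linarith, by linarith⟩⟩ hne)
    linarith

/-- Relative points and the function `t ↦ xn X p (p.2 - t)`. -/
theorem dom_xn (X : Finset Pt) (p : Pt) :
    Dom (X.image (fun q => (q.1 - p.1, q.2 - p.2))) (fun t => xn X p (p.2 - t)) := by
  intro t _ m hm h
  refine le_xn.2 ⟨hm, fun q hq h1 h2 h3 => ?_⟩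
  exact h (q.1 - p.1, q.2 - p.2) (Finset.mem_image.2 ⟨q, hq, rfl⟩) (by dsimp only; linarith)
    (by dsimp only; linarith) (by dsimp only; linarith)

theorem dom_xn_erase (X : Finset Pt) (p : Pt) :
    Dom ((X.erase p).image (fun q => (q.1 - p.1, q.2 - p.2))) (fun t => xn X p (p.2 - t)) := by
  intro t _ m hm h
  refine le_xn.2 ⟨hm, fun q hq h1 h2 h3 => ?_⟩
  have hqp : q ≠ p := fun h => by rw [h] at h3; exact lt_irrefl _ h3
  exact h (q.1 - p.1, q.2 - p.2)
    (Finset.mem_image.2 ⟨q, Finset.mem_erase.2 ⟨hqp, hq⟩, rfl⟩) (by dsimp only; linarith)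
    (by dsimp only; linarith) (by dsimp only; linarith)

theorem slack_nonneg {X : Finset Pt} (hX : UnitSep X) {p : Pt} (hp : p ∈ X) :
    0 ≤ slack X p := by
  classical
  have hpos := h0_pos
  have hInt : IntervalIntegrable (fun t => xn X p (p.2 - t)) volume 0 h0 := by
    have := (xn_intervalIntegrable X p (p.2 - 0) (p.2 - h0)).comp_sub_left p.2
    simpa using this
  have hval : ∫ t in (0 : ℝ)..h0, xn X p (p.2 - t) = ∫ a in (p.2 - h0)..p.2, xn X p a := by
    rw [intervalIntegral.integral_comp_sub_left (fun a => xn X p a) p.2]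
    simp
  have key := window_ineq ((X.erase p).image (fun q => (q.1 - p.1, q.2 - p.2))) ?_ ?_ _ hInt
    (dom_xn_erase X p)
  · rw [hval] at key
    unfold slack
    have : (1 / h0) * h0 ≤ (1 / h0) * ∫ a in (p.2 - h0)..p.2, xn X p a :=
      mul_le_mul_of_nonneg_left key (by positivity)
    rw [one_div, inv_mul_cancel₀ hpos.ne'] at this
    rw [one_div]
    linarith
  · intro q hq
    obtain ⟨r, hr, rfl⟩ := Finset.mem_image.1 hq
    obtain ⟨hrp, hrX⟩ := Finset.mem_erase.1 hr
    exact hX r hrX p hp hrp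
  · intro q hq q' hq' hqq
    obtain ⟨r, hr, rfl⟩ := Finset.mem_image.1 hq
    obtain ⟨r', hr', rfl⟩ := Finset.mem_image.1 hq'
    have hrr : r ≠ r' := fun h => hqq (by rw [h])
    have := hX r (Finset.mem_erase.1 hr).2 r' (Finset.mem_erase.1 hr').2 hrr
    dsimp only
    nlinarith

end Pool.Agent.StripNear
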