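import Pool.Agent.StripNear.PointRealA
import Pool.Agent.StripNear.PointRealB

/-! # Real inequalities behind Groemer's pointwise inequality -/

namespace Pool.Agent.StripNear

theorem A2 {s v x x' A B Z : ℝ} (hs : 0 ≤ s) (hs1 : s ≤ h0) (hv : 0 ≤ v) (hv1 : v ≤ h0)
    (hsv : h0 ≤ s + v) (hx : 0 < x) (h1 : 1 ≤ x ^ 2 + s ^ 2) (hxx : x ≤ x')
    (h2 : 1 ≤ x' ^ 2 + v ^ 2) (h3 : 1 ≤ (x' - x) ^ 2 + (s + v) ^ 2) (hA : 0 ≤ A) (hB : 0 ≤ B)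
    (hAB : A + B = s + v) (hZ : x' ≤ Z)
    (h4 : 1 ≤ (Z - x) ^ 2 + A ^ 2) (h5 : 1 ≤ (Z - x') ^ 2 + B ^ 2) :
    h0 ≤ (h0 - s) * x + (h0 - v) * x' + (s + v - h0) * Z := by
  rcases le_or_gt h0 (s * Real.sqrt (1 - v ^ 2) + v * Real.sqrt (1 - s ^ 2)) with h | h
  · exact A2_big hs hs1 hv hv1 hsv hx h1 hxx h2 hA hB hAB hZ h4 h5 h
  · exact A2_small hs hs1 hv hv1 hsv hx h1 hxx h3 hA hB hAB hZ h4 h5 h

end Pool.Agent.StripNear
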