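import Pool.Agent.StripNear.Basic

/-! # Real inequalities behind Groemer's pointwise inequality, part A -/

namespace Pool.Agent.StripNear

theorem sqrt_le_of {x s : ℝ} (hx : 0 ≤ x) (h1 : 1 ≤ x ^ 2 + s ^ 2) :
    Real.sqrt (1 - s ^ 2) ≤ x := by
  apply Real.sqrt_le_iff.2 ⟨hx, by linarith⟩

theorem sqrt_anti {s v : ℝ} (hs : 0 ≤ s) (hv : s ≤ v) :
    Real.sqrt (1 - v ^ 2) ≤ Real.sqrt (1 - s ^ 2) := by
  apply Real.sqrt_le_sqrt
  nlinarith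

theorem A1 {s x x' : ℝ} (hs : 0 ≤ s) (hs1 : s ≤ h0) (hx : 0 < x) (h1 : 1 ≤ x ^ 2 + s ^ 2)
    (hx' : x + 1 / 2 ≤ x') : h0 ≤ (h0 - s) * x + s * x' := by
  have hh := h0_sq
  have hp := h0_pos
  have h2 : h0 - s / 2 ≤ h0 * x := by
    have : 0 ≤ h0 - s / 2 := by linarith
    apply abs_le_of_sq_le_sq' _ (by positivity) |>.2
    nlinarith [mul_nonneg hs (sub_nonneg.2 hs1)]
  nlinarith [mul_le_mul_of_nonneg_left hx' hs]

/-- The case of two seen points whose vertical distance exceeds `h0`, in the case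
`60 ≤ β + γ`, `s = sin β`, `v = sin γ`. -/
theorem A2_big {s v x x' A B Z : ℝ} (hs : 0 ≤ s) (hs1 : s ≤ h0) (hv : 0 ≤ v) (hv1 : v ≤ h0)
    (hsv : h0 ≤ s + v) (hx : 0 < x) (h1 : 1 ≤ x ^ 2 + s ^ 2) (hxx : x ≤ x')
    (h2 : 1 ≤ x' ^ 2 + v ^ 2) (hA : 0 ≤ A) (hB : 0 ≤ B) (hAB : A + B = s + v) (hZ : x' ≤ Z)
    (h4 : 1 ≤ (Z - x) ^ 2 + A ^ 2) (h5 : 1 ≤ (Z - x') ^ 2 + B ^ 2)
    (hbig : h0 ≤ s * Real.sqrt (1 - v ^ 2) + v * Real.sqrt (1 - s ^ 2)) :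
    h0 ≤ (h0 - s) * x + (h0 - v) * x' + (s + v - h0) * Z := by
  have c1 : Real.sqrt (1 - s ^ 2) ≤ x := sqrt_le_of hx.le h1
  have c2 : Real.sqrt (1 - v ^ 2) ≤ x' := sqrt_le_of (by linarith) h2
  rcases le_total v A with h | h
  · have hBs : B ≤ s := by linarith
    have c3 : Real.sqrt (1 - s ^ 2) ≤ Z - x' :=
      (sqrt_anti hB hBs).trans (sqrt_le_of (by linarith) h5)
    have e1 : (s + v - h0) * (x' + Real.sqrt (1 - s ^ 2)) ≤ (s + v - h0) * Z :=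
      mul_le_mul_of_nonneg_left (by linarith) (by linarith)
    have e2 : (h0 - s) * Real.sqrt (1 - s ^ 2) ≤ (h0 - s) * x :=
      mul_le_mul_of_nonneg_left c1 (by linarith)
    have e3 : s * Real.sqrt (1 - v ^ 2) ≤ s * x' := mul_le_mul_of_nonneg_left c2 hs
    nlinarith
  · have c3 : Real.sqrt (1 - v ^ 2) ≤ Z - x :=
      (sqrt_anti hA h).trans (sqrt_le_of (by linarith) h4)
    have e1 : (s + v - h0) * (x + Real.sqrt (1 - v ^ 2)) ≤ (s + v - h0) * Z :=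
      mul_le_mul_of_nonneg_left (by linarith) (by linarith)
    have e2 : v * Real.sqrt (1 - s ^ 2) ≤ v * x := mul_le_mul_of_nonneg_left c1 hv
    have e3 : (h0 - v) * Real.sqrt (1 - v ^ 2) ≤ (h0 - v) * x' :=
      mul_le_mul_of_nonneg_left c2 (by linarith)
    nlinarith

end Pool.Agent.StripNear
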