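import Pool.Agent.StripNear.Chord

/-! # Computation at the end of the run lemma -/

namespace Pool.Agent.StripNear

private theorem rc_cs_ge {δ : ℝ} (hδ : 0 < δ) (hδ1 : δ ≤ 1 / 100) : 1 / 2 ≤ cs δ := by
  have h := sl_ge hδ hδ1
  unfold sl at h
  rw [le_div_iff₀ hδ] at h
  linarith

/-- Pure computation at the end of the run lemma. -/
theorem run_calc (n : ℕ) {δ η : ℝ} (hδ : 0 < δ) (hδ1 : δ ≤ 1 / 100) (hη : 0 ≤ η) (K : ℕ)
    (c d : ℕ → ℝ) (hc : ∀ r ≤ n + 1, |c r - c 0 - r / 2| ≤ r * η)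
    (hd : ∀ r ≤ n + 1, |d r - d 0 - r / 2| ≤ r * η)
    (h : (K : ℝ) * (n + 2 * cs δ) - 200 * (n + 2) ^ 3 * η
      ≤ ∑ r ∈ Finset.range (n + 1), (d r - c r)) :
    (K : ℝ) * (n + 2) ≤ (n + 1) / (n + 2 * cs δ) * (∑ r ∈ Finset.range (n + 2), (d r - c r))
      + 500 * (n + 2) ^ 3 * η := by
  have hn : (0 : ℝ) ≤ n := Nat.cast_nonneg n
  have hcs := rc_cs_ge hδ hδ1
  obtain ⟨q, hq⟩ : ∃ q : ℝ, q = n + 2 * cs δ := ⟨_, rfl⟩
  have hq1 : (n : ℝ) + 1 ≤ q := by rw [hq]; linarith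
  have hq0 : 0 < q := by linarith
  obtain ⟨S1, hS1⟩ : ∃ S1, S1 = ∑ r ∈ Finset.range (n + 1), (d r - c r) := ⟨_, rfl⟩
  obtain ⟨D, hD⟩ : ∃ D, D = d (n + 1) - c (n + 1) := ⟨_, rfl⟩
  have hS2 : ∑ r ∈ Finset.range (n + 2), (d r - c r) = S1 + D := by
    rw [Finset.sum_range_succ, hS1, hD]
  have h1 : S1 ≤ (n + 1) * D + 4 * (n + 1) ^ 2 * η := by
    have h2 : S1 ≤ ∑ r ∈ Finset.range (n + 1), (D + 4 * (n + 1) * η) := by
      rw [hS1]
      refine Finset.sum_le_sum fun r hr => ?_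
      rw [Finset.mem_range] at hr
      have a1 := abs_le.1 (hc r (by omega))
      have a2 := abs_le.1 (hd r (by omega))
      have a3 := abs_le.1 (hc (n + 1) le_rfl)
      have a4 := abs_le.1 (hd (n + 1) le_rfl)
      have hrn : (r : ℝ) ≤ n + 1 := by exact_mod_cast hr.le
      have hrη : (r : ℝ) * η ≤ (n + 1) * η := mul_le_mul_of_nonneg_right hrn hη
      push_cast at a3 a4
      rw [hD]
      linarith [a1.1, a1.2, a2.1, a2.2, a3.1, a3.2, a4.1, a4.2]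
    rw [Finset.sum_const, Finset.card_range, nsmul_eq_mul] at h2
    push_cast at h2
    linarith
  rw [← hq, ← hS1] at h
  rw [← hq, hS2, div_mul_eq_mul_div, ← sub_le_iff_le_add, le_div_iff₀ hq0]
  have h3 : (K : ℝ) * q * (n + 2) ≤ (S1 + 200 * (n + 2) ^ 3 * η) * (n + 2) :=
    mul_le_mul_of_nonneg_right (by linarith) (by linarith)
  have h4 : (0 : ℝ) ≤ (n + 2) ^ 3 * η := by positivity
  have h5 : 500 * ((n : ℝ) + 2) ^ 3 * η * (n + 1) ≤ 500 * (n + 2) ^ 3 * η * q :=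
    mul_le_mul_of_nonneg_left hq1 (by positivity)
  have h6 : 4 * ((n : ℝ) + 1) ^ 2 * η + 200 * (n + 2) ^ 3 * η * (n + 2) ≤
      500 * (n + 2) ^ 3 * η * (n + 1) := by
    have h7 : 0 ≤ η * (500 * ((n : ℝ) + 2) ^ 3 * (n + 1) -
        (4 * (n + 1) ^ 2 + 200 * (n + 2) ^ 3 * (n + 2))) := by
      refine mul_nonneg hη ?_
      have h8 : 500 * ((n : ℝ) + 2) ^ 3 * (n + 1) -
        (4 * (n + 1) ^ 2 + 200 * (n + 2) ^ 3 * (n + 2)) =
          200 * (n + 2) ^ 3 * n + 100 * (n + 2) ^ 3 * (n + 1) - 4 * (n + 1) ^ 2 := by ring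
      rw [h8]
      have h9 : 100 * ((n : ℝ) + 2) ^ 3 * (n + 1) - 4 * (n + 1) ^ 2 =
        (n + 1) * (100 * n ^ 3 + 600 * n ^ 2 + 1196 * n + 796) := by ring
      have h10 : 0 ≤ ((n : ℝ) + 1) * (100 * n ^ 3 + 600 * n ^ 2 + 1196 * n + 796) := by positivity
      have h11 : 0 ≤ 200 * ((n : ℝ) + 2) ^ 3 * n := by positivity
      linarith
    linarith
  nlinarith

end Pool.Agent.StripNear
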