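import Pool.Agent.StripNear.ArrayExists
import Pool.Agent.StripNear.ArrayElastic
import Pool.Agent.StripNear.ArrayCount
import Pool.Agent.StripNear.RunCalc
import Pool.Agent.StripNear.Elastic

/-! # Elastic runs -/

namespace Pool.Agent.StripNear

variable {X : Finset Pt} {n : ℕ}

private theorem run_row_unique {r r' : ℕ} {t ρ η : ℝ} (h1 : |t - r * h0| ≤ ρ)
    (h2 : |t - r' * h0| ≤ η) (h : ρ + η < h0) : r = r' := by
  have hp := h0_pos
  have h3 : |((r : ℝ) - r') * h0| < h0 := by
    have e : ((r : ℝ) - r') * h0 = (t - r' * h0) - (t - r * h0) := by ring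
    rw [e]
    calc |(t - r' * h0) - (t - r * h0)| ≤ |t - r' * h0| + |t - r * h0| := abs_sub _ _
      _ < h0 := by linarith
  rw [abs_mul, abs_of_pos hp] at h3
  have h4 : |(r : ℝ) - r'| < 1 := by
    by_contra h5
    push Not at h5
    nlinarith
  have h6 : |((r : ℤ) - (r' : ℤ) : ℤ)| < 1 := by
    have : ((|((r : ℤ) - (r' : ℤ) : ℤ)| : ℤ) : ℝ) < 1 := by
      push_cast
      exact h4
    exact_mod_cast this
  have h7 : (r : ℤ) - (r' : ℤ) = 0 := Int.abs_lt_one_iff.1 h6
  omega

private theorem run_array_mono {ρ : ℝ} {N K : ℕ} {P : ℕ → ℕ → Pt} (hP : IsArray X n ρ N P)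
    (hK : K ≤ N) : IsArray X n ρ K P where
  mem r hr i hi := hP.mem r hr i (hi.trans hK)
  row r hr i hi := hP.row r hr i (hi.trans hK)
  east r hr i hi := hP.east r hr i (lt_of_lt_of_le hi hK)
  ne r hr i hi := hP.ne r hr i (hi.trans hK)

/-- Length of the array. -/
private theorem run_exists_K {ρ A B : ℝ} (hρ : 0 ≤ ρ) (hρ1 : ρ ≤ 1 / 100)
    (hnρ : ((n : ℝ) + 2) * ρ ≤ 1 / 100) (h : ℕ → ℝ)
    (hstep : ∀ i, (∀ j ≤ i, h j ≤ B) → |h (i + 1) - h i - 1| ≤ ρ) (h0 : h 0 ≤ A + 5)
    (hAB : A + n + 18 ≤ B) :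
    ∃ K : ℕ, A ≤ h K ∧ (∀ j ≤ n + 2, A + j * (1 - ρ) ≤ h (K + j) ∧
      h (K + j) ≤ A + 5 + j * (1 + ρ)) ∧ (∀ i, i < K + n + 2 → h i ≤ B) ∧
      (∀ i < K, h i < A) := by
  have hn : (0 : ℝ) ≤ n := Nat.cast_nonneg n
  have hex : ∃ i, A ≤ h i := by
    by_contra hno
    push Not at hno
    have h1 : ∀ i : ℕ, h 0 + i * (1 - ρ) ≤ h i := by
      intro i
      induction i with
      | zero => simp
      | succ i ih =>
        have h2 := hstep i (fun j _ => by
          have := hno j
          linarith)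
        have h3 := (abs_le.1 h2).1
        push_cast
        linarith
    obtain ⟨i, hi⟩ := exists_nat_gt ((A - h 0) / (1 - ρ))
    rw [div_lt_iff₀ (by linarith)] at hi
    have h4 := h1 i
    have h5 := hno i
    linarith
  classical
  set K := Nat.find hex with hK
  have hKspec : A ≤ h K := Nat.find_spec hex
  have hlt : ∀ i < K, h i < A := by
    intro i hi
    have := Nat.find_min hex hi
    push Not at this
    exact this
  have hK5 : h K ≤ A + 5 := by
    rcases Nat.eq_zero_or_pos K with h6 | h6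
    · rw [h6]
      exact h0
    · obtain ⟨k, hk⟩ : ∃ k, K = k + 1 := ⟨K - 1, by omega⟩
      have h7 := hstep k (fun j hj => by
        have := hlt j (by omega)
        linarith)
      have h8 := (abs_le.1 h7).2
      have h9 := hlt k (by omega)
      rw [hk]
      linarith
  have hmain : ∀ j ≤ n + 2, ∀ i ≤ j, A + i * (1 - ρ) ≤ h (K + i) ∧
      h (K + i) ≤ A + 5 + i * (1 + ρ) := by
    intro j
    induction j with
    | zero =>
      intro _ i hi
      have : i = 0 := by omega
      subst this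
      simp only [Nat.cast_zero, zero_mul, add_zero]
      exact ⟨hKspec, hK5⟩
    | succ j ih =>
      intro hj i hi
      have ih' := ih (by omega)
      rcases Nat.lt_or_ge i (j + 1) with h6 | h6
      · exact ih' i (by omega)
      · have h7 : i = j + 1 := by omega
        subst h7
        have h8 : ∀ j' ≤ K + j, h j' ≤ B := by
          intro j' hj'
          rcases Nat.lt_or_ge j' K with h9 | h9
          · have := hlt j' h9
            linarith
          · obtain ⟨t, rfl⟩ : ∃ t, j' = K + t := ⟨j' - K, by omega⟩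
            have h10 := (ih' t (by omega)).2
            have h11 : (t : ℝ) ≤ n + 1 := by
              have : t ≤ n + 1 := by omega
              exact_mod_cast this
            have h11' : (t : ℝ) * ρ ≤ ((n : ℝ) + 2) * ρ :=
              mul_le_mul_of_nonneg_right (by linarith) hρ
            linarith
        have h12 := hstep (K + j) h8
        have h13 := ih' j le_rfl
        have h14 := abs_le.1 h12
        have h15 : K + (j + 1) = K + j + 1 := by omega
        rw [h15]
        push_cast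
        constructor
        · linarith [h14.1, h13.1]
        · linarith [h14.2, h13.2]
  refine ⟨K, hKspec, fun j hj => hmain j hj j le_rfl, ?_, hlt⟩
  intro i hi
  rcases Nat.lt_or_ge i K with h9 | h9
  · have := hlt i h9
    linarith
  · obtain ⟨t, rfl⟩ : ∃ t, i = K + t := ⟨i - K, by omega⟩
    have h10 := (hmain t (by omega) t le_rfl).2
    have h11 : (t : ℝ) ≤ n + 1 := by
      have : t ≤ n + 1 := by omega
      exact_mod_cast this
    have h11' : (t : ℝ) * ρ ≤ ((n : ℝ) + 2) * ρ :=
      mul_le_mul_of_nonneg_right (by linarith) hρ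
    linarith

/-- The run lemma: between two almost perfect cells `a ≤ a'` with only good cells in between, a
chain at `a` can be moved to a chain at `a'`, and the number of points in between is at most
Molnar's bound. -/
theorem run (n : ℕ) {δ ρ η : ℝ} (hδ : 0 < δ) (hη : 0 < η) (hηρ : η ≤ ρ)
    (hsmall : 1000 * ((n : ℝ) + 2) ^ 3 * (4 * ρ + δ) ≤ 1) {X : Finset Pt} (hX : UnitSep X)
    (hH : InStrip (((n : ℝ) + 1) * h0 - δ) X) {a a' : ℤ} (haa : a ≤ a')
    (hG : ∀ j : ℤ, a ≤ j → j ≤ a' → Good X n ρ j) (hGa : Good X n η a) (hGa' : Good X n η a')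
    {c : ℕ → Pt} (hc : IsChain X n η a c) :
    ∃ d : ℕ → Pt, IsChain X n η a' d ∧ (∀ r ≤ n + 1, (c r).1 ≤ (d r).1) ∧
      ((btw X (fun r => (c r).1) (fun r => (d r).1)).card : ℝ)
        ≤ (n + 1) / (n + 2 * cs δ) * (∑ r ∈ Finset.range (n + 2), ((d r).1 - (c r).1))
          + 500 * (n + 2) ^ 3 * η := by
  have hn : (0 : ℝ) ≤ n := Nat.cast_nonneg n
  have hρ : 0 < ρ := hη.trans_le hηρ
  have hcube : (8 : ℝ) ≤ ((n : ℝ) + 2) ^ 3 := by
    have : (2 : ℝ) ^ 3 ≤ ((n : ℝ) + 2) ^ 3 := pow_le_pow_left₀ (by norm_num) (by linarith) 3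
    linarith
  have hsm : 8000 * (4 * ρ + δ) ≤ 1 := by nlinarith
  have hρ1 : ρ ≤ 1 / 100 := by linarith
  have hδ1 : δ ≤ 1 / 100 := by linarith
  have hη1 : η ≤ 1 / 100 := by linarith
  have hnρ : ((n : ℝ) + 2) * ρ ≤ 1 / 100 := by
    have h1 : ((n : ℝ) + 2) ≤ ((n : ℝ) + 2) ^ 3 := by nlinarith [sq_nonneg ((n : ℝ) + 2)]
    nlinarith
  have haaR : (a : ℝ) ≤ a' := by exact_mod_cast haa
  have hh0 := h0_gt
  have hLat := lat_of_good haa hG
  have hcρ : IsChain X n ρ a c := by
    refine ⟨hc.1, hc.2.1, hc.2.2.1.trans hηρ, fun r hr => ?_⟩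
    have := hc.2.2.2 r hr
    exact ⟨this.1.trans hηρ, this.2.trans hηρ⟩
  have hc0 := abs_le.1 hc.2.1
  obtain ⟨P, hP0, hPA⟩ := array_exists hX hρ.le hρ1 hLat hcρ (by linarith [hc0.1])
    (by linarith [hc0.2])
  -- the number of columns
  obtain ⟨K, hK1, hK2, hK3, hK4⟩ := run_exists_K (n := n) (A := (a' : ℝ))
    (B := (a' : ℝ) + (2 * n + 20) - (n + 2)) hρ.le hρ1 hnρ (fun i => (P 0 i).1)
    (fun i hi => by
      have h1 : IsArray X n ρ (i + 1) P := hPA (i + 1) (fun j hj => hi j (by omega))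
      exact (h1.east 0 (by omega) i (by omega)).1)
    (by
      have e : P 0 0 = c 0 := hP0 0 (by omega)
      show (P 0 0).1 ≤ (a' : ℝ) + 5
      rw [e]
      linarith [hc0.2])
    (by linarith)
  have hArr : IsArray X n ρ (K + n + 2) P := hPA (K + n + 2) hK3
  have hArrK : IsArray X n ρ K P := run_array_mono hArr (by omega)
  -- positions of the last columns
  have hpos : ∀ i, K ≤ i → i ≤ K + n + 2 → ∀ r ≤ n + 1, |(P r i).1 - a'| ≤ 2 * n + 20 := by
    intro i hi1 hi2 r hr
    obtain ⟨t, rfl⟩ : ∃ t, i = K + t := ⟨i - K, by omega⟩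
    have h1 := hK2 t (by omega)
    have h2 := abs_le.1 (array_col hArr hr hi2)
    have hrR : (r : ℝ) ≤ n + 1 := by exact_mod_cast hr
    have htR : (t : ℝ) ≤ n + 2 := by
      have : t ≤ n + 2 := by omega
      exact_mod_cast this
    have hr0 : (0 : ℝ) ≤ r := Nat.cast_nonneg r
    have ht0 : (0 : ℝ) ≤ t := Nat.cast_nonneg t
    have hrρ : (r : ℝ) * ρ ≤ 1 / 100 := by nlinarith
    have htρ : (t : ℝ) * ρ ≤ 1 / 100 := by nlinarith
    rw [abs_le]
    constructor
    · nlinarith [h1.1, h2.1]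
    · nlinarith [h1.2, h2.2]
  have hrow : ∀ i, K ≤ i → i ≤ K + n + 2 → ∀ r ≤ n + 1, |(P r i).2 - r * h0| ≤ η ∧
      (∃ q ∈ X, Near η (P r i) 1 0 q) ∧
      (r ≤ n → ∃ q ∈ X, Near η (P r i) (1 / 2) h0 q) ∧
      (1 ≤ r → ∃ q ∈ X, Near η (P r i) (1 / 2) (-h0) q) := by
    intro i hi1 hi2 r hr
    obtain ⟨r', hr', h1, h2⟩ := hGa'.1 (P r i) (hArr.mem r hr i hi2) (hpos i hi1 hi2 r hr)
    have h3 : r = r' := run_row_unique (hArr.row r hr i hi2) h1 (by linarith)
    subst h3
    exact ⟨h1, h2⟩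
  have hNE : ∀ i, K ≤ i → i ≤ K + n + 2 → ∀ r ≤ n, Near η (P r i) (1 / 2) h0 (P (r + 1) i) := by
    intro i hi1 hi2 r hr
    obtain ⟨q, hq, hq'⟩ := (hrow i hi1 hi2 r (by omega)).2.2.1 hr
    have h1 := hArr.ne r hr i hi2
    have h2 : q = P (r + 1) i :=
      near_unique hX hq (hArr.mem (r + 1) (by omega) i hi2) hq' h1 (by linarith)
    rw [← h2]
    exact hq'
  have hSE : ∀ i, K ≤ i → i < K + n + 2 → ∀ r ≤ n,
      Near η (P (r + 1) i) (1 / 2) (-h0) (P r (i + 1)) := by
    intro i hi1 hi2 r hr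
    obtain ⟨q, hq, hq'⟩ := (hrow i hi1 hi2.le (r + 1) (by omega)).2.2.2 (by omega)
    have h1 := hArr.ne r hr i hi2.le
    have h3 := hArr.east r (by omega) i hi2
    have h4 : Near (2 * ρ) (P (r + 1) i) (1 / 2) (-h0) (P r (i + 1)) := by
      have a1 := abs_le.1 h1.1
      have a2 := abs_le.1 h1.2
      have a3 := abs_le.1 h3.1
      have a4 := abs_le.1 h3.2
      constructor
      · rw [abs_le]
        constructor <;> linarith [a1.1, a1.2, a3.1, a3.2]
      · rw [abs_le]
        constructor <;> linarith [a2.1, a2.2, a4.1, a4.2]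
    have h2 : q = P r (i + 1) :=
      near_unique hX hq (hArr.mem r (by omega) (i + 1) (by omega)) hq' h4 (by linarith)
    rw [← h2]
    exact hq'
  -- elastic lemma
  have hEl := elData_of_array hX hρ.le hρ1 hH hArr
  have hel := elastic n (δ := δ) (ρ := 2 * ρ) (η := 2 * η) hδ (by linarith) (by linarith)
    (by
      have e : 2 * (2 * ρ) + δ = 4 * ρ + δ := by ring
      rw [e]
      exact hsmall) K (fun r i => (P r i).1) (fun r i => (P r i).2) hEl
    (fun r hr => by
      have h1 := chain_row hη.le hη1 hGa hc hr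
      show |(P r 0).2 - r * h0| ≤ 2 * η
      rw [hP0 r hr]
      linarith)
    (fun i hi1 hi2 r hr => by
      have h1 := (hrow i hi1 hi2 r hr).1
      show |(P r i).2 - r * h0| ≤ 2 * η
      linarith)
    (fun i hi1 hi2 r hr => by
      have h1 := (hNE i hi1 hi2 r hr).1
      show |(P (r + 1) i).1 - (P r i).1 - 1 / 2| ≤ 2 * η
      linarith)
    (fun i hi1 hi2 r hr => by
      have h1 := (hSE i hi1 hi2 r hr).1
      show |(P r (i + 1)).1 - (P (r + 1) i).1 - 1 / 2| ≤ 2 * η
      linarith)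
  have hK20 := hK2 0 (by omega)
  simp only [Nat.cast_zero, zero_mul, add_zero] at hK20
  have hd : IsChain X n η a' (fun r => P r K) := by
    refine ⟨fun r hr => hArrK.mem r hr K le_rfl, ?_, ?_, fun r hr => hNE K le_rfl (by omega) r hr⟩
    · rw [abs_le]
      constructor
      · linarith [hK20.1]
      · linarith [hK20.2]
    · have h1 := (hrow K le_rfl (by omega) 0 (by omega)).1
      simpa using h1
  have hbtw : btw X (fun r => (c r).1) (fun r => (P r K).1) =
      btw X (fun r => (P r 0).1) (fun r => (P r K).1) := by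
    unfold btw
    refine Finset.filter_congr ?_
    intro p hp
    have h1 : band p ≤ n + 1 := band_le (hH p hp).1 (by linarith [(hH p hp).2])
    show (c (band p)).1 ≤ p.1 ∧ p.1 < (P (band p) K).1 ↔
      (P (band p) 0).1 ≤ p.1 ∧ p.1 < (P (band p) K).1
    rw [hP0 (band p) h1]
  refine ⟨fun r => P r K, hd, ?_, ?_⟩
  · intro r hr
    have h1 : ∀ i ≤ K, (P r 0).1 ≤ (P r i).1 := by
      intro i
      induction i with
      | zero => intro _; exact le_rfl
      | succ i ih =>
        intro hi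
        have h2 := ih (by omega)
        have h3 := (abs_le.1 (hArrK.east r hr i (by omega)).1).1
        linarith
    have h2 := h1 K le_rfl
    rw [hP0 r hr] at h2
    exact h2
  · have hcard := count_array hX hρ.le hρ1 hδ hH hLat hArrK
      (fun r hr => by
        have h1 := abs_le.1 (array_col hArrK hr (Nat.zero_le K))
        have hrR : (r : ℝ) ≤ n + 1 := by exact_mod_cast hr
        have hr0 : (0 : ℝ) ≤ r := Nat.cast_nonneg r
        have hrρ : (r : ℝ) * ρ ≤ 1 / 100 := by nlinarith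
        have h2 : (P 0 0).1 = (c 0).1 := by rw [hP0 0 (by omega)]
        linarith [h1.1, hc0.1])
      (fun r hr => by
        have h1 := abs_le.1 (hpos K le_rfl (by omega) r hr)
        linarith [h1.2])
    have hcalc := run_calc n hδ hδ1 hη.le K (fun r => (c r).1) (fun r => (P r K).1)
      (fun r hr => chain_pos hη.le hc hr) (fun r hr => chain_pos hη.le hd hr)
      (by
        have e : ∑ r ∈ Finset.range (n + 1), ((P r K).1 - (P r 0).1) =
            ∑ r ∈ Finset.range (n + 1), ((P r K).1 - (c r).1) := by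
          refine Finset.sum_congr rfl ?_
          intro r hr
          have h1 := Finset.mem_range.1 hr
          rw [hP0 r (by omega)]
        have h2 : (K : ℝ) * (n + 2 * cs δ) - 100 * (n + 2) ^ 3 * (2 * η) ≤
            ∑ r ∈ Finset.range (n + 1), ((P r K).1 - (P r 0).1) := hel
        rw [e] at h2
        show (K : ℝ) * (n + 2 * cs δ) - 200 * (n + 2) ^ 3 * η ≤
            ∑ r ∈ Finset.range (n + 1), ((P r K).1 - (c r).1)
        linarith)
    have hcard' : ((btw X (fun r => (P r 0).1) (fun r => (P r K).1)).card : ℝ) ≤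
        (K : ℝ) * (n + 2) := by
      have : ((btw X (fun r => (P r 0).1) (fun r => (P r K).1)).card : ℝ) ≤
          ((K * (n + 2) : ℕ) : ℝ) := by exact_mod_cast hcard
      push_cast at this
      exact this
    show ((btw X (fun r => (c r).1) (fun r => (P r K).1)).card : ℝ) ≤ _
    rw [hbtw]
    exact hcard'.trans hcalc

end Pool.Agent.StripNear
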