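import Pool.Agent.StripNear.Defect
import Pool.Agent.StripNear.Parts
import Pool.Agent.StripNear.Run

/-! # Main induction -/

namespace Pool.Agent.StripNear

variable {X : Finset Pt} {n : ℕ}

theorem rc_strip_mono {δ : ℝ} (hδ : 0 < δ) (h : InStrip (((n : ℝ) + 1) * h0 - δ) X) :
    InStrip (((n : ℝ) + 1) * h0) X := by
  intro p hp
  have := h p hp
  exact ⟨this.1, by linarith⟩

theorem rc_small {δ ρ η ε1 ε2 : ℝ} (P : Par n δ ρ η ε1 ε2) : η ≤ 1 / 100 ∧ ρ ≤ 1 / 100 := by
  have h1 := P.hρ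
  have h2 := P.hδ
  have h3 := P.hη
  have h4 := P.hηρ
  have h5 : (8 : ℝ) ≤ ((n : ℝ) + 2) ^ 3 := by
    have h6 : (2 : ℝ) ≤ (n : ℝ) + 2 := by
      have := Nat.cast_nonneg (α := ℝ) n
      linarith
    calc (8 : ℝ) = 2 ^ 3 := by norm_num
      _ ≤ ((n : ℝ) + 2) ^ 3 := pow_le_pow_left₀ (by norm_num) h6 3
  have h7 : 0 < 4 * ρ + δ := by linarith
  have h8 : 8 * (4 * ρ + δ) ≤ ((n : ℝ) + 2) ^ 3 * (4 * ρ + δ) :=
    mul_le_mul_of_nonneg_right h5 h7.le
  constructor <;> nlinarith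

/-- A cell with small loss is not far away. -/
theorem rc_near (hX : UnitSep X) {L : ℝ} (hL : ∀ p ∈ X, 0 ≤ p.1 ∧ p.1 ≤ L) {j : ℤ}
    (hj : Tw X n j ≤ 1) : -(win n : ℤ) < j ∧ j < ⌈L⌉ + 2 + (win n : ℤ) := by
  have h : ¬ ((j : ℝ) ≤ -win n ∨ L + 2 + win n ≤ j) := by
    intro h
    have := far_cells hX hL h
    linarith
  rw [not_or, not_le, not_le] at h
  constructor
  · have h1 : ((-(win n : ℤ) : ℤ) : ℝ) < (j : ℝ) := by
      push_cast
      exact h.1
    exact_mod_cast h1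
  · have h1 : (j : ℝ) < ((⌈L⌉ + 2 + (win n : ℤ) : ℤ) : ℝ) := by
      push_cast
      have := Int.le_ceil L
      linarith [h.2]
    exact_mod_cast h1

theorem rc_rgt_le (X : Finset Pt) (c d : ℕ → ℝ) :
    ((rgt X c).card : ℝ) ≤ ((btw X c d).card : ℝ) + ((rgt X d).card : ℝ) := by
  classical
  have h : rgt X c ⊆ btw X c d ∪ rgt X d := by
    intro p hp
    unfold rgt at hp
    rw [Finset.mem_filter] at hp
    rw [Finset.mem_union]
    unfold btw rgt
    rw [Finset.mem_filter, Finset.mem_filter]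
    rcases lt_or_ge p.1 (d (band p)) with h | h
    · exact Or.inl ⟨hp.1, hp.2, h⟩
    · exact Or.inr ⟨hp.1, h⟩
  have h1 := (Finset.card_le_card h).trans (Finset.card_union_le _ _)
  exact_mod_cast h1

theorem rc_sum (n : ℕ) (f g : ℕ → ℝ) (M : ℝ) :
    (∑ r ∈ Finset.range (n + 2), (g r - f r)) + (∑ r ∈ Finset.range (n + 2), (M - g r))
      = ∑ r ∈ Finset.range (n + 2), (M - f r) := by
  rw [← Finset.sum_add_distrib]
  exact Finset.sum_congr rfl fun r _ => by ring

/-- Main induction, from the right to the left. -/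
theorem right_count (n : ℕ) {δ ρ η ε1 ε2 : ℝ} (P : Par n δ ρ η ε1 ε2) : ∃ C : ℝ, 0 ≤ C ∧
    ∀ X : Finset Pt, UnitSep X → InStrip (((n : ℝ) + 1) * h0 - δ) X → ∀ L : ℝ, 0 ≤ L →
    (∀ p ∈ X, 0 ≤ p.1 ∧ p.1 ≤ L) → ∀ a : ℤ, Tw X n a ≤ ε2 →
    ∀ c : ℕ → Pt, IsChain X n η a c →
    ((rgt X (fun r => (c r).1)).card : ℝ)
      ≤ mf n δ * (∑ r ∈ Finset.range (n + 2), (L + 2 - (c r).1)) + C := by
  obtain ⟨C0, hC0, hlast⟩ := last_part n P
  have hηpos := P.hη
  have hKpos : 0 ≤ 500 * ((n : ℝ) + 2) ^ 3 * η := by positivity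
  refine ⟨C0 + 500 * ((n : ℝ) + 2) ^ 3 * η, by linarith, ?_⟩
  intro X hX hH L hL0 hL
  obtain ⟨hη1, hρ1⟩ := rc_small P
  have hH' := rc_strip_mono P.hδ hH
  have hε2 := P.hε2
  have hε := P.hε
  have hε1 := P.hε1
  suffices main : ∀ N : ℕ, ∀ a : ℤ, (⌈L⌉ + (win n : ℤ) + 5 - a).toNat = N → Tw X n a ≤ ε2 →
      ∀ c : ℕ → Pt, IsChain X n η a c →
      ((rgt X (fun r => (c r).1)).card : ℝ)
        ≤ mf n δ * (∑ r ∈ Finset.range (n + 2), (L + 2 - (c r).1))
          + (C0 + 500 * ((n : ℝ) + 2) ^ 3 * η) by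
    intro a ha c hc
    exact main _ a rfl ha c hc
  intro N
  induction N using Nat.strong_induction_on with
  | _ N ih =>
    intro a hN ha c hc
    have hnear := rc_near hX hL (j := a) (by linarith : Tw X n a ≤ 1)
    -- the first bad cell after `a`
    obtain ⟨b, ⟨hab, hbad⟩, hbmin⟩ := Int.exists_least_of_bdd
      (P := fun b : ℤ => a < b ∧ ε1 < Tw X n b) ⟨a, fun z hz => hz.1.le⟩
      ⟨⌈L⌉ + 2 + (win n : ℤ), hnear.2, by
        have h1 : 1 < Tw X n (⌈L⌉ + 2 + (win n : ℤ)) := by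
          apply far_cells hX hL
          right
          push_cast
          have := Int.le_ceil L
          linarith
        linarith⟩
    -- the last almost perfect cell before `b`
    obtain ⟨a', ⟨haa', ha'b, hTa'⟩, ha'max⟩ := Int.exists_greatest_of_bdd
      (P := fun z : ℤ => a ≤ z ∧ z < b ∧ Tw X n z ≤ ε2) ⟨b, fun z hz => hz.2.1.le⟩
      ⟨a, le_rfl, hab, ha⟩
    have hgood1 : ∀ j : ℤ, a ≤ j → j ≤ a' → Good X n ρ j := by
      intro j hj1 hj2
      apply P.good1 X hX hH'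
      show Tw X n j ≤ ε1
      rcases eq_or_lt_of_le hj1 with h | h
      · rw [← h]
        linarith
      · by_contra hcon
        have := hbmin j ⟨h, lt_of_not_ge hcon⟩
        omega
    have hgood2 : ∀ j : ℤ, Tw X n j ≤ ε2 → Good X n η j := fun j hj =>
      P.good2 X hX hH' j hj
    obtain ⟨d, hd, hcd, hcard⟩ := run n P.hδ P.hη P.hηρ P.hρ hX hH haa' hgood1
      (hgood2 a ha) (hgood2 a' hTa') hc
    have hcard' : ((btw X (fun r => (c r).1) (fun r => (d r).1)).card : ℝ)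
        ≤ mf n δ * (∑ r ∈ Finset.range (n + 2), ((d r).1 - (c r).1))
          + 500 * (n + 2) ^ 3 * η := hcard
    have hsplit := rc_rgt_le X (fun r => (c r).1) (fun r => (d r).1)
    have hsum := rc_sum n (fun r => (c r).1) (fun r => (d r).1) (L + 2)
    by_cases hex : ∃ b' : ℤ, b < b' ∧ Tw X n b' ≤ ε2
    · obtain ⟨b', ⟨hbb', hTb'⟩, hb'min⟩ := Int.exists_least_of_bdd
        (P := fun z : ℤ => b < z ∧ Tw X n z ≤ ε2) ⟨b, fun z hz => hz.1.le⟩ hex
      obtain ⟨e, he⟩ := exists_chain hX P.hη.le hη1 (hgood2 b' hTb')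
      have hnon : ∀ j : ℤ, a' < j → j < b' → ε2 < Tw X n j := by
        intro j hj1 hj2
        by_contra hcon
        rw [not_lt] at hcon
        rcases lt_trichotomy j b with h | h | h
        · have := ha'max j ⟨by omega, h, hcon⟩
          omega
        · rw [h] at hcon
          linarith
        · have := hb'min j ⟨h, hcon⟩
          omega
      obtain ⟨hde, hcard2⟩ := defect P hX hH ha'b hbb' hbad hTa' hTb' hnon hd he
      have hrec := ih (⌈L⌉ + (win n : ℤ) + 5 - b').toNat (by omega) b' rfl hTb' e he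
      have hsplit2 := rc_rgt_le X (fun r => (d r).1) (fun r => (e r).1)
      have hsum2 := rc_sum n (fun r => (d r).1) (fun r => (e r).1) (L + 2)
      rw [← hsum, mul_add]
      rw [← hsum2, mul_add]
      linarith
    · have hlast' := hlast X hX hH L hL0 hL a' hTa' (by
        intro j hj
        by_contra hcon
        rw [not_lt] at hcon
        rcases lt_trichotomy j b with h | h | h
        · have := ha'max j ⟨by omega, h, hcon⟩
          omega
        · rw [h] at hcon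
          linarith
        · exact hex ⟨j, h, hcon⟩) d hd
      rw [← hsum, mul_add]
      linarith

end Pool.Agent.StripNear
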