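import Pool.Agent.StripNear.PointIneq

/-! # Facts on the local loss `T` of a unit separated set -/

namespace Pool.Agent.StripNear

open MeasureTheory

variable {X : Finset Pt} {n : ℕ}

theorem T_nonneg (hX : UnitSep X) (n : ℕ) (α β : ℝ) : 0 ≤ T X n α β := by
  classical
  unfold T
  refine add_nonneg (Finset.sum_nonneg fun p hp => ?_) (unc_nonneg X n α β)
  rw [Finset.mem_filter] at hp
  exact slack_nonneg hX hp.1

private theorem T_self (X : Finset Pt) (n : ℕ) (α : ℝ) : T X n α α = 0 := by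
  have := T_add X n (le_refl α) (le_refl α)
  linarith

private theorem T_rev (X : Finset Pt) (n : ℕ) {α β : ℝ} (h : β ≤ α) : T X n α β = 0 := by
  classical
  unfold T
  have h1 : X.filter (fun p => α ≤ p.1 ∧ p.1 < β) = ∅ := by
    apply Finset.filter_false_of_mem
    intro p _ hp
    linarith [hp.1, hp.2]
  have h2 : ∀ a, ulen X a α β = 0 := by
    intro a
    unfold ulen
    rw [Set.Ico_eq_empty (by linarith : ¬ α < β)]
    simp
  have h3 : unc X n α β = 0 := by
    unfold unc
    simp [h2]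
  rw [h3, add_zero]
  convert Finset.sum_empty

theorem T_mono (hX : UnitSep X) {α β α' β' : ℝ} (h1 : α' ≤ α) (h2 : β ≤ β') :
    T X n α β ≤ T X n α' β' := by
  rcases le_total α β with h | h
  · have e1 := T_add X n h1 (h.trans h2)
    have e2 := T_add X n h h2
    have e3 := T_nonneg hX n α' α
    have e4 := T_nonneg hX n β β'
    linarith
  · rw [T_rev X n h]
    exact T_nonneg hX n α' β'

theorem slack_le_T (hX : UnitSep X) {α β : ℝ} {p : Pt} (hp : p ∈ X) (h1 : α ≤ p.1)
    (h2 : p.1 < β) : slack X p ≤ T X n α β := by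
  classical
  unfold T
  have h3 : p ∈ X.filter (fun p => α ≤ p.1 ∧ p.1 < β) := by
    rw [Finset.mem_filter]
    exact ⟨hp, h1, h2⟩
  have h4 := Finset.single_le_sum (f := fun p => slack X p)
    (s := X.filter (fun p => α ≤ p.1 ∧ p.1 < β)) (fun q hq => slack_nonneg hX
      (Finset.mem_filter.1 hq).1) h3
  have h5 := unc_nonneg X n α β
  have h6 : slack X p ≤ ∑ p ∈ X.filter (fun p => α ≤ p.1 ∧ p.1 < β), slack X p := h4
  refine h6.trans ?_
  convert le_add_of_nonneg_right h5

theorem unc_le_T (hX : UnitSep X) (α β : ℝ) : unc X n α β ≤ T X n α β := by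
  classical
  unfold T
  refine le_add_of_nonneg_left (Finset.sum_nonneg fun p hp => ?_)
  rw [Finset.mem_filter] at hp
  exact slack_nonneg hX hp.1

private theorem T_range (X : Finset Pt) (n : ℕ) (a : ℝ) (m : ℕ) :
    ∑ i ∈ Finset.range m, T X n (a + i) (a + i + 1) = T X n a (a + m) := by
  induction m with
  | zero => simp [T_self]
  | succ m ih =>
    rw [Finset.sum_range_succ, ih]
    push_cast
    rw [← add_assoc]
    exact (T_add X n (by linarith [(Nat.cast_nonneg m : (0 : ℝ) ≤ m)]) (by linarith)).symm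

/-- Sum over the windows `[j - W, j + W)` with centres `j1, ..., j1 + m - 1`. -/
theorem T_windows (hX : UnitSep X) (j1 : ℤ) (m W : ℕ) :
    ∑ i ∈ Finset.range m, T X n ((j1 + i : ℝ) - W) ((j1 + i : ℝ) + W)
      ≤ 2 * W * T X n ((j1 : ℝ) - W) ((j1 : ℝ) + m + W) := by
  have h1 : ∀ i : ℕ, T X n ((j1 + i : ℝ) - W) ((j1 + i : ℝ) + W) =
      ∑ k ∈ Finset.range (2 * W), T X n ((j1 : ℝ) - W + k + i) ((j1 : ℝ) - W + k + i + 1) := by
    intro i
    have h2 := T_range X n ((j1 + i : ℝ) - W) (2 * W)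
    have e1 : (j1 + i : ℝ) - W + ((2 * W : ℕ) : ℝ) = (j1 + i : ℝ) + W := by
      push_cast
      ring
    rw [e1] at h2
    rw [← h2]
    refine Finset.sum_congr rfl fun k _ => ?_
    congr 1 <;> ring
  rw [Finset.sum_congr rfl fun i _ => h1 i, Finset.sum_comm]
  have h2 : ∀ k ∈ Finset.range (2 * W),
      ∑ i ∈ Finset.range m, T X n ((j1 : ℝ) - W + k + i) ((j1 : ℝ) - W + k + i + 1) ≤
        T X n ((j1 : ℝ) - W) ((j1 : ℝ) + m + W) := by
    intro k hk
    rw [Finset.mem_range] at hk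
    have hk' : (k : ℝ) ≤ 2 * W := by exact_mod_cast hk.le
    rw [T_range X n ((j1 : ℝ) - W + k) m]
    exact T_mono hX (by linarith [(Nat.cast_nonneg k : (0 : ℝ) ≤ k)]) (by linarith)
  refine (Finset.sum_le_sum h2).trans (le_of_eq ?_)
  rw [Finset.sum_const, Finset.card_range, nsmul_eq_mul]
  push_cast
  ring

private theorem ulen_ge_one {X : Finset Pt} {a α β u : ℝ} (h1 : α + 1 ≤ u) (h2 : u ≤ β)
    (h : ∀ u' ∈ Set.Ico (u - 1) u, u' ∈ U X a) : 1 ≤ ulen X a α β := by
  have e1 := ulen_add X a (by linarith : α ≤ u - 1) (by linarith : u - 1 ≤ β)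
  have e2 := ulen_add X a (by linarith : u - 1 ≤ u) h2
  have e3 := ulen_nonneg X a α (u - 1)
  have e4 := ulen_nonneg X a u β
  have e5 : ulen X a (u - 1) u = 1 := by
    unfold ulen
    have : U X a ∩ Set.Ico (u - 1) u = Set.Ico (u - 1) u :=
      Set.inter_eq_right.2 fun x hx => h x hx
    rw [this, Real.volume_Ico]
    have : u - (u - 1) = 1 := by ring
    rw [this]
    simp
  linarith

/-- Seeds: if the loss of `[α, β)` is small then just above height `(j - 1) h0 + κ` the slab is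
populated. -/
theorem seed (hX : UnitSep X) {α β ε κ θ : ℝ} (hT : T X n α β ≤ ε) (hθ : h0 * ε < θ)
    (hκ : 0 ≤ κ) (hκθ : κ + θ < h0) {j : ℕ} (hj : j ≤ n + 1) {u : ℝ} (h1 : α + 1 ≤ u)
    (h2 : u ≤ β) :
    ∃ p ∈ X, u - 3 < p.1 ∧ p.1 ≤ u ∧ ((j : ℝ) - 1) * h0 + κ < p.2 ∧ p.2 < j * h0 + κ + θ := by
  have hh := h0_pos
  have hε : 0 ≤ ε := (T_nonneg hX n α β).trans hT
  have hθ0 : 0 < θ := lt_of_le_of_lt (by positivity) hθ
  by_contra hcon
  push Not at hcon
  set c : ℝ := ((j : ℝ) - 1) * h0 + κ with hc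
  have hulen : ∀ a ∈ Set.Ioo c (c + θ), (1 : ℝ) ≤ ulen X a α β := by
    intro a ha
    refine ulen_ge_one h1 h2 fun u' hu' => ?_
    intro q hq hq1 hq2 hq3
    have e1 : u - 3 < q.1 := by linarith [hu'.1, hq3.2]
    have e2 : q.1 ≤ u := by linarith [hu'.2, hq3.1]
    have e3 : c < q.2 := by linarith [ha.1]
    have e4 := hcon q hq e1 e2 e3
    have e5 : q.2 < c + θ + h0 := by linarith [ha.2]
    have e6 : c + θ + h0 = j * h0 + κ + θ := by
      rw [hc]
      ring
    linarith
  have hj0 : (0 : ℝ) ≤ j := Nat.cast_nonneg j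
  have hj1 : (j : ℝ) ≤ n + 1 := by exact_mod_cast hj
  have hc1 : -h0 ≤ c := by
    rw [hc]
    nlinarith
  have hc2 : c + θ ≤ (n + 1) * h0 := by
    rw [hc]
    nlinarith
  have hI1 : ∫ a in c..(c + θ), ulen X a α β ≤ ∫ a in (-h0)..((n + 1) * h0), ulen X a α β := by
    refine intervalIntegral.integral_mono_interval hc1 (by linarith) hc2 ?_
      (ulen_intervalIntegrable X α β _ _)
    exact Filter.Eventually.of_forall fun a => ulen_nonneg X a α β
  have hI2 : ∫ _ in c..(c + θ), (1 : ℝ) ≤ ∫ a in c..(c + θ), ulen X a α β := by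
    refine intervalIntegral.integral_mono_on_of_le_Ioo (by linarith) (by simp)
      (ulen_intervalIntegrable X α β _ _) ?_
    intro a ha
    exact hulen a ha
  rw [intervalIntegral.integral_const, smul_eq_mul, mul_one] at hI2
  have hu := unc_le_T (n := n) hX α β
  have hu2 : (1 / h0) * θ ≤ unc X n α β := by
    unfold unc
    refine mul_le_mul_of_nonneg_left ?_ (by positivity)
    linarith
  have hu3 : ε < (1 / h0) * θ := by
    rw [one_div, ← div_eq_inv_mul, lt_div_iff₀ hh]
    linarith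
  linarith

end Pool.Agent.StripNear
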