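import Pool.Agent.StripNear.NearOne
import Pool.Agent.StripNear.TFacts

/-! # Small loss implies lattice rows: one step of the induction on the rows -/

namespace Pool.Agent.StripNear

variable {X : Finset Pt} {n : ℕ}

/-- Seeds of row `k`. -/
theorem row_seed (hX : UnitSep X) {k : ℕ} (hk : k ≤ n + 1) {κ ε α β : ℝ} (hκ : 0 ≤ κ)
    (hε : 0 < ε) (hs : κ + ε ≤ 1 / 100) (hR : Rows X k κ α β) (hT : T X n α β ≤ ε) {u : ℝ}
    (h1 : α + 3 ≤ u) (h2 : u < β) :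
    ∃ p ∈ X, u - 3 < p.1 ∧ p.1 ≤ u ∧ |p.2 - k * h0| ≤ κ + ε := by
  have hh1 := h0_gt
  have hh2 := h0_lt
  obtain ⟨p, hp, hp1, hp2, hp3, hp4⟩ := seed (n := n) hX (α := α) (β := β) (ε := ε) (κ := κ)
    (θ := ε) hT (by nlinarith) hκ (by linarith) hk (u := u) (by linarith) h2.le
  refine ⟨p, hp, hp1, hp2, ?_⟩
  rcases hR.1 p hp (by linarith) (by linarith) with ⟨r, hr, hr2⟩ | h
  · exfalso
    have hr3 : (r : ℝ) + 1 ≤ k := by exact_mod_cast hr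
    have h3 := (abs_le.1 hr2).2
    nlinarith
  · rw [abs_le]
    constructor <;> linarith

/-- Neighbour of a point of row `k`. -/
theorem row_next (hX : UnitSep X) {k : ℕ} {κ ε τ α β : ℝ} (hκ : 0 ≤ κ) (hε : 0 ≤ ε)
    (hτ : 0 ≤ τ) (hs : κ + ε + τ ≤ 1 / 1000) (hR : Rows X k κ α β) (hT : T X n α β ≤ ε)
    {p : Pt} (hp : p ∈ X) (h1 : α ≤ p.1) (h2 : p.1 + 2 < β) (h3 : |p.2 - k * h0| ≤ τ) :
    ∃ q ∈ X, Near (40 * (κ + τ + ε)) p 1 0 q := by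
  have hh1 := h0_gt
  have h3' := abs_le.1 h3
  apply near_one hX hp (κ := κ + τ) (by linarith) (by linarith) hε (by linarith)
  · intro q hq hq1 hq2 hq3
    rcases hR.1 q hq (by linarith) (by linarith) with ⟨r, hr, hr2⟩ | h
    · exfalso
      have hr3 : (r : ℝ) + 1 ≤ k := by exact_mod_cast hr
      have h4 := (abs_le.1 hr2).2
      nlinarith [h3'.1]
    · linarith [h3'.2]
  · exact (slack_le_T hX hp h1 (by linarith)).trans hT

private theorem rs_step (hX : UnitSep X) {k : ℕ} {κ ε α β : ℝ} (hκ : 0 ≤ κ) (hε : 0 ≤ ε)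
    (hs : 10 ^ 12 * (κ + ε) ≤ 1) (hR : Rows X k κ α β) (hT : T X n α β ≤ ε)
    {p : Pt} (h1 : α ≤ p.1) (h2 : p.1 + 8 < β) {q : Pt} (hq : q ∈ X) {i c : ℝ}
    (hi0 : i = 0 ∨ 1 ≤ i) (hi1 : i ≤ 4) (hc0 : 0 ≤ c) (hc : c ≤ 6 * 10 ^ 6)
    (hq0 : i = 0 → q = p)
    (hq1 : |q.2 - k * h0| ≤ c * (κ + ε)) (hq2 : |q.1 - p.1 - i| ≤ c * (κ + ε)) :
    ∃ q' ∈ X, Near (10 ^ 9 * (κ + ε)) q 1 0 q' ∧ |q'.2 - k * h0| ≤ (41 * c + 40) * (κ + ε) ∧
      |q'.1 - p.1 - (i + 1)| ≤ (41 * c + 40) * (κ + ε) := by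
  have hs0 : 0 ≤ κ + ε := by linarith
  have hcs : c * (κ + ε) ≤ 6 * 10 ^ 6 * (κ + ε) := by gcongr
  have hcs0 : 0 ≤ c * (κ + ε) := by positivity
  have hq2' := abs_le.1 hq2
  obtain ⟨q', hq', hn1, hn2⟩ := row_next (n := n) hX (k := k) hκ hε hcs0 (by linarith) hR hT hq
    (by
      rcases hi0 with rfl | hi
      · rw [hq0 rfl]; exact h1
      · linarith [hq2'.1])
    (by linarith [hq2'.2]) hq1
  have hn1' := abs_le.1 hn1
  have hn2' := abs_le.1 hn2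
  have hq1' := abs_le.1 hq1
  refine ⟨q', hq', ⟨hn1.trans ?_, hn2.trans ?_⟩, ?_, ?_⟩
  · linarith
  · linarith
  · rw [abs_le]
    constructor <;> linarith [hn2'.1, hn2'.2, hq1'.1, hq1'.2]
  · rw [abs_le]
    constructor <;> linarith [hn1'.1, hn1'.2, hq2'.1, hq2'.2]

/-- Five neighbours in a row. -/
theorem row_iter (hX : UnitSep X) {k : ℕ} {κ ε α β : ℝ} (hκ : 0 ≤ κ) (hε : 0 ≤ ε)
    (hs : 10 ^ 12 * (κ + ε) ≤ 1) (hR : Rows X k κ α β) (hT : T X n α β ≤ ε)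
    {p : Pt} (hp : p ∈ X) (h1 : α ≤ p.1) (h2 : p.1 + 8 < β) (h3 : |p.2 - k * h0| ≤ κ + ε) :
    ∃ z : ℕ → Pt, z 0 = p ∧ ∀ i ≤ 5, z i ∈ X ∧ |(z i).2 - k * h0| ≤ 10 ^ 9 * (κ + ε) ∧
      |(z i).1 - p.1 - i| ≤ 10 ^ 9 * (κ + ε) ∧
      (i < 5 → Near (10 ^ 9 * (κ + ε)) (z i) 1 0 (z (i + 1))) := by
  have hs0 : 0 ≤ κ + ε := by linarith
  obtain ⟨z1, hz1, n1, a1, b1⟩ := rs_step (n := n) hX hκ hε hs hR hT h1 h2 hp (i := 0) (c := 1)
    (Or.inl rfl) (by norm_num) (by norm_num) (by norm_num) (fun _ => rfl) (by linarith)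
    (by simpa using hs0)
  obtain ⟨z2, hz2, n2, a2, b2⟩ := rs_step (n := n) hX hκ hε hs hR hT h1 h2 hz1
    (Or.inr (by norm_num)) (by norm_num) (by norm_num) (by norm_num)
    (fun h => absurd h (by norm_num)) a1 b1
  obtain ⟨z3, hz3, n3, a3, b3⟩ := rs_step (n := n) hX hκ hε hs hR hT h1 h2 hz2
    (Or.inr (by norm_num)) (by norm_num) (by norm_num) (by norm_num)
    (fun h => absurd h (by norm_num)) a2 b2
  obtain ⟨z4, hz4, n4, a4, b4⟩ := rs_step (n := n) hX hκ hε hs hR hT h1 h2 hz3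
    (Or.inr (by norm_num)) (by norm_num) (by norm_num) (by norm_num)
    (fun h => absurd h (by norm_num)) a3 b3
  obtain ⟨z5, hz5, n5, a5, b5⟩ := rs_step (n := n) hX hκ hε hs hR hT h1 h2 hz4
    (Or.inr (by norm_num)) (by norm_num) (by norm_num) (by norm_num)
    (fun h => absurd h (by norm_num)) a4 b4
  have key : ∀ {c x : ℝ}, c ≤ 10 ^ 9 → x ≤ c * (κ + ε) → x ≤ 10 ^ 9 * (κ + ε) := by
    intro c x hc hx
    exact hx.trans (mul_le_mul_of_nonneg_right hc hs0)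
  refine ⟨fun i => match i with
    | 0 => p
    | 1 => z1
    | 2 => z2
    | 3 => z3
    | 4 => z4
    | _ => z5, rfl, ?_⟩
  intro i hi
  obtain rfl | rfl | rfl | rfl | rfl | rfl : i = 0 ∨ i = 1 ∨ i = 2 ∨ i = 3 ∨ i = 4 ∨ i = 5 := by
    omega
  · show p ∈ X ∧ |p.2 - k * h0| ≤ 10 ^ 9 * (κ + ε) ∧
      |p.1 - p.1 - ((0 : ℕ) : ℝ)| ≤ 10 ^ 9 * (κ + ε) ∧
      (0 < 5 → Near (10 ^ 9 * (κ + ε)) p 1 0 z1)
    refine ⟨hp, key (c := 1) (by norm_num) (by linarith), ?_, fun _ => n1⟩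
    have : p.1 - p.1 - ((0 : ℕ) : ℝ) = 0 := by push_cast; ring
    rw [this, abs_zero]
    positivity
  · show z1 ∈ X ∧ |z1.2 - k * h0| ≤ 10 ^ 9 * (κ + ε) ∧
      |z1.1 - p.1 - ((1 : ℕ) : ℝ)| ≤ 10 ^ 9 * (κ + ε) ∧
      (1 < 5 → Near (10 ^ 9 * (κ + ε)) z1 1 0 z2)
    refine ⟨hz1, key (by norm_num) a1, ?_, fun h => n2⟩
    have : z1.1 - p.1 - ((1 : ℕ) : ℝ) = z1.1 - p.1 - (0 + 1) := by push_cast; ring
    rw [this]
    exact key (by norm_num) b1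
  · show z2 ∈ X ∧ |z2.2 - k * h0| ≤ 10 ^ 9 * (κ + ε) ∧
      |z2.1 - p.1 - ((2 : ℕ) : ℝ)| ≤ 10 ^ 9 * (κ + ε) ∧
      (2 < 5 → Near (10 ^ 9 * (κ + ε)) z2 1 0 z3)
    refine ⟨hz2, key (by norm_num) a2, ?_, fun h => n3⟩
    have : z2.1 - p.1 - ((2 : ℕ) : ℝ) = z2.1 - p.1 - (0 + 1 + 1) := by push_cast; ring
    rw [this]
    exact key (by norm_num) b2
  · show z3 ∈ X ∧ |z3.2 - k * h0| ≤ 10 ^ 9 * (κ + ε) ∧
      |z3.1 - p.1 - ((3 : ℕ) : ℝ)| ≤ 10 ^ 9 * (κ + ε) ∧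
      (3 < 5 → Near (10 ^ 9 * (κ + ε)) z3 1 0 z4)
    refine ⟨hz3, key (by norm_num) a3, ?_, fun h => n4⟩
    have : z3.1 - p.1 - ((3 : ℕ) : ℝ) = z3.1 - p.1 - (0 + 1 + 1 + 1) := by push_cast; ring
    rw [this]
    exact key (by norm_num) b3
  · show z4 ∈ X ∧ |z4.2 - k * h0| ≤ 10 ^ 9 * (κ + ε) ∧
      |z4.1 - p.1 - ((4 : ℕ) : ℝ)| ≤ 10 ^ 9 * (κ + ε) ∧
      (4 < 5 → Near (10 ^ 9 * (κ + ε)) z4 1 0 z5)
    refine ⟨hz4, key (by norm_num) a4, ?_, fun h => n5⟩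
    have : z4.1 - p.1 - ((4 : ℕ) : ℝ) = z4.1 - p.1 - (0 + 1 + 1 + 1 + 1) := by push_cast; ring
    rw [this]
    exact key (by norm_num) b4
  · show z5 ∈ X ∧ |z5.2 - k * h0| ≤ 10 ^ 9 * (κ + ε) ∧
      |z5.1 - p.1 - ((5 : ℕ) : ℝ)| ≤ 10 ^ 9 * (κ + ε) ∧
      (5 < 5 → Near (10 ^ 9 * (κ + ε)) z5 1 0 z5)
    refine ⟨hz5, key (by norm_num) a5, ?_, fun h => absurd h (by norm_num)⟩
    have : z5.1 - p.1 - ((5 : ℕ) : ℝ) = z5.1 - p.1 - (0 + 1 + 1 + 1 + 1 + 1) := by push_cast; ring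
    rw [this]
    exact key (by norm_num) b5

/-- Two consecutive points of row `k` around a given abscissa. -/
theorem row_around (hX : UnitSep X) {k : ℕ} (hk : k ≤ n + 1) {κ ε α β : ℝ} (hκ : 0 ≤ κ)
    (hε : 0 < ε) (hs : 10 ^ 12 * (κ + ε) ≤ 1) (hR : Rows X k κ α β) (hT : T X n α β ≤ ε)
    {u : ℝ} (h1 : α + 4 ≤ u) (h2 : u + 8 < β) :
    ∃ z ∈ X, ∃ z' ∈ X, z.1 ≤ u ∧ u < z'.1 ∧ Near (10 ^ 9 * (κ + ε)) z 1 0 z' ∧
      |z.2 - k * h0| ≤ 10 ^ 9 * (κ + ε) ∧ |z'.2 - k * h0| ≤ 10 ^ 9 * (κ + ε) := by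
  classical
  obtain ⟨p, hp, hp1, hp2, hp3⟩ := row_seed (n := n) hX hk hκ hε (by linarith) hR hT (u := u)
    (by linarith) (by linarith)
  obtain ⟨z, hz0, hz⟩ := row_iter (n := n) hX hκ hε.le hs hR hT hp (by linarith) (by linarith) hp3
  have hex : ∃ i, u < (z i).1 := by
    refine ⟨4, ?_⟩
    have := (abs_le.1 (hz 4 (by norm_num)).2.2.1).1
    push_cast at this
    linarith
  have hlt : u < (z (Nat.find hex)).1 := Nat.find_spec hex
  have hle : Nat.find hex ≤ 4 := by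
    apply Nat.find_min' hex
    have := (abs_le.1 (hz 4 (by norm_num)).2.2.1).1
    push_cast at this
    linarith
  have hpos : Nat.find hex ≠ 0 := by
    intro h0
    rw [h0, hz0] at hlt
    linarith
  obtain ⟨i, hi⟩ := Nat.exists_eq_succ_of_ne_zero hpos
  have hi' : Nat.find hex = i + 1 := hi
  have hmin : ¬ u < (z i).1 := Nat.find_min hex (by omega)
  rw [hi'] at hlt hle
  have hzi := hz i (by omega)
  have hzi1 := hz (i + 1) (by omega)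
  exact ⟨z i, hzi.1, z (i + 1), hzi1.1, not_lt.1 hmin, hlt, hzi.2.2.2 (by omega), hzi.2.1,
    hzi1.2.1⟩

private theorem rs_above (hX : UnitSep X) {k : ℕ} (hk : k ≤ n + 1) {κ ε α β : ℝ} (hκ : 0 ≤ κ)
    (hε : 0 < ε) (hs : 10 ^ 12 * (κ + ε) ≤ 1) (hR : Rows X k κ α β) (hT : T X n α β ≤ ε)
    {p : Pt} (hp : p ∈ X) (h1 : α + 8 ≤ p.1) (h2 : p.1 < β - 8) (h3 : k * h0 - κ ≤ p.2) :
    (|p.2 - k * h0| ≤ 10 ^ 9 * (κ + ε) ∧ ∃ q ∈ X, Near (10 ^ 9 * (κ + ε)) p 1 0 q) ∨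
      (k + 1) * h0 - 2 * (10 ^ 9 * (κ + ε)) ≤ p.2 := by
  have hh1 := h0_gt
  have hh2 := h0_lt
  have hsq := h0_sq
  obtain ⟨z, hz, z', hz', ha, hb, hn, hv, hv'⟩ := row_around (n := n) hX hk hκ hε hs hR hT
    (u := p.1) (by linarith) (by linarith)
  by_cases hpz : p = z
  · left
    subst hpz
    exact ⟨hv, z', hz', hn⟩
  · right
    have hpz' : p ≠ z' := by
      rintro rfl
      exact lt_irrefl _ hb
    set e := 10 ^ 9 * (κ + ε) with he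
    have he0 : 0 ≤ e := by positivity
    have he1 : e ≤ 1 / 1000 := by rw [he]; linarith
    have hκe : κ ≤ e := by rw [he]; linarith
    have hn1 := (abs_le.1 hn.1).2
    have claim : ∀ w : Pt, w ∈ X → p ≠ w → |w.2 - k * h0| ≤ e →
        |p.1 - w.1| ≤ (1 + e) / 2 → (k + 1) * h0 - 2 * e ≤ p.2 := by
      intro w hw hpw hwv hd
      have hd2 := hX p hp w hw hpw
      have hd' := abs_le.1 hd
      have hwv' := abs_le.1 hwv
      have h5 : (p.1 - w.1) ^ 2 ≤ ((1 + e) / 2) ^ 2 := by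
        apply sq_le_sq'
        · exact hd'.1
        · exact hd'.2
      have h6 : (h0 - e) ^ 2 ≤ (p.2 - w.2) ^ 2 := by nlinarith
      by_contra hcon
      push Not at hcon
      have h7 : |p.2 - w.2| < h0 - e := by
        rw [abs_lt]
        constructor
        · linarith [hwv'.2]
        · linarith [hwv'.1]
      have h8 : (p.2 - w.2) ^ 2 < (h0 - e) ^ 2 := by
        rw [← sq_abs]
        apply pow_lt_pow_left₀ h7 (abs_nonneg _) (by norm_num)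
      linarith
    rcases le_total (p.1 - z.1) ((1 + e) / 2) with hle | hle
    · apply claim z hz hpz hv
      rw [abs_of_nonneg (by linarith)]
      exact hle
    · apply claim z' hz' hpz' hv'
      rw [abs_of_nonpos (by linarith)]
      linarith

theorem row_step (hX : UnitSep X) {k : ℕ} (hk : k ≤ n + 1) {κ ε α β : ℝ} (hκ : 0 ≤ κ)
    (hε : 0 < ε) (hs : 10 ^ 12 * (κ + ε) ≤ 1) (hR : Rows X k κ α β) (hT : T X n α β ≤ ε) :
    Rows X (k + 1) (10 ^ 10 * (κ + ε)) (α + 8) (β - 8) := by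
  have hh1 := h0_gt
  have hh2 := h0_lt
  have hmono : ∀ {x : ℝ}, x ≤ κ → x ≤ 10 ^ 10 * (κ + ε) := by
    intro x hx
    linarith
  have hmono9 : ∀ {x : ℝ}, x ≤ 10 ^ 9 * (κ + ε) → x ≤ 10 ^ 10 * (κ + ε) := by
    intro x hx
    linarith
  refine ⟨?_, ?_, ?_⟩
  · intro p hp h1 h2
    rcases hR.1 p hp (by linarith) (by linarith) with ⟨r, hr, hr2⟩ | h
    · exact Or.inl ⟨r, by omega, hmono hr2⟩
    · rcases rs_above (n := n) hX hk hκ hε hs hR hT hp h1 h2 h with ⟨h3, -⟩ | h3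
      · exact Or.inl ⟨k, by omega, hmono9 h3⟩
      · right
        push_cast
        linarith
  · intro r hr u hu1 hu2
    rcases Nat.lt_succ_iff_lt_or_eq.1 hr with hr' | rfl
    · obtain ⟨p, hp, hp1, hp2, hp3⟩ := hR.2.1 r hr' u (by linarith) (by linarith)
      exact ⟨p, hp, hp1, hp2, hmono hp3⟩
    · obtain ⟨p, hp, hp1, hp2, hp3⟩ := row_seed (n := n) hX hk hκ hε (by linarith) hR hT (u := u)
        (by linarith) (by linarith)
      exact ⟨p, hp, by linarith, hp2, by linarith⟩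
  · intro r hr p hp h1 h2 h3
    have h3' := abs_le.1 h3
    rcases Nat.lt_succ_iff_lt_or_eq.1 hr with hr' | rfl
    · have hrk : (r : ℝ) + 1 ≤ k := by exact_mod_cast hr'
      rcases hR.1 p hp (by linarith) (by linarith) with ⟨r', hr1, hr2⟩ | h
      · have hr2' := abs_le.1 hr2
        have : r' = r := by
          rcases lt_trichotomy r' r with hlt | heq | hgt
          · exfalso
            have : (r' : ℝ) + 1 ≤ r := by exact_mod_cast hlt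
            nlinarith [h3'.1, hr2'.2]
          · exact heq
          · exfalso
            have : (r : ℝ) + 1 ≤ r' := by exact_mod_cast hgt
            nlinarith [h3'.2, hr2'.1]
        subst this
        obtain ⟨q, hq, hn⟩ := hR.2.2 r' hr1 p hp (by linarith) (by linarith) hr2
        exact ⟨q, hq, hmono hn.1, hmono hn.2⟩
      · exfalso
        nlinarith [h3'.2]
    · have hk3 : r * h0 - κ ≤ p.2 := by
        rcases hR.1 p hp (by linarith) (by linarith) with ⟨r', hr1, hr2⟩ | h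
        · exfalso
          have hr2' := abs_le.1 hr2
          have : (r' : ℝ) + 1 ≤ r := by exact_mod_cast hr1
          nlinarith [h3'.1, hr2'.2]
        · exact h
      rcases rs_above (n := n) hX hk hκ hε hs hR hT hp h1 h2 hk3 with ⟨-, q, hq, hn⟩ | h
      · exact ⟨q, hq, hmono9 hn.1, hmono9 hn.2⟩
      · exfalso
        linarith [h3'.2]

end Pool.Agent.StripNear
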